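import Pool.Agent.Helper5.SY.Defs

/-!
# Frame properties
-/

namespace Pool.Agent.Helper5.SX

open Function

/-- A program leaves the stacks that it does not name unchanged. -/
theorem run_frame {O : Set Str} {c : Cmd} {s s' : Store} {t : ℕ} (h : Run O c s t s') :
    ∀ r, c.bd ≤ r → s' r = s r := by
  induction h with
  | skip s => intro r _; rfl
  | push r₀ b s =>
    intro r hr
    simp only [Cmd.bd] at hr
    rw [update_of_ne (by omega)]
  | seq _ _ ih1 ih2 =>
    intro r hr
    simp only [Cmd.bd] at hr
    rw [ih2 r (by omega), ih1 r (by omega)]
  | pop_nil _ _ ih =>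
    intro r hr
    simp only [Cmd.bd] at hr
    exact ih r (by omega)
  | pop_false _ _ ih =>
    intro r hr
    simp only [Cmd.bd] at hr
    rw [ih r (by omega), update_of_ne (by omega)]
  | pop_true _ _ ih =>
    intro r hr
    simp only [Cmd.bd] at hr
    rw [ih r (by omega), update_of_ne (by omega)]
  | loop_nil _ => intro r _; rfl
  | loop_cons _ _ _ ih1 ih2 =>
    intro r hr
    rw [ih2 r hr]
    simp only [Cmd.bd] at hr
    exact ih1 r (by omega)
  | query_yes _ _ ih =>
    intro r hr
    simp only [Cmd.bd] at hr
    exact ih r (by omega)
  | query_no _ _ ih =>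
    intro r hr
    simp only [Cmd.bd] at hr
    exact ih r (by omega)
  | choose_left _ ih =>
    intro r hr
    simp only [Cmd.bd] at hr
    exact ih r (by omega)
  | choose_right _ ih =>
    intro r hr
    simp only [Cmd.bd] at hr
    exact ih r (by omega)

/-- Removing the top of a stack keeps the bound on the lengths. -/
theorem update_len {s : Store} {r₀ : ℕ} {b : Bool} {w : Str} {L : ℕ} (h : s r₀ = b :: w)
    (hL : ∀ r, (s r).length ≤ L) : ∀ r, (update s r₀ w r).length ≤ L := by
  intro r
  by_cases hr : r = r₀
  · subst hr
    rw [update_self]
    have := hL r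
    rw [h] at this
    simp only [List.length_cons] at this
    omega
  · rw [update_of_ne hr]
    exact hL r

/-- Stacks grow by at most one symbol per step. -/
theorem run_len {O : Set Str} {c : Cmd} {s s' : Store} {t L : ℕ} (h : Run O c s t s')
    (hL : ∀ r, (s r).length ≤ L) : ∀ r, (s' r).length ≤ L + t := by
  induction h generalizing L with
  | skip s => intro r; have := hL r; omega
  | push r₀ b s =>
    intro r
    by_cases hr : r = r₀
    · subst hr
      rw [update_self]
      have := hL r
      simp only [List.length_cons]
      omega
    · rw [update_of_ne hr]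
      have := hL r
      omega
  | seq _ _ ih1 ih2 =>
    intro r
    have := ih2 (ih1 hL) r
    omega
  | pop_nil _ _ ih =>
    intro r
    have := ih hL r
    omega
  | pop_false h1 _ ih =>
    intro r
    have := ih (update_len h1 hL) r
    omega
  | pop_true h1 _ ih =>
    intro r
    have := ih (update_len h1 hL) r
    omega
  | loop_nil _ => intro r; have := hL r; omega
  | loop_cons _ _ _ ih1 ih2 =>
    intro r
    have := ih2 (ih1 hL) r
    omega
  | query_yes _ _ ih =>
    intro r
    have := ih hL r
    omega
  | query_no _ _ ih =>
    intro r
    have := ih hL r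
    omega
  | choose_left _ ih =>
    intro r
    have := ih hL r
    omega
  | choose_right _ ih =>
    intro r
    have := ih hL r
    omega

end Pool.Agent.Helper5.SX
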