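import Pool.Agent.Helper5.SY.Logic

/-!
# Programs: copying, clocks, calls, enumeration of strings
-/

namespace Pool.Agent.Helper5.SX

open Function

/-- The scratch stacks are empty. -/
def Low (s : Store) : Prop := ∀ r, 30 ≤ r → s r = []

/-- Constantly `true` and constantly `false`. -/
def tt : Bool → Bool := fun _ => true

def ff : Bool → Bool := fun _ => false

/-- Put a copy of stack `r`, changed by `g`, on top of stack `u` (through stack 31). -/
def cpg (g : Bool → Bool) (r u : ℕ) : Cmd :=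
  Cmd.seq (Cmd.loop r (Cmd.pop r Cmd.skip (Cmd.push 31 false) (Cmd.push 31 true)))
    (Cmd.loop 31 (Cmd.pop 31 Cmd.skip
      (Cmd.seq (Cmd.push r false) (Cmd.push u (g false)))
      (Cmd.seq (Cmd.push r true) (Cmd.push u (g true)))))

/-- Double the unary stack `u`. -/
def dbl (u : ℕ) : Cmd :=
  Cmd.seq (Cmd.loop u (Cmd.pop u Cmd.skip Cmd.skip
      (Cmd.seq (Cmd.push 31 true) (Cmd.push 31 true))))
    (Cmd.loop 31 (Cmd.pop 31 Cmd.skip Cmd.skip (Cmd.push u true)))

/-- `k` nested loops over the length of stack `r`. -/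
def rep (body : Cmd) (r : ℕ) : ℕ → Cmd
  | 0 => body
  | k + 1 => Cmd.seq (cpg tt r (34 + 2 * k))
      (Cmd.loop (34 + 2 * k) (Cmd.pop (34 + 2 * k) Cmd.skip Cmd.skip (rep body r k)))

/-- `k` times `c`. -/
def iterc (c : Cmd) : ℕ → Cmd
  | 0 => Cmd.skip
  | k + 1 => Cmd.seq c (iterc c k)

/-- Write the clock `2^(n^k+k)` in unary on stack 32, `n` = length of stack `r`. -/
def mkclk (k r : ℕ) : Cmd :=
  Cmd.seq (Cmd.push 32 true) (Cmd.seq (rep (dbl 32) r k) (iterc (dbl 32) k))

/-- The stacks used by a called program. -/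
def fr (r : ℕ) : ℕ := 2 * r + 33

/-- Renaming of the stacks of a program. -/
def ren : Cmd → Cmd
  | Cmd.skip => Cmd.skip
  | Cmd.push r b => Cmd.push (fr r) b
  | Cmd.seq c d => Cmd.seq (ren c) (ren d)
  | Cmd.pop r c₀ c₁ c₂ => Cmd.pop (fr r) (ren c₀) (ren c₁) (ren c₂)
  | Cmd.loop r c => Cmd.loop (fr r) (ren c)
  | Cmd.query r c d => Cmd.query (fr r) (ren c) (ren d)
  | Cmd.choose c d => Cmd.choose (ren c) (ren d)

/-- Take one symbol off the clock; no halting run if it is empty. -/
def tick : Cmd := Cmd.pop 32 diverge Cmd.skip Cmd.skip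

/-- The clocked program: it takes one symbol off the clock for each step. -/
def clk : Cmd → Cmd
  | Cmd.skip => Cmd.seq tick Cmd.skip
  | Cmd.push r b => Cmd.seq tick (Cmd.push r b)
  | Cmd.seq c d => Cmd.seq (clk c) (clk d)
  | Cmd.pop r c₀ c₁ c₂ => Cmd.seq tick (Cmd.pop r (clk c₀) (clk c₁) (clk c₂))
  | Cmd.loop r c => Cmd.seq tick (Cmd.loop r (Cmd.seq (clk c) tick))
  | Cmd.query r c d => Cmd.seq tick (Cmd.query r (clk c) (clk d))
  | Cmd.choose c d => Cmd.seq tick (Cmd.choose (clk c) (clk d))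

/-- All stacks named by the program are below this number. -/
def Cmd.bd : Cmd → ℕ
  | Cmd.skip => 0
  | Cmd.push r _ => r + 1
  | Cmd.seq c d => max c.bd d.bd
  | Cmd.pop r c₀ c₁ c₂ => max (r + 1) (max c₀.bd (max c₁.bd c₂.bd))
  | Cmd.loop r c => max (r + 1) c.bd
  | Cmd.query r c d => max (r + 1) (max c.bd d.bd)
  | Cmd.choose c d => max c.bd d.bd

/-- Empty the stacks `fr 0, …, fr (b-1)`. -/
def clrs : ℕ → Cmd
  | 0 => Cmd.skip
  | b + 1 => Cmd.seq (clr (fr b)) (clrs b)

/-- Run `c` on the input on stack 33 and the advice on stack 35, with the clock on stack 32;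
check acceptance; clean up. -/
def callp (c : Cmd) : Cmd :=
  Cmd.seq (clk (ren c)) (Cmd.seq (assertNE 37) (Cmd.seq (clr 32) (clrs (max c.bd 3))))

/-- Check that `c` can accept the content of `rx` with the advice on `ra` in time
`2^(n^k+k)`, `n` = length of `rx`. -/
def call (c : Cmd) (k rx ra : ℕ) : Cmd :=
  Cmd.seq (cpg id rx 33) (Cmd.seq (cpg id ra 35) (Cmd.seq (mkclk k rx) (callp c)))

/-! ### enumeration of the strings of length `n` on stack 10 -/

/-- All strings of length `n`, in the order of a binary counter (least significant bit first). -/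
def allStr : ℕ → List Str
  | 0 => [[]]
  | n + 1 => (allStr n).flatMap (fun w => [false :: w, true :: w])

/-- Chains of steps along a list of strings. -/
def Ch {V : Type} (β : Str → V → V → Prop) : List Str → V → V → Prop
  | [], v, v' => v = v'
  | x :: l, v, v' => ∃ v₁, β x v v₁ ∧ Ch β l v₁ v'

/-- The binary counter: `none` at `11…1`. -/
def sc : Str → Option Str
  | [] => none
  | false :: w => some (true :: w)
  | true :: w => (sc w).map (fun v => false :: v)

/-- Add one to the counter on stack 10; at an overflow empty the flag on stack 11. -/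
def incr : Cmd :=
  Cmd.seq (Cmd.push 12 true)
    (Cmd.seq (Cmd.loop 12 (Cmd.pop 10 (Cmd.seq (clr 12) (clr 11))
        (Cmd.seq (Cmd.push 10 true) (clr 12)) (Cmd.push 13 true)))
      (Cmd.loop 13 (Cmd.pop 13 Cmd.skip Cmd.skip (Cmd.push 10 false))))

/-- Run `body` for each string of the length of stack 10, which must be `00…0` at the start. -/
def enum (body : Cmd) : Cmd := Cmd.seq (Cmd.push 11 true) (Cmd.loop 11 (Cmd.seq body incr))

/-! ### guessing, arithmetic, strings by number -/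

/-- Guess a unary number on stack `r` (flag on stack 5). -/
def gU (r : ℕ) : Cmd :=
  Cmd.seq (Cmd.push 5 true) (Cmd.loop 5 (Cmd.choose (clr 5) (Cmd.push r true)))

/-- Guess a string on stack 10 of the length of stack 3. -/
def gX : Cmd :=
  Cmd.seq (cpg tt 3 6) (Cmd.loop 6 (Cmd.pop 6 Cmd.skip Cmd.skip
    (Cmd.choose (Cmd.push 10 false) (Cmd.push 10 true))))

/-- From `n` on stack 3 and `m` on stack 4 compute `(n+m)^2+n` on stack 5 (all unary). -/
def sqp : Cmd :=
  Cmd.seq (cpg tt 3 6) (Cmd.seq (cpg tt 4 6) (Cmd.seq (cpg tt 6 8)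
    (Cmd.seq (Cmd.loop 8 (Cmd.pop 8 Cmd.skip Cmd.skip (cpg tt 6 5)))
      (Cmd.seq (clr 6) (cpg tt 3 5)))))

/-- Check that stack 0 is unary and equal to the unary stack 5; empty both. -/
def eqp : Cmd :=
  Cmd.seq (Cmd.loop 0 (Cmd.pop 0 Cmd.skip diverge (Cmd.pop 5 diverge Cmd.skip Cmd.skip)))
    (assertE 5)

/-- The next string. -/
def wsucc : Str → Str
  | [] => [false]
  | false :: w => true :: w
  | true :: w => false :: wsucc w

/-- The string with number `m`. -/
def wstr : ℕ → Str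
  | 0 => []
  | m + 1 => wsucc (wstr m)

/-- Replace the string on stack 7 by the next one. -/
def wincr : Cmd :=
  Cmd.seq (Cmd.push 12 true)
    (Cmd.seq (Cmd.loop 12 (Cmd.pop 7 (Cmd.seq (Cmd.push 7 false) (clr 12))
        (Cmd.seq (Cmd.push 7 true) (clr 12)) (Cmd.push 13 true)))
      (Cmd.loop 13 (Cmd.pop 13 Cmd.skip Cmd.skip (Cmd.push 7 false))))

/-- From the unary number `m` on stack 4 compute the string with number `m` on stack 7. -/
def decp : Cmd := Cmd.seq (cpg tt 4 6) (Cmd.loop 6 (Cmd.pop 6 Cmd.skip Cmd.skip wincr))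

/-- The value of a binary numeral (most significant bit first) after the number `m`. -/
def uvalAux : Str → ℕ → ℕ
  | [], m => m
  | b :: a, m => uvalAux a (2 * m + (if b then 1 else 0))

def uval (a : Str) : ℕ := uvalAux a 0

/-- Turn the binary numeral on stack 1 into a unary number on stack 4. -/
def horner : Cmd :=
  Cmd.loop 1 (Cmd.pop 1 Cmd.skip (dbl 4) (Cmd.seq (dbl 4) (Cmd.push 4 true)))

/-- Check that stacks 10 and 0 (of the same length) are different. -/
def neqp : Cmd :=
  Cmd.seq (cpg id 10 14) (Cmd.seq (cpg id 0 15)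
    (Cmd.seq (Cmd.loop 14 (Cmd.pop 14 Cmd.skip
        (Cmd.pop 15 Cmd.skip Cmd.skip (Cmd.push 16 true))
        (Cmd.pop 15 Cmd.skip (Cmd.push 16 true) Cmd.skip)))
      (Cmd.seq (assertNE 16) (clr 16))))

/-! ### the three programs of the equivalence -/

/-- The tally set of the pairs `(n,m)` for which some `x` of length `n` is accepted by `cA`
and, with the string number `m` as advice, by `cB`. -/
def SA (O : Set Str) (cA : Cmd) (kA : ℕ) (cB : Cmd) (kB : ℕ) : Set Str :=
  {z | ∃ n m : ℕ, z = List.replicate ((n + m) ^ 2 + n) true ∧ ∃ x : Str, x.length = n ∧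
    Acc O cA x [] (2 ^ (n ^ kA + kA)) ∧ Acc O cB x (wstr m) (2 ^ (n ^ kB + kB))}

/-- Program for `SA`. -/
def Q1 (cA : Cmd) (kA : ℕ) (cB : Cmd) (kB : ℕ) : Cmd :=
  Cmd.seq (gU 3) (Cmd.seq (gU 4) (Cmd.seq sqp (Cmd.seq eqp (Cmd.seq gX (Cmd.seq decp
    (Cmd.seq (call cA kA 10 30) (Cmd.seq (call cB kB 10 7) (Cmd.push 2 true))))))))

/-- Program for the complement of the set of `cA`. -/
def Q2 (cA : Cmd) (kA : ℕ) (cB : Cmd) (kB : ℕ) (cS : Cmd) (kS : ℕ) : Cmd :=
  Cmd.seq (cpg tt 0 3) (Cmd.seq (gU 4) (Cmd.seq sqp (Cmd.seq decp (Cmd.seq (call cS kS 5 30)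
    (Cmd.seq (clr 5) (Cmd.seq (cpg ff 3 10)
      (Cmd.seq (enum (Cmd.choose (call cA kA 10 30) (call cB kB 10 7)))
        (Cmd.seq (call cB kB 0 7) (Cmd.push 2 true)))))))))

/-- Program for the complement of the set of `cA` with the census as advice (binary numeral on
stack 1). -/
def Q3 (cA : Cmd) (kA : ℕ) : Cmd :=
  Cmd.seq (cpg tt 0 3) (Cmd.seq (cpg ff 3 10) (Cmd.seq horner
    (Cmd.seq (enum (Cmd.choose Cmd.skip (Cmd.seq neqp (Cmd.seq (call cA kA 10 30)
        (Cmd.pop 4 diverge Cmd.skip Cmd.skip)))))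
      (Cmd.seq (assertE 4) (Cmd.push 2 true)))))

end Pool.Agent.Helper5.SX
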