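import Pool.Agent.Helper5.SY.Defs

/-!
# Copying and doubling
-/

namespace Pool.Agent.Helper5.SX

open Function

/-- The first loop of `cpg`. -/
theorem cpg_aux1 {O : Set Str} {s : Store} {r : ℕ} (hr : r ≠ 31) :
    Does O (Cmd.loop r (Cmd.pop r Cmd.skip (Cmd.push 31 false) (Cmd.push 31 true))) s
      (update (update s r []) 31 ((s r).reverse ++ s 31)) True (3 * (s r).length + 1) := by
  induction hw : s r generalizing s with
  | nil =>
    refine Does.congr (does_loop_nil hw) (fun _ => ?_) Iff.rfl
    rw [← hw, update_eq_self, hw, List.reverse_nil, List.nil_append, update_eq_self]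
  | cons b w ih =>
    have h1 : Does O (Cmd.pop r Cmd.skip (Cmd.push 31 false) (Cmd.push 31 true)) s
        (update (update s r w) 31 (b :: s 31)) True 2 := by
      have e : (update s r w) 31 = s 31 := update_of_ne hr.symm _ _
      cases b with
      | false =>
        refine Spec.pop_false hw ?_
        have := does_push (O := O) (s := update s r w) 31 false
        rwa [e] at this
      | true =>
        refine Spec.pop_true hw ?_
        have := does_push (O := O) (s := update s r w) 31 true
        rwa [e] at this
    have h2 := Does.loop_cons (by rw [hw]; simp) h1
      (fun _ => ih (s := update (update s r w) 31 (b :: s 31)) (by simp [hr]))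
    refine (Does.congr h2 (fun _ => ?_) (by simp)).mono ?_
    · ext q : 1
      by_cases hq : q = 31
      · subst hq
        simp
      · by_cases hq' : q = r
        · subst hq'
          simp [hq]
        · simp [hq, hq']
    · simp only [List.length_cons]
      omega

/-- The second loop of `cpg`. -/
theorem cpg_aux2 {O : Set Str} {s : Store} (g : Bool → Bool) {r u : ℕ}
    (hru : r ≠ u) (hr : r ≠ 31) (hu : u ≠ 31) :
    Does O (Cmd.loop 31 (Cmd.pop 31 Cmd.skip
      (Cmd.seq (Cmd.push r false) (Cmd.push u (g false)))
      (Cmd.seq (Cmd.push r true) (Cmd.push u (g true))))) s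
      (update (update (update s 31 []) r ((s 31).reverse ++ s r)) u
        ((s 31).reverse.map g ++ s u)) True (4 * (s 31).length + 1) := by
  induction hw : s 31 generalizing s with
  | nil =>
    refine Does.congr (does_loop_nil hw) (fun _ => ?_) Iff.rfl
    ext q : 1
    by_cases hq : q = u
    · subst hq
      simp
    · by_cases hq' : q = r
      · subst hq'
        simp [hq]
      · by_cases hq'' : q = 31
        · subst hq''
          simp [hq, hq', hw]
        · simp [hq, hq', hq'']
  | cons b w ih =>
    have h1 : Does O (Cmd.pop 31 Cmd.skip
      (Cmd.seq (Cmd.push r false) (Cmd.push u (g false)))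
      (Cmd.seq (Cmd.push r true) (Cmd.push u (g true)))) s
        (update (update (update s 31 w) r (b :: s r)) u (g b :: s u)) True 3 := by
      have key : ∀ b : Bool, Does O (Cmd.seq (Cmd.push r b) (Cmd.push u (g b))) (update s 31 w)
          (update (update (update s 31 w) r (b :: s r)) u (g b :: s u)) True 2 := by
        intro b
        refine Does.congr (Does.seq (does_push r b) fun _ => does_push u (g b)) (fun _ => ?_)
          (by simp)
        simp [hr, hu, hru.symm]
      cases b with
      | false => exact Spec.pop_false hw (key false)
      | true => exact Spec.pop_true hw (key true)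
    have h2 := Does.loop_cons (by rw [hw]; simp) h1
      (fun _ => ih (s := update (update (update s 31 w) r (b :: s r)) u (g b :: s u))
        (by simp [hr.symm, hu.symm]))
    refine (Does.congr h2 (fun _ => ?_) (by simp)).mono ?_
    · ext q : 1
      by_cases hq : q = u
      · subst hq
        simp
      · by_cases hq' : q = r
        · subst hq'
          simp [hq]
        · by_cases hq'' : q = 31
          · subst hq''
            simp [hq, hq']
          · simp [hq, hq', hq'']
    · simp only [List.length_cons]
      omega

/-- The first loop moves stack `r` to stack 31 (reversed), the second one moves it back and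
pushes the changed copy on `u`. Both loops by induction on the content of the popped stack. -/
theorem cpg_does {O : Set Str} {s : Store} (g : Bool → Bool) {r u : ℕ} (h31 : s 31 = [])
    (hru : r ≠ u) (hr : r ≠ 31) (hu : u ≠ 31) :
    Does O (cpg g r u) s (update s u ((s r).map g ++ s u)) True (8 * (s r).length + 2) := by
  unfold cpg
  refine (Does.congr (Does.seq (cpg_aux1 hr) fun _ => cpg_aux2 g hru hr hu) (fun _ => ?_)
    (by simp)).mono ?_
  · ext q : 1
    by_cases hq : q = u
    · subst hq
      simp [h31, hu, hru.symm]
    · by_cases hq' : q = r
      · subst hq'
        simp [hq, h31, hr]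
      · by_cases hq'' : q = 31
        · subst hq''
          simp [hq, hq', h31]
        · simp [hq, hq', hq'']
  · simp [h31]
    omega

/-- The first loop of `dbl`. -/
theorem dbl_aux1 {O : Set Str} {s : Store} {u m : ℕ} (hu : u ≠ 31)
    (hs : s u = List.replicate m true) :
    Does O (Cmd.loop u (Cmd.pop u Cmd.skip Cmd.skip
      (Cmd.seq (Cmd.push 31 true) (Cmd.push 31 true)))) s
      (update (update s u []) 31 (List.replicate (2 * m) true ++ s 31)) True (4 * m + 1) := by
  induction m generalizing s with
  | zero =>
    refine Does.congr (does_loop_nil hs) (fun _ => ?_) Iff.rfl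
    have : update s u [] = s := by
      have h : s u = [] := hs
      rw [← h, update_eq_self]
    rw [this]
    simp
  | succ m ih =>
    have h1 : Does O (Cmd.pop u Cmd.skip Cmd.skip
      (Cmd.seq (Cmd.push 31 true) (Cmd.push 31 true))) s
        (update (update s u (List.replicate m true)) 31 (true :: true :: s 31)) True 3 := by
      refine Spec.pop_true (w := List.replicate m true) (by rw [hs, List.replicate_succ]) ?_
      refine Does.congr (Does.seq (does_push 31 true) fun _ => does_push 31 true) (fun _ => ?_)
        (by simp)
      simp [hu.symm]
    have h2 := Does.loop_cons (by rw [hs]; simp) h1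
      (fun _ => ih (s := update (update s u (List.replicate m true)) 31 (true :: true :: s 31))
        (by simp [hu]))
    refine (Does.congr h2 (fun _ => ?_) (by simp)).mono ?_
    · have e : List.replicate (2 * m) true ++ (true :: true :: s 31) =
          List.replicate (2 * (m + 1)) true ++ s 31 := by
        have : List.replicate (2 * (m + 1)) true =
            List.replicate (2 * m) true ++ [true, true] := by
          rw [show 2 * (m + 1) = 2 * m + 2 by ring, List.replicate_add]
          rfl
        rw [this]
        simp
      ext q : 1
      by_cases hq : q = 31
      · subst hq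
        simp [e]
      · by_cases hq' : q = u
        · subst hq'
          simp [hq]
        · simp [hq, hq']
    · omega

/-- The second loop of `dbl`. -/
theorem dbl_aux2 {O : Set Str} {s : Store} {u m : ℕ} (hu : u ≠ 31)
    (hs : s 31 = List.replicate m true) :
    Does O (Cmd.loop 31 (Cmd.pop 31 Cmd.skip Cmd.skip (Cmd.push u true))) s
      (update (update s 31 []) u (List.replicate m true ++ s u)) True (3 * m + 1) := by
  induction m generalizing s with
  | zero =>
    refine Does.congr (does_loop_nil hs) (fun _ => ?_) Iff.rfl
    have : update s 31 [] = s := by
      have h : s 31 = [] := hs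
      rw [← h, update_eq_self]
    rw [this]
    simp
  | succ m ih =>
    have h1 : Does O (Cmd.pop 31 Cmd.skip Cmd.skip (Cmd.push u true)) s
        (update (update s 31 (List.replicate m true)) u (true :: s u)) True 2 := by
      refine Spec.pop_true (w := List.replicate m true) (by rw [hs, List.replicate_succ]) ?_
      refine Does.congr (does_push u true) (fun _ => ?_) Iff.rfl
      simp [hu]
    have h2 := Does.loop_cons (by rw [hs]; simp) h1
      (fun _ => ih (s := update (update s 31 (List.replicate m true)) u (true :: s u))
        (by simp [hu.symm]))
    refine (Does.congr h2 (fun _ => ?_) (by simp)).mono ?_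
    · have e : List.replicate m true ++ (true :: s u) =
          List.replicate (m + 1) true ++ s u := by
        rw [List.replicate_succ']
        simp
      ext q : 1
      by_cases hq : q = u
      · subst hq
        simp [e]
      · by_cases hq' : q = 31
        · subst hq'
          simp [hq]
        · simp [hq, hq']
    · omega

theorem dbl_does {O : Set Str} {s : Store} {u m : ℕ} (h31 : s 31 = []) (hu : u ≠ 31)
    (hs : s u = List.replicate m true) :
    Does O (dbl u) s (update s u (List.replicate (2 * m) true)) True (10 * m + 2) := by
  unfold dbl
  refine (Does.congr (Does.seq (dbl_aux1 hu hs) fun _ => dbl_aux2 (m := 2 * m) hu (by simp [h31]))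
    (fun _ => ?_) (by simp)).mono ?_
  · ext q : 1
    by_cases hq : q = u
    · subst hq
      simp [hu]
    · by_cases hq' : q = 31
      · subst hq'
        simp [hq, h31]
      · simp [hq, hq']
  · omega

end Pool.Agent.Helper5.SX
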