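import Pool.Agent.Helper5.SY.Defs

/-!
# Clocks
-/

namespace Pool.Agent.Helper5.SX

open Function

theorem sfr_ne (r : ℕ) : fr r ≠ 32 := by unfold fr; omega

theorem stick_run {O : Set Str} {s s' : Store} {w : Str} {t : ℕ}
    (h : Run O tick (update s 32 w) t s') : ∃ b w', w = b :: w' ∧ s' = update s 32 w' := by
  unfold tick at h
  cases h with
  | pop_nil h1 h2 => exact absurd h2 diverge_no_run
  | pop_false h1 h2 =>
    cases h2
    rw [update_self] at h1
    exact ⟨false, _, h1, by rw [update_idem]⟩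
  | pop_true h1 h2 =>
    cases h2
    rw [update_self] at h1
    exact ⟨true, _, h1, by rw [update_idem]⟩

/-- soundness for the loop -/
theorem clk_snd_loop {O : Set Str} {c : Cmd} (ih : ∀ (s : Store) (w : Str) (t : ℕ) (s' : Store),
      Run O (clk (ren c)) (update s 32 w) t s' → ∃ t₀ ≤ w.length, ∃ s₀ : Store,
        Run O (ren c) s t₀ s₀ ∧ s' = update s₀ 32 (w.drop t₀))
    {r : ℕ} {S s' : Store} {t : ℕ}
    (h : Run O (Cmd.loop (fr r) (Cmd.seq (clk (ren c)) tick)) S t s') :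
    ∀ (s : Store) (w : Str), S = update s 32 w → ∃ t₁ ≤ w.length, ∃ s₀ : Store,
      Run O (Cmd.loop (fr r) (ren c)) s (t₁ + 1) s₀ ∧ s' = update s₀ 32 (w.drop t₁) := by
  generalize hd : Cmd.loop (fr r) (Cmd.seq (clk (ren c)) tick) = d at h
  induction h with
  | loop_nil h1 =>
    cases hd
    rintro s w rfl
    rw [update_of_ne (sfr_ne r)] at h1
    exact ⟨0, Nat.zero_le _, s, Run.loop_nil h1, rfl⟩
  | loop_cons h1 h2 h3 _ ih3 =>
    cases hd
    rintro s w rfl
    rw [update_of_ne (sfr_ne r)] at h1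
    cases h2 with
    | seq h4 h5 =>
      obtain ⟨t₀, ht₀, s₀, hr₀, rfl⟩ := ih _ _ _ _ h4
      obtain ⟨b, w', hw, rfl⟩ := stick_run h5
      obtain ⟨t₁, ht₁, s₁, hr₁, rfl⟩ := ih3 rfl s₀ w' rfl
      have hlen := congrArg List.length hw
      rw [List.length_drop, List.length_cons] at hlen
      refine ⟨t₀ + 1 + t₁, by omega, s₁, ?_, ?_⟩
      · have e : t₀ + 1 + t₁ + 1 = t₀ + (t₁ + 1) + 1 := by ring
        rw [e]
        exact Run.loop_cons h1 hr₀ hr₁
      · congr 1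
        rw [← List.drop_drop, ← List.drop_drop, hw]
        rfl
  | _ => cases hd

theorem clk_snd {O : Set Str} (c : Cmd) : ∀ (s : Store) (w : Str) (t : ℕ) (s' : Store),
    Run O (clk (ren c)) (update s 32 w) t s' → ∃ t₀ ≤ w.length, ∃ s₀ : Store,
      Run O (ren c) s t₀ s₀ ∧ s' = update s₀ 32 (w.drop t₀) := by
  induction c with
  | skip =>
    intro s w t s' h
    cases h with
    | seq h1 h2 =>
      obtain ⟨b, w', rfl, rfl⟩ := stick_run h1
      cases h2
      exact ⟨1, by simp, s, Run.skip _, rfl⟩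
  | push r b =>
    intro s w t s' h
    cases h with
    | seq h1 h2 =>
      obtain ⟨b', w', rfl, rfl⟩ := stick_run h1
      cases h2
      refine ⟨1, by simp, _, Run.push _ _ _, ?_⟩
      rw [update_of_ne (sfr_ne r), update_comm (sfr_ne r).symm]
      rfl
  | seq c d ihc ihd =>
    intro s w t s' h
    cases h with
    | seq h1 h2 =>
      obtain ⟨t₀, ht₀, s₀, hr₀, rfl⟩ := ihc _ _ _ _ h1
      obtain ⟨t₁, ht₁, s₁, hr₁, rfl⟩ := ihd _ _ _ _ h2
      rw [List.length_drop] at ht₁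
      exact ⟨t₀ + t₁, by omega, s₁, Run.seq hr₀ hr₁, by rw [List.drop_drop]⟩
  | pop r c₀ c₁ c₂ ih₀ ih₁ ih₂ =>
    intro s w t s' h
    cases h with
    | seq h1 h2 =>
      obtain ⟨b', w', rfl, rfl⟩ := stick_run h1
      cases h2 with
      | pop_nil h3 h4 =>
        rw [update_of_ne (sfr_ne r)] at h3
        obtain ⟨t₀, ht₀, s₀, hr₀, rfl⟩ := ih₀ _ _ _ _ h4
        exact ⟨t₀ + 1, by simpa using ht₀, s₀, Run.pop_nil h3 hr₀, rfl⟩
      | pop_false h3 h4 =>
        rw [update_of_ne (sfr_ne r)] at h3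
        rw [update_comm (sfr_ne r).symm] at h4
        obtain ⟨t₀, ht₀, s₀, hr₀, rfl⟩ := ih₁ _ _ _ _ h4
        exact ⟨t₀ + 1, by simpa using ht₀, s₀, Run.pop_false h3 hr₀, rfl⟩
      | pop_true h3 h4 =>
        rw [update_of_ne (sfr_ne r)] at h3
        rw [update_comm (sfr_ne r).symm] at h4
        obtain ⟨t₀, ht₀, s₀, hr₀, rfl⟩ := ih₂ _ _ _ _ h4
        exact ⟨t₀ + 1, by simpa using ht₀, s₀, Run.pop_true h3 hr₀, rfl⟩
  | loop r c ih =>
    intro s w t s' h
    cases h with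
    | seq h1 h2 =>
      obtain ⟨b', w', rfl, rfl⟩ := stick_run h1
      obtain ⟨t₁, ht₁, s₀, hr₀, rfl⟩ := clk_snd_loop ih h2 s w' rfl
      exact ⟨t₁ + 1, by simpa using ht₁, s₀, hr₀, rfl⟩
  | query r c d ihc ihd =>
    intro s w t s' h
    cases h with
    | seq h1 h2 =>
      obtain ⟨b', w', rfl, rfl⟩ := stick_run h1
      cases h2 with
      | query_yes h3 h4 =>
        rw [update_of_ne (sfr_ne r)] at h3
        obtain ⟨t₀, ht₀, s₀, hr₀, rfl⟩ := ihc _ _ _ _ h4
        exact ⟨t₀ + 1, by simpa using ht₀, s₀, Run.query_yes h3 hr₀, rfl⟩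
      | query_no h3 h4 =>
        rw [update_of_ne (sfr_ne r)] at h3
        obtain ⟨t₀, ht₀, s₀, hr₀, rfl⟩ := ihd _ _ _ _ h4
        exact ⟨t₀ + 1, by simpa using ht₀, s₀, Run.query_no h3 hr₀, rfl⟩
  | choose c d ihc ihd =>
    intro s w t s' h
    cases h with
    | seq h1 h2 =>
      obtain ⟨b', w', rfl, rfl⟩ := stick_run h1
      cases h2 with
      | choose_left h4 =>
        obtain ⟨t₀, ht₀, s₀, hr₀, rfl⟩ := ihc _ _ _ _ h4
        exact ⟨t₀ + 1, by simpa using ht₀, s₀, Run.choose_left hr₀, rfl⟩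
      | choose_right h4 =>
        obtain ⟨t₀, ht₀, s₀, hr₀, rfl⟩ := ihd _ _ _ _ h4
        exact ⟨t₀ + 1, by simpa using ht₀, s₀, Run.choose_right hr₀, rfl⟩

/-- Soundness: a halting run of the clocked program takes `t₀` symbols off the clock, where `t₀`
is the time of a run of the program itself. (`ren c` does not use stack 32: its stacks are odd.)
Induction on `c`, for the loop an inner induction on the run. -/
theorem clk_sound {O : Set Str} {c : Cmd} {s s' : Store} {t : ℕ} (h : Run O (clk (ren c)) s t s') :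
    ∃ t₀ ≤ (s 32).length, ∃ s₀ : Store, Run O (ren c) s t₀ s₀ ∧
      s' = update s₀ 32 ((s 32).drop t₀) := by
  exact clk_snd c s (s 32) t s' (by rwa [update_eq_self])

/-- The program does not name stack 32. -/
private def clkc_no : Cmd → Prop
  | Cmd.skip => True
  | Cmd.push r _ => r ≠ 32
  | Cmd.seq c d => clkc_no c ∧ clkc_no d
  | Cmd.pop r c₀ c₁ c₂ => r ≠ 32 ∧ clkc_no c₀ ∧ clkc_no c₁ ∧ clkc_no c₂
  | Cmd.loop r c => r ≠ 32 ∧ clkc_no c
  | Cmd.query r c d => r ≠ 32 ∧ clkc_no c ∧ clkc_no d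
  | Cmd.choose c d => clkc_no c ∧ clkc_no d

private theorem clkc_ren (c : Cmd) : clkc_no (ren c) := by
  have hfr : ∀ r, fr r ≠ 32 := fun r => by
    unfold fr
    omega
  induction c with
  | skip => exact trivial
  | push r b => exact hfr r
  | seq c d ih1 ih2 => exact ⟨ih1, ih2⟩
  | pop r c₀ c₁ c₂ ih0 ih1 ih2 => exact ⟨hfr r, ih0, ih1, ih2⟩
  | loop r c ih => exact ⟨hfr r, ih⟩
  | query r c d ih1 ih2 => exact ⟨hfr r, ih1, ih2⟩
  | choose c d ih1 ih2 => exact ⟨ih1, ih2⟩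

private theorem clkc_tick (O : Set Str) (s : Store) (b : Bool) (w : Str) :
    Run O tick (update s 32 (b :: w)) 2 (update s 32 w) := by
  unfold tick
  have h1 : update s 32 (b :: w) 32 = b :: w := update_self ..
  have h2 : update (update s 32 (b :: w)) 32 w = update s 32 w := update_idem ..
  cases b with
  | false =>
    refine Run.pop_false h1 ?_
    rw [h2]
    exact Run.skip _
  | true =>
    refine Run.pop_true h1 ?_
    rw [h2]
    exact Run.skip _

private theorem clkc_cons {w : Str} {t : ℕ} (h : t + 1 ≤ w.length) :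
    ∃ b w', w = b :: w' ∧ t ≤ w'.length := by
  cases w with
  | nil => simp at h
  | cons b w' =>
    refine ⟨b, w', rfl, ?_⟩
    simpa using h

private theorem clkc_main {O : Set Str} {c : Cmd} {s s₀ : Store} {t₀ : ℕ} (h : Run O c s t₀ s₀) :
    clkc_no c → ∀ w : Str, t₀ ≤ w.length →
      ∃ t ≤ 4 * t₀, Run O (clk c) (update s 32 w) t (update s₀ 32 (w.drop t₀)) := by
  induction h with
  | skip s =>
    intro _ w hw
    obtain ⟨b, w, rfl, -⟩ := clkc_cons (t := 0) (by omega)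
    exact ⟨2 + 1, by omega, Run.seq (clkc_tick O s b w) (Run.skip _)⟩
  | push r b s =>
    intro hr w hw
    obtain ⟨b', w, rfl, -⟩ := clkc_cons (t := 0) (by omega)
    have hr' : r ≠ 32 := hr
    refine ⟨2 + 1, by omega, Run.seq (clkc_tick O s b' w) ?_⟩
    have h1 := Run.push (O := O) r b (update s 32 w)
    rw [update_of_ne hr', ← update_comm hr'] at h1
    exact h1
  | @seq c d s s' s'' t t' h1 h2 ih1 ih2 =>
    intro hr w hw
    obtain ⟨t1, ht1, hr1⟩ := ih1 hr.1 w (by omega)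
    obtain ⟨t2, ht2, hr2⟩ := ih2 hr.2 (w.drop t) (by rw [List.length_drop]; omega)
    rw [List.drop_drop] at hr2
    exact ⟨t1 + t2, by omega, Run.seq hr1 hr2⟩
  | pop_nil h1 h2 ih =>
    intro hr w hw
    obtain ⟨hr', hr0, -, -⟩ := hr
    obtain ⟨b', w, rfl, hw'⟩ := clkc_cons hw
    obtain ⟨t1, ht1, hr1⟩ := ih hr0 w hw'
    refine ⟨2 + (t1 + 1), by omega, Run.seq (clkc_tick O _ b' w) (Run.pop_nil ?_ hr1)⟩
    rw [update_of_ne hr']
    exact h1
  | pop_false h1 h2 ih =>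
    intro hr w hw
    obtain ⟨hr', -, hr0, -⟩ := hr
    obtain ⟨b', w, rfl, hw'⟩ := clkc_cons hw
    obtain ⟨t1, ht1, hr1⟩ := ih hr0 w hw'
    rw [update_comm hr'] at hr1
    refine ⟨2 + (t1 + 1), by omega, Run.seq (clkc_tick O _ b' w) (Run.pop_false ?_ hr1)⟩
    rw [update_of_ne hr']
    exact h1
  | pop_true h1 h2 ih =>
    intro hr w hw
    obtain ⟨hr', -, -, hr0⟩ := hr
    obtain ⟨b', w, rfl, hw'⟩ := clkc_cons hw
    obtain ⟨t1, ht1, hr1⟩ := ih hr0 w hw'
    rw [update_comm hr'] at hr1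
    refine ⟨2 + (t1 + 1), by omega, Run.seq (clkc_tick O _ b' w) (Run.pop_true ?_ hr1)⟩
    rw [update_of_ne hr']
    exact h1
  | loop_nil h1 =>
    intro hr w hw
    obtain ⟨b', w, rfl, -⟩ := clkc_cons (t := 0) (by omega)
    refine ⟨2 + 1, by omega, Run.seq (clkc_tick O _ b' w) (Run.loop_nil ?_)⟩
    rw [update_of_ne hr.1]
    exact h1
  | @loop_cons r c s s' s'' t t' h1 h2 h3 ih2 ih3 =>
    intro hr w hw
    obtain ⟨b', w, rfl, hw'⟩ := clkc_cons hw
    obtain ⟨t1, ht1, hr1⟩ := ih2 hr.2 w (by omega)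
    obtain ⟨t2, ht2, hr2⟩ := ih3 hr (w.drop t) (by rw [List.length_drop]; omega)
    rw [List.drop_drop] at hr2
    cases hr2 with
    | seq ha hb =>
      refine ⟨2 + (t1 + _ + _ + 1), ?_, Run.seq (clkc_tick O _ b' w)
        (Run.loop_cons ?_ (Run.seq hr1 ha) hb)⟩
      · omega
      · rw [update_of_ne hr.1]
        exact h1
  | query_yes h1 h2 ih =>
    intro hr w hw
    obtain ⟨hr', hr0, -⟩ := hr
    obtain ⟨b', w, rfl, hw'⟩ := clkc_cons hw
    obtain ⟨t1, ht1, hr1⟩ := ih hr0 w hw'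
    refine ⟨2 + (t1 + 1), by omega, Run.seq (clkc_tick O _ b' w) (Run.query_yes ?_ hr1)⟩
    rw [update_of_ne hr']
    exact h1
  | query_no h1 h2 ih =>
    intro hr w hw
    obtain ⟨hr', -, hr0⟩ := hr
    obtain ⟨b', w, rfl, hw'⟩ := clkc_cons hw
    obtain ⟨t1, ht1, hr1⟩ := ih hr0 w hw'
    refine ⟨2 + (t1 + 1), by omega, Run.seq (clkc_tick O _ b' w) (Run.query_no ?_ hr1)⟩
    rw [update_of_ne hr']
    exact h1
  | choose_left h2 ih =>
    intro hr w hw
    obtain ⟨b', w, rfl, hw'⟩ := clkc_cons hw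
    obtain ⟨t1, ht1, hr1⟩ := ih hr.1 w hw'
    exact ⟨2 + (t1 + 1), by omega, Run.seq (clkc_tick O _ b' w) (Run.choose_left hr1)⟩
  | choose_right h2 ih =>
    intro hr w hw
    obtain ⟨b', w, rfl, hw'⟩ := clkc_cons hw
    obtain ⟨t1, ht1, hr1⟩ := ih hr.2 w hw'
    exact ⟨2 + (t1 + 1), by omega, Run.seq (clkc_tick O _ b' w) (Run.choose_right hr1)⟩

/-- Completeness. Induction on the run (or on `c` with an inner induction for the loop). -/
theorem clk_complete {O : Set Str} {c : Cmd} {s s₀ : Store} {t₀ : ℕ} (h : Run O (ren c) s t₀ s₀)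
    (ht : t₀ ≤ (s 32).length) :
    ∃ t ≤ 4 * t₀, Run O (clk (ren c)) s t (update s₀ 32 ((s 32).drop t₀)) := by
  obtain ⟨t, ht', hr⟩ := clkc_main h (clkc_ren c) (s 32) ht
  rw [update_eq_self] at hr
  exact ⟨t, ht', hr⟩

end Pool.Agent.Helper5.SX
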