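import Pool.Agent.Helper5.SY.Copy

/-!
# Building the clock
-/

namespace Pool.Agent.Helper5.SX

open Function

/-- The loop of `rep`. -/
private theorem CLK_loop {O : Set Str} {k r n : ℕ} (hr : r < 30)
    (ih : ∀ (s : Store) (m : ℕ), s 31 = [] → s 32 = List.replicate m true →
      (∀ i < k, s (34 + 2 * i) = []) → (s r).length = n →
      Does O (rep (dbl 32) r k) s
        (update s 32 (List.replicate (2 ^ (n ^ k) * m) true)) True
        (13 * (n + 1) ^ (k + 1) * 2 ^ (n ^ k) * (m + 1))) (c : ℕ) :
    ∀ (s : Store) (m : ℕ), s 31 = [] → s 32 = List.replicate m true →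
      (∀ i < k, s (34 + 2 * i) = []) → (s r).length = n →
      s (34 + 2 * k) = List.replicate c true →
      Does O (Cmd.loop (34 + 2 * k)
          (Cmd.pop (34 + 2 * k) Cmd.skip Cmd.skip (rep (dbl 32) r k))) s
        (update (update s (34 + 2 * k) []) 32
          (List.replicate (2 ^ (n ^ k * c) * m) true)) True
        (c * (2 + 13 * (n + 1) ^ (k + 1) * (2 ^ (n ^ k * c) * m + 2 ^ (n ^ k))) + 1) := by
  induction c with
  | zero =>
    intro s m h31 h32 hi hn hc
    have hc' : s (34 + 2 * k) = [] := by simpa using hc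
    refine (Does.congr (does_loop_nil hc') (fun _ => ?_) Iff.rfl).mono (by simp)
    ext q : 1
    by_cases hq : q = 32
    · subst hq
      simp [h32]
    · by_cases hq' : q = 34 + 2 * k
      · subst hq'
        simp [hq, hc']
      · simp [hq, hq']
  | succ c ihc =>
    intro s m h31 h32 hi hn hc
    have hc' : s (34 + 2 * k) = true :: List.replicate c true := by
      rw [hc, List.replicate_succ]
    have e31 : (31 : ℕ) ≠ 34 + 2 * k := by omega
    have e32 : (32 : ℕ) ≠ 34 + 2 * k := by omega
    have er : r ≠ 34 + 2 * k := by omega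
    have er2 : r ≠ 32 := by omega
    have h1 := ih (update s (34 + 2 * k) (List.replicate c true)) m
      (by rw [update_of_ne e31]; exact h31) (by rw [update_of_ne e32]; exact h32)
      (fun i hik => by rw [update_of_ne (by omega)]; exact hi i hik)
      (by rw [update_of_ne er]; exact hn)
    have h2 : Does O (Cmd.pop (34 + 2 * k) Cmd.skip Cmd.skip (rep (dbl 32) r k)) s
        (update (update s (34 + 2 * k) (List.replicate c true)) 32
          (List.replicate (2 ^ (n ^ k) * m) true)) True
        (13 * (n + 1) ^ (k + 1) * 2 ^ (n ^ k) * (m + 1) + 1) := Spec.pop_true hc' h1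
    have h3 := ihc (update (update s (34 + 2 * k) (List.replicate c true)) 32
        (List.replicate (2 ^ (n ^ k) * m) true)) (2 ^ (n ^ k) * m)
      (by rw [update_of_ne (by omega), update_of_ne e31]; exact h31)
      (by rw [update_self])
      (fun i hik => by rw [update_of_ne (by omega), update_of_ne (by omega)]; exact hi i hik)
      (by rw [update_of_ne er2, update_of_ne er]; exact hn)
      (by rw [update_of_ne e32.symm, update_self])
    have h4 := Does.loop_cons (by rw [hc']; simp) h2 (fun _ => h3)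
    have hp : 2 ^ (n ^ k * c) * (2 ^ (n ^ k) * m) = 2 ^ (n ^ k * (c + 1)) * m := by
      rw [← mul_assoc, ← pow_add, Nat.mul_succ]
    refine (Does.congr h4 (fun _ => ?_) (by simp)).mono ?_
    · rw [hp]
      ext q : 1
      by_cases hq : q = 32
      · subst hq
        simp
      · by_cases hq' : q = 34 + 2 * k
        · subst hq'
          simp [hq]
        · simp [hq, hq']
    · rw [hp]
      have h5 : 2 ^ (n ^ k) ≤ 2 ^ (n ^ k * (c + 1)) :=
        Nat.pow_le_pow_right (by norm_num) (Nat.le_mul_of_pos_right _ (by omega))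
      have h6 : 13 * (n + 1) ^ (k + 1) * 2 ^ (n ^ k) * (m + 1) ≤
          13 * (n + 1) ^ (k + 1) * (2 ^ (n ^ k * (c + 1)) * m + 2 ^ (n ^ k)) := by
        rw [mul_assoc]
        refine Nat.mul_le_mul_left _ ?_
        rw [Nat.mul_succ]
        exact Nat.add_le_add_right (Nat.mul_le_mul_right _ h5) _
      generalize 13 * (n + 1) ^ (k + 1) * 2 ^ (n ^ k) * (m + 1) = a at h6 ⊢
      generalize 13 * (n + 1) ^ (k + 1) * (2 ^ (n ^ k * (c + 1)) * m + 2 ^ (n ^ k)) = b at h6 ⊢
      have h7 : (c + 1) * (2 + b) = c * (2 + b) + (2 + b) := by ring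
      rw [h7]
      omega

/-- The nested loops. -/
private theorem CLK_rep (O : Set Str) (r n : ℕ) (hr : r < 30) (k : ℕ) :
    ∀ (s : Store) (m : ℕ), s 31 = [] → s 32 = List.replicate m true →
      (∀ i < k, s (34 + 2 * i) = []) → (s r).length = n →
      Does O (rep (dbl 32) r k) s
        (update s 32 (List.replicate (2 ^ (n ^ k) * m) true)) True
        (13 * (n + 1) ^ (k + 1) * 2 ^ (n ^ k) * (m + 1)) := by
  induction k with
  | zero =>
    intro s m h31 h32 _ _
    have h1 := dbl_does (O := O) h31 (by norm_num : (32 : ℕ) ≠ 31) h32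
    have h2 : 2 ^ (n ^ 0) * m = 2 * m := by rw [pow_zero, pow_one]
    rw [h2]
    refine Does.mono (c := dbl 32) h1 ?_
    simp only [pow_zero, zero_add, pow_one]
    nlinarith [Nat.zero_le (n * m), Nat.zero_le n, Nat.zero_le m]
  | succ k ih =>
    intro s m h31 h32 hi hn
    have e31 : (31 : ℕ) ≠ 34 + 2 * k := by omega
    have e32 : (32 : ℕ) ≠ 34 + 2 * k := by omega
    have er : r ≠ 34 + 2 * k := by omega
    have h1 := cpg_does (O := O) (s := s) tt (r := r) (u := 34 + 2 * k) h31 er (by omega)
      (by omega)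
    have hm : (s r).map tt ++ s (34 + 2 * k) = List.replicate n true := by
      rw [hi k (by omega), List.append_nil, ← hn]
      change List.map (fun _ => true) (s r) = _
      rw [List.map_const']
    rw [hm] at h1
    have h2 := CLK_loop hr ih n (update s (34 + 2 * k) (List.replicate n true)) m
      (by rw [update_of_ne e31]; exact h31) (by rw [update_of_ne e32]; exact h32)
      (fun i hik => by rw [update_of_ne (by omega)]; exact hi i (by omega))
      (by rw [update_of_ne er]; exact hn) (by rw [update_self])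
    have h3 := Does.seq h1 (fun _ => h2)
    change Does O (Cmd.seq (cpg tt r (34 + 2 * k)) (Cmd.loop (34 + 2 * k)
      (Cmd.pop (34 + 2 * k) Cmd.skip Cmd.skip (rep (dbl 32) r k)))) _ _ _ _
    refine (Does.congr h3 (fun _ => ?_) (by simp)).mono ?_
    · have hk : s (34 + 2 * k) = [] := hi k (by omega)
      rw [← pow_succ]
      ext q : 1
      by_cases hq : q = 32
      · subst hq
        simp
      · by_cases hq' : q = 34 + 2 * k
        · subst hq'
          simp [hq, hk]
        · simp [hq, hq']
    · rw [hn, ← pow_succ]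
      rcases Nat.eq_zero_or_pos n with rfl | hpos
      · simp
        omega
      · have h5 : 2 ^ (n ^ k) ≤ 2 ^ (n ^ (k + 1)) :=
          Nat.pow_le_pow_right (by norm_num) (Nat.pow_le_pow_right hpos (by omega))
        have h6 : 1 ≤ 2 ^ (n ^ (k + 1)) := Nat.one_le_two_pow
        have h7 : n + 1 ≤ (n + 1) ^ (k + 1) := Nat.le_self_pow (by omega) _
        have h8 : (n + 1) ^ (k + 1 + 1) = (n + 1) ^ (k + 1) * (n + 1) := pow_succ _ _
        rw [h8]
        generalize 2 ^ (n ^ k) = a at h5 ⊢
        generalize 2 ^ (n ^ (k + 1)) = b at h5 h6 ⊢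
        generalize (n + 1) ^ (k + 1) = p at h7 ⊢
        have h9 : b * m + a ≤ b * (m + 1) := by
          rw [Nat.mul_succ]
          omega
        have h10 : p * (b * m + a) ≤ p * (b * (m + 1)) := Nat.mul_le_mul_left _ h9
        have h11 : 1 ≤ b * (m + 1) := Nat.one_le_iff_ne_zero.2 (by positivity)
        have h12 : n * (13 * (p * (b * m + a))) ≤ n * (13 * (p * (b * (m + 1)))) :=
          Nat.mul_le_mul_left _ (Nat.mul_le_mul_left _ h10)
        have h13 : (n + 1) * 1 ≤ p * (b * (m + 1)) := Nat.mul_le_mul h7 h11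
        nlinarith

private theorem CLK_iter (O : Set Str) (k : ℕ) : ∀ (s : Store) (m : ℕ), s 31 = [] →
    s 32 = List.replicate m true →
    Does O (iterc (dbl 32) k) s (update s 32 (List.replicate (2 ^ k * m) true)) True
      (k * (10 * (2 ^ k * m) + 2) + 1) := by
  induction k with
  | zero =>
    intro s m _ h32
    refine (Does.congr does_skip (fun _ => ?_) Iff.rfl).mono (by simp)
    rw [pow_zero, one_mul, ← h32, update_eq_self]
  | succ k ih =>
    intro s m h31 h32
    have h1 := dbl_does (O := O) h31 (by norm_num : (32 : ℕ) ≠ 31) h32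
    have h2 := ih (update s 32 (List.replicate (2 * m) true)) (2 * m)
      (by rw [update_of_ne (by norm_num)]; exact h31) (by rw [update_self])
    have h3 := Does.seq h1 (fun _ => h2)
    have hp : 2 ^ k * (2 * m) = 2 ^ (k + 1) * m := by
      rw [pow_succ, mul_assoc]
    change Does O (Cmd.seq (dbl 32) (iterc (dbl 32) k)) _ _ _ _
    refine (Does.congr h3 (fun _ => ?_) (by simp)).mono ?_
    · rw [hp, update_idem]
    · rw [hp]
      have h4 : 1 * m ≤ 2 ^ (k + 1) * m := Nat.mul_le_mul_right _ Nat.one_le_two_pow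
      generalize 2 ^ (k + 1) * m = a at h4 ⊢
      have h5 : (k + 1) * (10 * a + 2) = k * (10 * a + 2) + (10 * a + 2) := by ring
      rw [h5]
      omega

private theorem CLK_exp (k n : ℕ) : n * (k + 1) + n ^ k + 2 * k + 6 ≤
    n ^ (3 * k + 8) + (3 * k + 8) := by
  rcases Nat.lt_or_ge n 2 with h | h
  · interval_cases n
    · rcases Nat.eq_zero_or_pos k with rfl | hk
      · simp
      · rw [zero_pow (by omega), zero_pow (by omega)]
        omega
    · simp
      omega
  · have h1 : k + 1 ≤ n ^ k :=
      (Nat.lt_two_pow_self (n := k)).trans_le (Nat.pow_le_pow_left h k)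
    have h2 : n * (k + 1) ≤ n * n ^ k := Nat.mul_le_mul_left _ h1
    have h3 : n ^ k ≤ n * n ^ k := Nat.le_mul_of_pos_left _ (by omega)
    have h4 : n * n ^ k + n * n ^ k ≤ n * (n * n ^ k) := by nlinarith [Nat.zero_le (n * n ^ k)]
    have h5 : n * (n * n ^ k) = n ^ (k + 2) := by ring
    have h6 : n ^ (k + 2) ≤ n ^ (3 * k + 8) := Nat.pow_le_pow_right (by omega) (by omega)
    omega

/-- The nested loops: `dbl 32` is executed `n^k` times (`n` = length of stack `r`), then `k`
times, so stack 32 ends with `2^(n^k+k)` symbols. First prove the statement for `rep (dbl 32) r k`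
by induction on `k`, for all stores with `s 31 = []`, `s 32 = replicate m true` and
`s (34 + 2 i) = []` for `i < k` (the loop counters of the outer loops are not empty then), with
final content `replicate (2^(n^k) * m) true` and a time bound like
`(k+1) * 40 * (n+2)^(k+1) * 2^(n^k) * (m+1)`. `K` depends only on `k`. -/
theorem mkclk_does (k : ℕ) : ∃ K : ℕ, ∀ (O : Set Str) (s : Store) (r : ℕ), r < 30 →
    s 31 = [] → s 32 = [] → (∀ i, s (34 + 2 * i) = []) →
    Does O (mkclk k r) s
      (update s 32 (List.replicate (2 ^ ((s r).length ^ k + k)) true)) True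
      (2 ^ ((s r).length ^ K + K)) := by
  refine ⟨3 * k + 8, fun O s r hr h31 h32 hi => ?_⟩
  generalize hn : (s r).length = n
  have hr2 : r ≠ 32 := by omega
  have h1 : Does O (Cmd.push 32 true) s (update s 32 (List.replicate 1 true)) True 1 := by
    have := does_push (O := O) (s := s) 32 true
    rw [h32] at this
    exact this
  have h2 := CLK_rep O r n hr k (update s 32 (List.replicate 1 true)) 1
    (by rw [update_of_ne (by norm_num)]; exact h31) (by rw [update_self])
    (fun i _ => by rw [update_of_ne (by omega)]; exact hi i)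
    (by rw [update_of_ne hr2]; exact hn)
  rw [update_idem, mul_one] at h2
  have h3 := CLK_iter O k (update s 32 (List.replicate (2 ^ n ^ k) true)) (2 ^ n ^ k)
    (by rw [update_of_ne (by norm_num)]; exact h31) (by rw [update_self])
  rw [update_idem, ← pow_add, add_comm k] at h3
  have h4 := Does.seq h1 (fun _ => Does.seq h2 (fun _ => h3))
  unfold mkclk
  refine (Does.congr h4 (fun _ => rfl) (by simp)).mono ?_
  have e1 : (n + 1) ^ (k + 1) ≤ 2 ^ (n * (k + 1)) := by
    rw [pow_mul]
    exact Nat.pow_le_pow_left Nat.lt_two_pow_self _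
  have e2 : (n + 1) ^ (k + 1) * 2 ^ n ^ k ≤ 2 ^ (n * (k + 1) + n ^ k + k) := by
    have e0 : 2 ^ (n * (k + 1) + n ^ k + k) = 2 ^ (n * (k + 1)) * 2 ^ (n ^ k) * 2 ^ k := by
      rw [pow_add, pow_add]
    rw [e0]
    exact (Nat.mul_le_mul_right _ e1).trans (Nat.le_mul_of_pos_right _ (Nat.two_pow_pos k))
  have e3 : 2 ^ (n ^ k + k) ≤ 2 ^ (n * (k + 1) + n ^ k + k) :=
    Nat.pow_le_pow_right (by norm_num) (by omega)
  have e4 : 1 ≤ 2 ^ (n * (k + 1) + n ^ k + k) := Nat.one_le_two_pow
  have e5 : k + 1 ≤ 2 ^ k := Nat.lt_two_pow_self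
  have e6 : 64 * (k + 1) * 2 ^ (n * (k + 1) + n ^ k + k) ≤
      2 ^ (n ^ (3 * k + 8) + (3 * k + 8)) := by
    calc 64 * (k + 1) * 2 ^ (n * (k + 1) + n ^ k + k)
        ≤ 2 ^ 6 * 2 ^ k * 2 ^ (n * (k + 1) + n ^ k + k) :=
          Nat.mul_le_mul_right _ (Nat.mul_le_mul (by norm_num) e5)
      _ = 2 ^ (n * (k + 1) + n ^ k + 2 * k + 6) := by
          rw [← pow_add, ← pow_add]
          congr 1
          ring
      _ ≤ _ := Nat.pow_le_pow_right (by norm_num) (CLK_exp k n)
  refine le_trans ?_ e6
  generalize 2 ^ (n * (k + 1) + n ^ k + k) = P at *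
  generalize 2 ^ (n ^ k + k) = Q at *
  have e7 : 13 * (n + 1) ^ (k + 1) * 2 ^ n ^ k * (1 + 1) ≤ 26 * P := by
    have : 13 * (n + 1) ^ (k + 1) * 2 ^ n ^ k * (1 + 1) =
      26 * ((n + 1) ^ (k + 1) * 2 ^ n ^ k) := by ring
    rw [this]
    exact Nat.mul_le_mul_left _ e2
  have e8 : k * (10 * Q + 2) ≤ k * (12 * P) := Nat.mul_le_mul_left _ (by omega)
  have e9 : 64 * (k + 1) * P = k * (12 * P) + 52 * (k * P) + 64 * P := by ring
  rw [e9]
  omega

end Pool.Agent.Helper5.SX
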