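import Pool.Agent.Helper5.SY.Defs

/-!
# Renaming
-/

namespace Pool.Agent.Helper5.SX

open Function

/-- The stacks `u` at the places `fr r`, the stacks `s` at all other places. -/
private def renMix (s u : Store) : Store :=
  fun q => if 33 ≤ q ∧ q % 2 = 1 then u ((q - 33) / 2) else s q

private theorem renMix_fr (s u : Store) (r : ℕ) : renMix s u (fr r) = u r := by
  unfold renMix fr
  rw [if_pos (by omega)]
  congr 1
  omega

private theorem renMix_off (s u : Store) (q : ℕ) (h : ∀ r, q ≠ fr r) : renMix s u q = s q := by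
  unfold renMix
  rw [if_neg]
  rintro ⟨h1, h2⟩
  exact h ((q - 33) / 2) (by unfold fr; omega)

private theorem renMix_eq (s u v : Store) (h1 : ∀ r, v (fr r) = u r)
    (h2 : ∀ q, (∀ r, q ≠ fr r) → v q = s q) : v = renMix s u := by
  funext q
  by_cases h : ∃ r, q = fr r
  · obtain ⟨r, rfl⟩ := h
    rw [renMix_fr, h1]
  · rw [renMix_off s u q (fun r hr => h ⟨r, hr⟩), h2 q (fun r hr => h ⟨r, hr⟩)]

private theorem fr_inj {r r' : ℕ} (h : fr r = fr r') : r = r' := by
  unfold fr at h
  omega

private theorem renMix_update (s u : Store) (r : ℕ) (w : Str) :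
    update (renMix s u) (fr r) w = renMix s (update u r w) := by
  refine renMix_eq _ _ _ (fun r' => ?_) (fun q hq => ?_)
  · by_cases h : r' = r
    · subst h
      rw [update_self, update_self]
    · rw [update_of_ne (fun h' => h (fr_inj h')), update_of_ne h, renMix_fr]
  · rw [update_of_ne (hq r), renMix_off s u q hq]

private theorem ren_back {O : Set Str} {c : Cmd} {u u' : Store} {t : ℕ} (h : Run O c u t u')
    (s : Store) : Run O (ren c) (renMix s u) t (renMix s u') := by
  induction h with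
  | skip u => exact Run.skip _
  | push r b u =>
    have h1 := Run.push (O := O) (fr r) b (renMix s u)
    rwa [renMix_update, renMix_fr] at h1
  | seq _ _ ih1 ih2 => exact Run.seq ih1 ih2
  | pop_nil h1 _ ih => exact Run.pop_nil (by rw [renMix_fr]; exact h1) ih
  | pop_false h1 _ ih =>
    refine Run.pop_false (by rw [renMix_fr]; exact h1) ?_
    rw [renMix_update]
    exact ih
  | pop_true h1 _ ih =>
    refine Run.pop_true (by rw [renMix_fr]; exact h1) ?_
    rw [renMix_update]
    exact ih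
  | loop_nil h1 => exact Run.loop_nil (by rw [renMix_fr]; exact h1)
  | loop_cons h1 _ _ ih1 ih2 => exact Run.loop_cons (by rw [renMix_fr]; exact h1) ih1 ih2
  | query_yes h1 _ ih => exact Run.query_yes (by rw [renMix_fr]; exact h1) ih
  | query_no h1 _ ih => exact Run.query_no (by rw [renMix_fr]; exact h1) ih
  | choose_left _ ih => exact Run.choose_left ih
  | choose_right _ ih => exact Run.choose_right ih

private theorem ren_upd (s : Store) (r₀ : ℕ) (w : Str) :
    (fun r => update s (fr r₀) w (fr r)) = update (fun r => s (fr r)) r₀ w := by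
  funext r
  by_cases h : r = r₀
  · subst h
    rw [update_self, update_self]
  · rw [update_of_ne (fun h' => h (fr_inj h')), update_of_ne h]

private theorem ren_fwd {O : Set Str} {d : Cmd} {s s' : Store} {t : ℕ} (h : Run O d s t s') :
    ∀ c, d = ren c → Run O c (fun r => s (fr r)) t (fun r => s' (fr r)) ∧
      ∀ q, (∀ r, q ≠ fr r) → s' q = s q := by
  induction h with
  | skip s =>
    intro c hc
    cases c <;> simp only [ren, reduceCtorEq] at hc
    exact ⟨Run.skip _, fun q _ => rfl⟩
  | push r₀ b s =>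
    intro c hc
    cases c <;> simp only [ren, reduceCtorEq, Cmd.push.injEq] at hc
    obtain ⟨rfl, rfl⟩ := hc
    refine ⟨?_, fun q hq => update_of_ne (hq _) _ _⟩
    rw [ren_upd]
    exact Run.push _ _ _
  | seq _ _ ih1 ih2 =>
    intro c hc
    cases c <;> simp only [ren, reduceCtorEq, Cmd.seq.injEq] at hc
    obtain ⟨h1, h2⟩ := hc
    obtain ⟨h3, h4⟩ := ih1 _ h1
    obtain ⟨h5, h6⟩ := ih2 _ h2
    exact ⟨Run.seq h3 h5, fun q hq => (h6 q hq).trans (h4 q hq)⟩
  | pop_nil hs _ ih =>
    intro c hc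
    cases c <;> simp only [ren, reduceCtorEq, Cmd.pop.injEq] at hc
    obtain ⟨rfl, h1, h2, h3⟩ := hc
    obtain ⟨h4, h5⟩ := ih _ h1
    exact ⟨Run.pop_nil hs h4, h5⟩
  | pop_false hs _ ih =>
    intro c hc
    cases c <;> simp only [ren, reduceCtorEq, Cmd.pop.injEq] at hc
    obtain ⟨rfl, h1, h2, h3⟩ := hc
    obtain ⟨h4, h5⟩ := ih _ h2
    rw [ren_upd] at h4
    exact ⟨Run.pop_false hs h4, fun q hq => (h5 q hq).trans (update_of_ne (hq _) _ _)⟩
  | pop_true hs _ ih =>
    intro c hc
    cases c <;> simp only [ren, reduceCtorEq, Cmd.pop.injEq] at hc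
    obtain ⟨rfl, h1, h2, h3⟩ := hc
    obtain ⟨h4, h5⟩ := ih _ h3
    rw [ren_upd] at h4
    exact ⟨Run.pop_true hs h4, fun q hq => (h5 q hq).trans (update_of_ne (hq _) _ _)⟩
  | loop_nil hs =>
    intro c hc
    cases c <;> simp only [ren, reduceCtorEq, Cmd.loop.injEq] at hc
    obtain ⟨rfl, h1⟩ := hc
    exact ⟨Run.loop_nil hs, fun q _ => rfl⟩
  | loop_cons hs _ _ ih1 ih2 =>
    intro c hc
    have hc' := hc
    cases c <;> simp only [ren, reduceCtorEq, Cmd.loop.injEq] at hc
    obtain ⟨rfl, h1⟩ := hc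
    obtain ⟨h3, h4⟩ := ih1 _ h1
    obtain ⟨h5, h6⟩ := ih2 _ hc'
    exact ⟨Run.loop_cons hs h3 h5, fun q hq => (h6 q hq).trans (h4 q hq)⟩
  | query_yes hs _ ih =>
    intro c hc
    cases c <;> simp only [ren, reduceCtorEq, Cmd.query.injEq] at hc
    obtain ⟨rfl, h1, h2⟩ := hc
    obtain ⟨h4, h5⟩ := ih _ h1
    exact ⟨Run.query_yes hs h4, h5⟩
  | query_no hs _ ih =>
    intro c hc
    cases c <;> simp only [ren, reduceCtorEq, Cmd.query.injEq] at hc
    obtain ⟨rfl, h1, h2⟩ := hc
    obtain ⟨h4, h5⟩ := ih _ h2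
    exact ⟨Run.query_no hs h4, h5⟩
  | choose_left _ ih =>
    intro c hc
    cases c <;> simp only [ren, reduceCtorEq, Cmd.choose.injEq] at hc
    obtain ⟨h1, h2⟩ := hc
    obtain ⟨h4, h5⟩ := ih _ h1
    exact ⟨Run.choose_left h4, h5⟩
  | choose_right _ ih =>
    intro c hc
    cases c <;> simp only [ren, reduceCtorEq, Cmd.choose.injEq] at hc
    obtain ⟨h1, h2⟩ := hc
    obtain ⟨h4, h5⟩ := ih _ h2
    exact ⟨Run.choose_right h4, h5⟩

/-- The renamed program does on the stacks `fr r` what the program does on the stacks `r`, and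
leaves the other stacks unchanged. (`fr` is injective.) -/
theorem ren_run {O : Set Str} {c : Cmd} {s s' : Store} {t : ℕ} :
    Run O (ren c) s t s' ↔
      Run O c (fun r => s (fr r)) t (fun r => s' (fr r)) ∧ ∀ q, (∀ r, q ≠ fr r) → s' q = s q := by
  constructor
  · intro h
    exact ren_fwd h c rfl
  · rintro ⟨h1, h2⟩
    have h3 := ren_back h1 s
    rwa [← renMix_eq s (fun r => s (fr r)) s (fun _ => rfl) (fun _ _ => rfl),
      ← renMix_eq s (fun r => s' (fr r)) s' (fun _ => rfl) h2] at h3

end Pool.Agent.Helper5.SX
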