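import Pool.Agent.Helper5.SY.Copy
import Pool.Agent.Helper5.SY.Ren
import Pool.Agent.Helper5.SY.Clk
import Pool.Agent.Helper5.SY.Frame
import Pool.Agent.Helper5.SY.Clock

/-!
# Calling a program
-/

namespace Pool.Agent.Helper5.SX

open Function

private theorem callp_clrs {O : Set Str} (b L : ℕ) : ∀ s : Store,
    (∀ r < b, (s (fr r)).length ≤ L) →
    ∃ s₁ : Store, (∀ r < b, s₁ (fr r) = []) ∧ (∀ q, (∀ r < b, q ≠ fr r) → s₁ q = s q) ∧
      Does O (clrs b) s s₁ True (b * (3 * L + 1) + 1) := by
  induction b with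
  | zero =>
    intro s _
    refine ⟨s, fun r hr => absurd hr (Nat.not_lt_zero r), fun q _ => rfl, ?_⟩
    exact Does.mono does_skip (by omega)
  | succ b ih =>
    intro s hL
    have hinj : ∀ r, fr r = fr b → r = b := by
      intro r h
      unfold fr at h
      omega
    obtain ⟨s₁, h1, h2, h3⟩ := ih (update s (fr b) []) (fun r hr => by
      rw [update_of_ne (fun h => by have := hinj r h; omega)]
      exact hL r (by omega))
    refine ⟨s₁, fun r hr => ?_, fun q hq => ?_, ?_⟩
    · by_cases hrb : r < b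
      · exact h1 r hrb
      · have hr' : r = b := by omega
        subst hr'
        rw [h2 (fr r) (fun r' hr' h => by have := hinj r' h.symm; omega), update_self]
    · rw [h2 q (fun r hr => hq r (by omega)), update_of_ne (hq b (by omega))]
    · have h4 := Does.seq (clr_does (O := O) (s := s) (fr b)) (fun _ => h3)
      change Does O (Cmd.seq (clr (fr b)) (clrs b)) _ _ _ _
      refine (Does.congr h4 (fun _ => rfl) (by simp)).mono ?_
      have h5 := hL b (by omega)
      have h6 : (b + 1) * (3 * L + 1) = b * (3 * L + 1) + (3 * L + 1) := by ring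
      rw [h6]
      omega

private theorem callp_start {s : Store} {x a w : Str} (hs : Low s) :
    (fun r => update (update (update s 33 x) 35 a) 32 w (fr r)) = start x a := by
  funext r
  rcases r with _ | _ | r
  · change update (update (update s 33 x) 35 a) 32 w 33 = x
    rw [update_of_ne (by norm_num), update_of_ne (by norm_num), update_self]
  · change update (update (update s 33 x) 35 a) 32 w 35 = a
    rw [update_of_ne (by norm_num), update_self]
  · have h1 : fr (r + 1 + 1) ≠ 32 := by unfold fr; omega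
    have h2 : fr (r + 1 + 1) ≠ 35 := by unfold fr; omega
    have h3 : fr (r + 1 + 1) ≠ 33 := by unfold fr; omega
    rw [update_of_ne h1, update_of_ne h2, update_of_ne h3, hs _ (by unfold fr; omega)]
    rfl

private theorem callp_clean {s s₀ s₁ : Store} {x a w v : Str} {b : ℕ} (hs : Low s)
    (h0 : ∀ r, b ≤ r → s₀ (fr r) = [])
    (hoff : ∀ q, (∀ r, q ≠ fr r) → s₀ q = update (update (update s 33 x) 35 a) 32 w q)
    (h1 : ∀ r < b, s₁ (fr r) = [])
    (h2 : ∀ q, (∀ r < b, q ≠ fr r) → s₁ q = update (update s₀ 32 v) 32 [] q) : s₁ = s := by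
  funext q
  by_cases hq : ∃ r, q = fr r
  · obtain ⟨r, rfl⟩ := hq
    rw [hs (fr r) (by unfold fr; omega)]
    by_cases hr : r < b
    · exact h1 r hr
    · rw [h2 (fr r) (fun r' hr' h => hr (by unfold fr at h; omega)), update_of_ne (sfr_ne r),
        update_of_ne (sfr_ne r)]
      exact h0 r (by omega)
  · have hq' : ∀ r, q ≠ fr r := fun r h => hq ⟨r, h⟩
    rw [h2 q (fun r _ => hq' r)]
    by_cases h32 : q = 32
    · subst h32
      rw [update_self, hs 32 (by norm_num)]
    · have h33 : q ≠ 33 := hq' 0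
      have h35 : q ≠ 35 := hq' 1
      rw [update_of_ne h32, update_of_ne h32, hoff q hq', update_of_ne h32, update_of_ne h35,
        update_of_ne h33]

/-- Let `S` be the store on the left. Soundness: `clk_sound`, `ren_run` and
`(fun r => S (fr r)) = start x a` (as `Low s`) give a run of `c` of length `t₀ ≤ w.length`;
`assertNE 37` says that stack 2 of its end is not empty, so `Acc O c x a w.length`; `clr 32` and
`clrs` clean up (`run_frame`: stacks `fr r` with `r ≥ max c.bd 3` are still empty; the stacks that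
are not of the form `fr r` are unchanged by `ren_run`). Completeness: `clk_complete`, `ren_run`;
the time of the cleaning is bounded with `run_len`. -/
theorem callp_does (c : Cmd) : ∃ C : ℕ, ∀ (O : Set Str) (s : Store) (x a w : Str), Low s →
    Does O (callp c) (update (update (update s 33 x) 35 a) 32 w) s (Acc O c x a w.length)
      (C * (x.length + a.length + w.length + 1)) := by
  refine ⟨3 * max c.bd 3 + 7, fun O s x a w hs => ?_⟩
  -- what the cleaning does after a run of the program
  have key : ∀ (t₀ : ℕ) (s₀ : Store), t₀ ≤ w.length →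
      Run O (ren c) (update (update (update s 33 x) 35 a) 32 w) t₀ s₀ →
      Does O (Cmd.seq (assertNE 37) (Cmd.seq (clr 32) (clrs (max c.bd 3))))
        (update s₀ 32 (w.drop t₀)) s (s₀ 37 ≠ [])
        (2 + (3 * w.length + 1 +
          (max c.bd 3 * (3 * (x.length + a.length + w.length) + 1) + 1))) := by
    intro t₀ s₀ ht₀ hrun
    obtain ⟨h1, h2⟩ := ren_run.1 hrun
    rw [callp_start hs] at h1
    have hstart : ∀ r, (start x a r).length ≤ x.length + a.length := by
      intro r
      unfold start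
      split_ifs
      · omega
      · omega
      · simp
    have hlen : ∀ r, (s₀ (fr r)).length ≤ x.length + a.length + w.length := by
      intro r
      have := run_len h1 hstart r
      omega
    have h0 : ∀ r, max c.bd 3 ≤ r → s₀ (fr r) = [] := by
      intro r hr
      have h3 := run_frame h1 r (by omega)
      have h4 : start x a r = [] := by
        unfold start
        rw [if_neg (by omega), if_neg (by omega)]
      exact h3.trans h4
    obtain ⟨s₁, h3, h4, h5⟩ := callp_clrs (O := O) (max c.bd 3)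
      (x.length + a.length + w.length) (update (update s₀ 32 (w.drop t₀)) 32 []) (fun r _ => by
        rw [update_of_ne (sfr_ne r), update_of_ne (sfr_ne r)]
        exact hlen r)
    have h6 : s₁ = s := callp_clean hs h0 h2 h3 h4
    subst h6
    have h7 := clr_does (O := O) (s := update s₀ 32 (w.drop t₀)) 32
    have h8 := assertNE_does (O := O) (s := update s₀ 32 (w.drop t₀)) 37
    have h9 := Does.seq h8 (fun _ => Does.seq h7 (fun _ => h5))
    refine (Does.congr h9 (fun _ => rfl) ?_).mono ?_
    · rw [update_of_ne (by norm_num)]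
      simp
    · rw [update_self, List.length_drop]
      omega
  constructor
  · intro t s' h
    cases h with
    | seq h1 h2 =>
      obtain ⟨t₀, ht₀, s₀, hr₀, rfl⟩ := clk_sound h1
      rw [update_self] at ht₀ h2
      obtain ⟨h3, h4⟩ := (key t₀ s₀ ht₀ hr₀).1 _ _ h2
      refine ⟨h3, t₀, ht₀, fun r => s₀ (fr r), ?_, h4⟩
      have h5 := (ren_run.1 hr₀).1
      rwa [callp_start hs] at h5
  · rintro s' ⟨rfl, t₀, ht₀, u, hu, hu2⟩
    -- the stacks after the run of the renamed program
    let S : Store := update (update (update s' 33 x) 35 a) 32 w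
    let s₀ : Store := fun q => if 33 ≤ q ∧ q % 2 = 1 then u ((q - 33) / 2) else S q
    have hfr : ∀ r, s₀ (fr r) = u r := by
      intro r
      have h1 : 33 ≤ fr r ∧ fr r % 2 = 1 := by unfold fr; omega
      have h2 : (fr r - 33) / 2 = r := by unfold fr; omega
      change (if 33 ≤ fr r ∧ fr r % 2 = 1 then u ((fr r - 33) / 2) else S (fr r)) = u r
      rw [if_pos h1, h2]
    have hoff : ∀ q, (∀ r, q ≠ fr r) → s₀ q = S q := by
      intro q hq
      change (if 33 ≤ q ∧ q % 2 = 1 then u ((q - 33) / 2) else S q) = S q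
      rw [if_neg]
      rintro ⟨h1, h2⟩
      exact hq ((q - 33) / 2) (by unfold fr; omega)
    have hrun : Run O (ren c) S t₀ s₀ := by
      refine ren_run.2 ⟨?_, hoff⟩
      rw [callp_start hs, show (fun r => s₀ (fr r)) = u from funext hfr]
      exact hu
    have hS : S 32 = w := update_self ..
    obtain ⟨t, ht, hrt⟩ := clk_complete hrun (by rw [hS]; exact ht₀)
    rw [hS] at hrt
    obtain ⟨t', ht', hrt'⟩ := (key t₀ s₀ ht₀ hrun).2 s' ⟨rfl, by
      change s₀ (fr 2) ≠ []
      rw [hfr]
      exact hu2⟩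
    refine ⟨t + t', ?_, Run.seq hrt hrt'⟩
    generalize max c.bd 3 = b at ht' ⊢
    generalize hn : x.length + a.length + w.length = n at ht' ⊢
    have e : (3 * b + 7) * (n + 1) = b * (3 * n + 1) + 7 * n + 7 + 2 * b := by ring
    rw [e]
    omega

private theorem call_bound (k K₁ C : ℕ) : ∃ K : ℕ, ∀ n m : ℕ,
    (8 * n + 2) + ((8 * m + 2) + (2 ^ (n ^ K₁ + K₁) + C * (n + m + 2 ^ (n ^ k + k) + 1))) ≤
      2 ^ ((n + m) ^ K + K) := by
  obtain ⟨M, hM⟩ : ∃ M, M = K₁ + k + 1 := ⟨_, rfl⟩
  refine ⟨M + 9 + 2 * C, fun n m => ?_⟩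
  have hp : ∀ j, j ≤ M → n ^ j ≤ (n + m) ^ M + 1 := by
    intro j hj
    rcases Nat.eq_zero_or_pos (n + m) with h0 | h0
    · have hn : n = 0 := by omega
      subst hn
      rcases Nat.eq_zero_or_pos j with rfl | hj0
      · simp
      · rw [zero_pow (by omega)]
        omega
    · exact ((Nat.pow_le_pow_left (Nat.le_add_right n m) j).trans
        (Nat.pow_le_pow_right h0 hj)).trans (Nat.le_succ _)
  obtain ⟨f, hf⟩ : ∃ f, f = 2 ^ ((n + m) ^ M + M) := ⟨_, rfl⟩
  have h1 : 2 ^ (n ^ K₁ + K₁) ≤ f := by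
    rw [hf]
    exact Nat.pow_le_pow_right (by omega) (by have := hp K₁ (by omega); omega)
  have h2 : 2 ^ (n ^ k + k) ≤ f := by
    rw [hf]
    exact Nat.pow_le_pow_right (by omega) (by have := hp k (by omega); omega)
  have h3 : n + m + 1 ≤ f := by
    have h4 : n + m < 2 ^ (n + m) := Nat.lt_two_pow_self
    have h5 : n + m ≤ (n + m) ^ M := Nat.le_self_pow (by omega) _
    have h6 : 2 ^ (n + m) ≤ f := by
      rw [hf]
      exact Nat.pow_le_pow_right (by omega) (by omega)
    omega
  have h7 : (n + m) ^ M ≤ (n + m) ^ (M + 9 + 2 * C) := by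
    rcases Nat.eq_zero_or_pos (n + m) with h0 | h0
    · rw [h0, zero_pow (by omega)]
      exact Nat.zero_le _
    · exact Nat.pow_le_pow_right h0 (by omega)
  have h8 : 9 + 2 * C ≤ 2 ^ (9 + 2 * C) := Nat.lt_two_pow_self.le
  calc (8 * n + 2) + ((8 * m + 2) + (2 ^ (n ^ K₁ + K₁) + C * (n + m + 2 ^ (n ^ k + k) + 1)))
      ≤ 8 * (n + m + 1) + (f + C * (f + f)) := by
        have h9 : C * (n + m + 2 ^ (n ^ k + k) + 1) ≤ C * (f + f) :=
          Nat.mul_le_mul_left C (by omega)
        omega
    _ ≤ 8 * f + (f + C * (f + f)) := by omega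
    _ = (9 + 2 * C) * f := by ring
    _ ≤ 2 ^ (9 + 2 * C) * f := Nat.mul_le_mul_right f h8
    _ = 2 ^ ((9 + 2 * C) + ((n + m) ^ M + M)) := by rw [hf, ← pow_add]
    _ ≤ 2 ^ ((n + m) ^ (M + 9 + 2 * C) + (M + 9 + 2 * C)) :=
        Nat.pow_le_pow_right (by omega) (by omega)

/-- From `cpg_does` (twice), `mkclk_does` and `callp_does`, with `w` the clock of length
`2^(n^k+k)`, `n = (s rx).length`. -/
theorem call_does (c : Cmd) (k : ℕ) : ∃ K : ℕ, ∀ (O : Set Str) (s : Store) (rx ra : ℕ),
    rx < 30 → ra ≤ 30 → Low s →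
    Does O (call c k rx ra) s s (Acc O c (s rx) (s ra) (2 ^ ((s rx).length ^ k + k)))
      (2 ^ (((s rx).length + (s ra).length) ^ K + K)) := by
  obtain ⟨K₁, hK₁⟩ := mkclk_does k
  obtain ⟨C, hC⟩ := callp_does c
  obtain ⟨K, hK⟩ := call_bound k K₁ C
  refine ⟨K, fun O s rx ra hrx hra hs => ?_⟩
  have h31 : s 31 = [] := hs 31 (by omega)
  have h32 : s 32 = [] := hs 32 (by omega)
  have h33 : s 33 = [] := hs 33 (by omega)
  have h35 : s 35 = [] := hs 35 (by omega)
  have e1 : ∀ w : Str, List.map (id : Bool → Bool) w = w := fun w => List.map_id w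
  have d1 := cpg_does (O := O) (s := s) id h31 (show rx ≠ 33 by omega) (show rx ≠ 31 by omega)
    (show 33 ≠ 31 by omega)
  rw [e1, h33, List.append_nil] at d1
  obtain ⟨s₁, hs₁⟩ : ∃ s₁, s₁ = update s 33 (s rx) := ⟨_, rfl⟩
  rw [← hs₁] at d1
  have g1 : ∀ q, q ≠ 33 → s₁ q = s q := fun q hq => by rw [hs₁, update_of_ne hq]
  have d2 := cpg_does (O := O) (s := s₁) id (by rw [g1 _ (by omega), h31])
    (show ra ≠ 35 by omega) (show ra ≠ 31 by omega) (show 35 ≠ 31 by omega)
  rw [e1, g1 35 (by omega), h35, List.append_nil, g1 ra (by omega)] at d2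
  obtain ⟨s₂, hs₂⟩ : ∃ s₂, s₂ = update s₁ 35 (s ra) := ⟨_, rfl⟩
  rw [← hs₂] at d2
  have g2 : ∀ q, q ≠ 33 → q ≠ 35 → s₂ q = s q := fun q hq hq' => by
    rw [hs₂, update_of_ne hq', g1 q hq]
  have d3 := hK₁ O s₂ rx hrx (by rw [g2 _ (by omega) (by omega), h31])
    (by rw [g2 _ (by omega) (by omega), h32])
    (fun i => by rw [g2 _ (by omega) (by omega), hs _ (by omega)])
  rw [g2 rx (by omega) (by omega)] at d3
  have d4 := hC O s (s rx) (s ra) (List.replicate (2 ^ ((s rx).length ^ k + k)) true) hs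
  rw [← hs₁, ← hs₂, List.length_replicate] at d4
  have h := Does.seq d1 (fun _ => Does.seq d2 (fun _ => Does.seq d3 (fun _ => d4)))
  exact (Does.congr h (fun _ => rfl) (by simp)).mono (hK _ _)

end Pool.Agent.Helper5.SX
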