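import Pool.Agent.Helper5.SY.Clock2

/-!
# Calls with a double exponential clock
-/

namespace Pool.Agent.Helper5.SX

open Function

private theorem call2_bound (k K₁ C : ℕ) : ∃ K : ℕ, ∀ n : ℕ,
    (8 * n + 2) + (2 ^ 2 ^ (K₁ * n + K₁) + C * (n + 0 + 2 ^ 2 ^ (k * n + k) + 1)) ≤
      2 ^ 2 ^ (K * n + K) := by
  obtain ⟨M, hM⟩ : ∃ M, M = K₁ + k + 1 := ⟨_, rfl⟩
  refine ⟨M + 9 + 2 * C, fun n => ?_⟩
  have hp : ∀ j, j ≤ M → j * n + j ≤ M * n + M := fun j hj =>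
    Nat.add_le_add (Nat.mul_le_mul_right n hj) hj
  obtain ⟨f, hf⟩ : ∃ f, f = 2 ^ 2 ^ (M * n + M) := ⟨_, rfl⟩
  have h1 : 2 ^ 2 ^ (K₁ * n + K₁) ≤ f := by
    rw [hf]
    exact Nat.pow_le_pow_right (by omega) (Nat.pow_le_pow_right (by omega) (hp K₁ (by omega)))
  have h2 : 2 ^ 2 ^ (k * n + k) ≤ f := by
    rw [hf]
    exact Nat.pow_le_pow_right (by omega) (Nat.pow_le_pow_right (by omega) (hp k (by omega)))
  have h3 : n + 1 ≤ f := by
    have h4 : M * n + M < 2 ^ (M * n + M) := Nat.lt_two_pow_self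
    have h5 : 2 ^ (M * n + M) < 2 ^ 2 ^ (M * n + M) := Nat.lt_two_pow_self
    have h6 := hp 1 (by omega)
    rw [hf]
    omega
  have h8 : 9 + 2 * C ≤ 2 ^ (9 + 2 * C) := Nat.lt_two_pow_self.le
  have h10 : (9 + 2 * C) + 2 ^ (M * n + M) ≤ 2 ^ ((M + 9 + 2 * C) * n + (M + 9 + 2 * C)) := by
    have h11 : 2 ≤ 2 ^ (M * n + M) := by
      calc 2 = 2 ^ 1 := rfl
        _ ≤ 2 ^ (M * n + M) := Nat.pow_le_pow_right (by omega) (by omega)
    have h12 : 2 ≤ 2 ^ (9 + 2 * C) := by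
      calc 2 = 2 ^ 1 := rfl
        _ ≤ 2 ^ (9 + 2 * C) := Nat.pow_le_pow_right (by omega) (by omega)
    calc (9 + 2 * C) + 2 ^ (M * n + M) ≤ 2 ^ (9 + 2 * C) + 2 ^ (M * n + M) := by omega
      _ ≤ 2 ^ (9 + 2 * C) * 2 ^ (M * n + M) := by nlinarith
      _ = 2 ^ ((9 + 2 * C) + (M * n + M)) := by rw [← pow_add]
      _ ≤ 2 ^ ((M + 9 + 2 * C) * n + (M + 9 + 2 * C)) := by
          apply Nat.pow_le_pow_right (by omega)
          have : (M + 9 + 2 * C) * n = M * n + (9 + 2 * C) * n := by ring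
          rw [this]
          omega
  calc (8 * n + 2) + (2 ^ 2 ^ (K₁ * n + K₁) + C * (n + 0 + 2 ^ 2 ^ (k * n + k) + 1))
      ≤ 8 * (n + 1) + (f + C * (f + f)) := by
        have h9 : C * (n + 0 + 2 ^ 2 ^ (k * n + k) + 1) ≤ C * (f + f) :=
          Nat.mul_le_mul_left C (by omega)
        omega
    _ ≤ 8 * f + (f + C * (f + f)) := by omega
    _ = (9 + 2 * C) * f := by ring
    _ ≤ 2 ^ (9 + 2 * C) * f := Nat.mul_le_mul_right f h8
    _ = 2 ^ ((9 + 2 * C) + 2 ^ (M * n + M)) := by rw [hf, ← pow_add]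
    _ ≤ 2 ^ 2 ^ ((M + 9 + 2 * C) * n + (M + 9 + 2 * C)) :=
        Nat.pow_le_pow_right (by omega) h10

/-- As `call_does` in Call.lean (same proof with `mkclk2_does`; the advice is `[]`, so
`update s 35 []` is `s`). -/
theorem call2_does (c : Cmd) (k : ℕ) : ∃ K : ℕ, ∀ (O : Set Str) (s : Store) (rx : ℕ),
    rx < 30 → Low s →
    Does O (call2 c k rx) s s (Acc O c (s rx) [] (2 ^ 2 ^ (k * (s rx).length + k)))
      (2 ^ 2 ^ (K * (s rx).length + K)) := by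
  obtain ⟨K₁, hK₁⟩ := mkclk2_does k
  obtain ⟨C, hC⟩ := callp_does c
  obtain ⟨K, hK⟩ := call2_bound k K₁ C
  refine ⟨K, fun O s rx hrx hs => ?_⟩
  have h31 : s 31 = [] := hs 31 (by omega)
  have h32 : s 32 = [] := hs 32 (by omega)
  have h33 : s 33 = [] := hs 33 (by omega)
  have h35 : s 35 = [] := hs 35 (by omega)
  have e1 : ∀ w : Str, List.map (id : Bool → Bool) w = w := fun w => List.map_id w
  have d1 := cpg_does (O := O) (s := s) id h31 (show rx ≠ 33 by omega) (show rx ≠ 31 by omega)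
    (show 33 ≠ 31 by omega)
  rw [e1, h33, List.append_nil] at d1
  obtain ⟨s₁, hs₁⟩ : ∃ s₁, s₁ = update s 33 (s rx) := ⟨_, rfl⟩
  rw [← hs₁] at d1
  have g1 : ∀ q, q ≠ 33 → s₁ q = s q := fun q hq => by rw [hs₁, update_of_ne hq]
  have d3 := hK₁ O s₁ rx hrx (by rw [g1 _ (by omega), h31]) (by rw [g1 _ (by omega), h32])
    (by rw [g1 _ (by omega), hs 34 (by omega)]) (by rw [g1 _ (by omega), hs 36 (by omega)])
  rw [g1 rx (by omega)] at d3
  have d4 := hC O s (s rx) [] (List.replicate (2 ^ 2 ^ (k * (s rx).length + k)) true) hs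
  have e2 : update s₁ 35 [] = s₁ := by
    have h5 : s₁ 35 = [] := by rw [g1 _ (by omega), h35]
    rw [← h5, update_eq_self]
  rw [← hs₁, e2, List.length_replicate] at d4
  have h := Does.seq d1 (fun _ => Does.seq d3 (fun _ => d4))
  exact (Does.congr h (fun _ => rfl) (by simp)).mono (hK _)

end Pool.Agent.Helper5.SX
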