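import Pool.Agent.Helper5.SY.Defs2
import Pool.Agent.Helper5.SY.Clock
import Pool.Agent.Helper5.SY.Call

/-!
# The double exponential clock
-/

namespace Pool.Agent.Helper5.SX

open Function

/-- Doubling `k` times. -/
private theorem CLQ_iter (O : Set Str) {u : ℕ} (hu : u ≠ 31) (k : ℕ) : ∀ (s : Store) (m : ℕ),
    s 31 = [] → s u = List.replicate m true →
    Does O (iterc (dbl u) k) s (update s u (List.replicate (2 ^ k * m) true)) True
      (k * (10 * (2 ^ k * m) + 2) + 1) := by
  induction k with
  | zero =>
    intro s m _ h32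
    refine (Does.congr does_skip (fun _ => ?_) Iff.rfl).mono (by simp)
    rw [pow_zero, one_mul, ← h32, update_eq_self]
  | succ k ih =>
    intro s m h31 h32
    have h1 := dbl_does (O := O) h31 hu h32
    have h2 := ih (update s u (List.replicate (2 * m) true)) (2 * m)
      (by rw [update_of_ne hu.symm]; exact h31) (by rw [update_self])
    have h3 := Does.seq h1 (fun _ => h2)
    have hp : 2 ^ k * (2 * m) = 2 ^ (k + 1) * m := by
      rw [pow_succ, mul_assoc]
    change Does O (Cmd.seq (dbl u) (iterc (dbl u) k)) _ _ _ _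
    refine (Does.congr h3 (fun _ => ?_) (by simp)).mono ?_
    · rw [hp, update_idem]
    · rw [hp]
      have h4 : 1 * m ≤ 2 ^ (k + 1) * m := Nat.mul_le_mul_right _ Nat.one_le_two_pow
      generalize 2 ^ (k + 1) * m = a at h4 ⊢
      have h5 : (k + 1) * (10 * a + 2) = k * (10 * a + 2) + (10 * a + 2) := by ring
      rw [h5]
      omega

/-- A loop whose body multiplies the unary stack `u` by `a`. -/
private theorem CLQ_loop {O : Set Str} {u v a : ℕ} {b : Cmd} {F : ℕ → ℕ} (hu : u ≠ 31)
    (hv : v ≠ 31) (huv : u ≠ v) (ha : 1 ≤ a) (hF : Monotone F)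
    (hb : ∀ (s : Store) (m : ℕ), s 31 = [] → s u = List.replicate m true →
      Does O b s (update s u (List.replicate (a * m) true)) True (F m)) (c : ℕ) :
    ∀ (s : Store) (m : ℕ), s 31 = [] → s u = List.replicate m true →
      s v = List.replicate c true →
      Does O (Cmd.loop v (Cmd.pop v Cmd.skip Cmd.skip b)) s
        (update (update s v []) u (List.replicate (a ^ c * m) true)) True
        (c * (F (a ^ c * m) + 2) + 1) := by
  induction c with
  | zero =>
    intro s m h31 hs hc
    have hc' : s v = [] := by simpa using hc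
    refine (Does.congr (does_loop_nil hc') (fun _ => ?_) Iff.rfl).mono (by simp)
    ext q : 1
    by_cases hq : q = u
    · subst hq
      simp [hs]
    · by_cases hq' : q = v
      · subst hq'
        simp [hq, hc']
      · simp [hq, hq']
  | succ c ihc =>
    intro s m h31 hs hc
    have hc' : s v = true :: List.replicate c true := by
      rw [hc, List.replicate_succ]
    have h1 := hb (update s v (List.replicate c true)) m
      (by rw [update_of_ne hv.symm]; exact h31) (by rw [update_of_ne huv]; exact hs)
    have h2 : Does O (Cmd.pop v Cmd.skip Cmd.skip b) s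
        (update (update s v (List.replicate c true)) u (List.replicate (a * m) true)) True
        (F m + 1) := Spec.pop_true hc' h1
    have h3 := ihc (update (update s v (List.replicate c true)) u
        (List.replicate (a * m) true)) (a * m)
      (by rw [update_of_ne hu.symm, update_of_ne hv.symm]; exact h31)
      (by rw [update_self])
      (by rw [update_of_ne huv.symm, update_self])
    have h4 := Does.loop_cons (by rw [hc']; simp) h2 (fun _ => h3)
    have hp : a ^ c * (a * m) = a ^ (c + 1) * m := by
      rw [pow_succ, mul_assoc]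
    refine (Does.congr h4 (fun _ => ?_) (by simp)).mono ?_
    · rw [hp]
      ext q : 1
      by_cases hq : q = u
      · subst hq
        simp
      · by_cases hq' : q = v
        · subst hq'
          simp [hq]
        · simp [hq, hq']
    · rw [hp]
      have h5 : F m ≤ F (a ^ (c + 1) * m) :=
        hF (Nat.le_mul_of_pos_left _ (Nat.pow_pos (by omega)))
      have h6 : (c + 1) * (F (a ^ (c + 1) * m) + 2) =
          c * (F (a ^ (c + 1) * m) + 2) + (F (a ^ (c + 1) * m) + 2) := by ring
      rw [h6]
      omega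

private theorem CLQ_time (k n E : ℕ) (hE : 1 ≤ E) :
    1 + ((8 * n + 2) + (n * ((k * (10 * E + 2) + 1) + 2) + 1)) +
      ((k * (10 * E + 2) + 1) + (1 + (E * (10 * 2 ^ E + 4) + 1))) ≤
    64 * ((n + 1) * (k + 1) * E * 2 ^ E) := by
  have h1 : 1 ≤ 2 ^ E := Nat.one_le_two_pow
  generalize 2 ^ E = P at h1 ⊢
  have a1 : n * (k * E) ≤ n * (k * E) * P := Nat.le_mul_of_pos_right _ h1
  have a2 : n * k ≤ n * (k * E) * P := by
    calc n * k ≤ n * (k * E) := Nat.mul_le_mul_left _ (Nat.le_mul_of_pos_right _ hE)
      _ ≤ _ := a1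
  have a3 : n ≤ n * E * P := by
    calc n ≤ n * E := Nat.le_mul_of_pos_right _ hE
      _ ≤ _ := Nat.le_mul_of_pos_right _ h1
  have a4 : k * E ≤ k * E * P := Nat.le_mul_of_pos_right _ h1
  have a5 : k ≤ k * E * P := (Nat.le_mul_of_pos_right _ hE).trans a4
  have a6 : E ≤ E * P := Nat.le_mul_of_pos_right _ h1
  have a7 : 1 ≤ E * P := Nat.mul_pos hE h1
  have e1 : 64 * ((n + 1) * (k + 1) * E * P) =
      64 * (n * (k * E) * P) + 64 * (n * E * P) + 64 * (k * E * P) + 64 * (E * P) := by ring
  have e2 : 1 + ((8 * n + 2) + (n * ((k * (10 * E + 2) + 1) + 2) + 1)) +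
      ((k * (10 * E + 2) + 1) + (1 + (E * (10 * P + 4) + 1))) =
      10 * (n * (k * E)) + 2 * (n * k) + 11 * n + 10 * (k * E) + 2 * k + 10 * (E * P) +
        4 * E + 7 := by ring
  rw [e1, e2]
  omega

/-- As `mkclk_does` (look at its proof in Clock.lean: the lemmas on `rep` and `iterc` there are
reusable): stack 36 gets `2^(kn+k)` symbols, then stack 32 is doubled that many times (the loop
counter 36 is emptied). The time is at most `40 * (2^(kn+k) + 2)^2 * 2^(2^(kn+k))` or so. -/
theorem mkclk2_does (k : ℕ) : ∃ K : ℕ, ∀ (O : Set Str) (s : Store) (r : ℕ), r < 30 →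
    s 31 = [] → s 32 = [] → s 34 = [] → s 36 = [] →
    Does O (mkclk2 k r) s
      (update s 32 (List.replicate (2 ^ 2 ^ (k * (s r).length + k)) true)) True
      (2 ^ 2 ^ (K * (s r).length + K)) := by
  refine ⟨2 * k + 7, fun O s r hr h31 h32 h34 h36 => ?_⟩
  generalize hn : (s r).length = n
  have hF : Monotone (fun m : ℕ => k * (10 * (2 ^ k * m) + 2) + 1) := by
    intro a b hab
    have : 2 ^ k * a ≤ 2 ^ k * b := Nat.mul_le_mul_left _ hab
    have h2 : k * (10 * (2 ^ k * a) + 2) ≤ k * (10 * (2 ^ k * b) + 2) :=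
      Nat.mul_le_mul_left _ (by omega)
    exact Nat.add_le_add_right h2 1
  have hG : Monotone (fun m : ℕ => 10 * m + 2) := by
    intro a b hab
    show 10 * a + 2 ≤ 10 * b + 2
    omega
  have hr1 : r ≠ 36 := by omega
  have hr2 : r ≠ 34 := by omega
  -- the five parts
  have h1 : Does O (Cmd.push 36 true) s (update s 36 (List.replicate 1 true)) True 1 := by
    have := does_push (O := O) (s := s) 36 true
    rw [h36] at this
    exact this
  set s1 : Store := update s 36 (List.replicate 1 true) with hs1
  have f1r : s1 r = s r := by rw [hs1, update_of_ne hr1]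
  have f131 : s1 31 = [] := by rw [hs1, update_of_ne (by norm_num)]; exact h31
  have f134 : s1 34 = [] := by rw [hs1, update_of_ne (by norm_num)]; exact h34
  have h2 := cpg_does (O := O) (s := s1) tt (r := r) (u := 34) f131 hr2 (by omega) (by norm_num)
  have hm : (s1 r).map tt ++ s1 34 = List.replicate n true := by
    rw [f134, List.append_nil, f1r, ← hn]
    change List.map (fun _ => true) (s r) = _
    rw [List.map_const']
  rw [hm, f1r, hn] at h2
  have h3 := CLQ_loop (O := O) (u := 36) (v := 34) (a := 2 ^ k) (b := iterc (dbl 36) k)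
    (by norm_num) (by norm_num) (by norm_num) Nat.one_le_two_pow hF
    (CLQ_iter O (by norm_num) k) n (update s1 34 (List.replicate n true)) 1
    (by rw [update_of_ne (by norm_num)]; exact f131)
    (by rw [update_of_ne (by norm_num), hs1, update_self])
    (by rw [update_self])
  have h23 := Does.seq h2 (fun _ => h3)
  rw [update_idem] at h23
  have hq1 : update (update s1 34 []) 36 (List.replicate ((2 ^ k) ^ n * 1) true) =
      update s 36 (List.replicate (2 ^ (k * n)) true) := by
    rw [← pow_mul, mul_one]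
    ext q : 1
    by_cases hq : q = 36
    · subst hq
      simp
    · by_cases hq' : q = 34
      · subst hq'
        simp [h34]
      · simp [hq, hq', hs1]
  rw [hq1] at h23
  have h4 := CLQ_iter O (u := 36) (by norm_num) k (update s 36 (List.replicate (2 ^ (k * n)) true))
    (2 ^ (k * n)) (by rw [update_of_ne (by norm_num)]; exact h31) (by rw [update_self])
  have hE : 2 ^ k * 2 ^ (k * n) = 2 ^ (k * n + k) := by
    rw [← pow_add, add_comm]
  rw [update_idem, hE] at h4
  set s2 : Store := update s 36 (List.replicate (2 ^ (k * n + k)) true) with hs2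
  have f232 : s2 32 = [] := by rw [hs2, update_of_ne (by norm_num)]; exact h32
  have h5 : Does O (Cmd.push 32 true) s2 (update s2 32 (List.replicate 1 true)) True 1 := by
    have := does_push (O := O) (s := s2) 32 true
    rw [f232] at this
    exact this
  have h6 := CLQ_loop (O := O) (u := 32) (v := 36) (a := 2) (b := dbl 32)
    (by norm_num) (by norm_num) (by norm_num) (by norm_num) hG
    (fun s m h h' => dbl_does (O := O) h (by norm_num) h') (2 ^ (k * n + k))
    (update s2 32 (List.replicate 1 true)) 1
    (by rw [update_of_ne (by norm_num), hs2, update_of_ne (by norm_num)]; exact h31)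
    (by rw [update_self])
    (by rw [update_of_ne (by norm_num), hs2, update_self])
  have hq2 : update (update (update s2 32 (List.replicate 1 true)) 36 []) 32
      (List.replicate (2 ^ 2 ^ (k * n + k) * 1) true) =
      update s 32 (List.replicate (2 ^ 2 ^ (k * n + k)) true) := by
    rw [mul_one]
    ext q : 1
    by_cases hq : q = 32
    · subst hq
      simp
    · by_cases hq' : q = 36
      · subst hq'
        simp [h36]
      · simp [hq, hq', hs2]
  rw [hq2] at h6
  have h7 := Does.seq h1 (fun _ => Does.seq h23 (fun _ => Does.seq h4 (fun _ =>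
    Does.seq h5 (fun _ => h6))))
  unfold mkclk2
  change Does O (Cmd.seq (Cmd.push 36 true) (Cmd.seq (Cmd.seq (cpg tt r 34) (Cmd.loop 34
    (Cmd.pop 34 Cmd.skip Cmd.skip (iterc (dbl 36) k)))) (Cmd.seq (iterc (dbl 36) k)
    (Cmd.seq (Cmd.push 32 true) (Cmd.loop 36 (Cmd.pop 36 Cmd.skip Cmd.skip (dbl 32))))))) _ _ _ _
  refine (Does.congr h7 (fun _ => rfl) (by simp)).mono ?_
  -- the time
  have t1 := CLQ_time k n (2 ^ (k * n + k)) Nat.one_le_two_pow
  simp only [mul_one]
  have t2 : 64 * ((n + 1) * (k + 1) * 2 ^ (k * n + k) * 2 ^ 2 ^ (k * n + k)) ≤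
      2 ^ 2 ^ ((2 * k + 7) * n + (2 * k + 7)) := by
    have e1 : n + 1 ≤ 2 ^ n := Nat.lt_two_pow_self
    have e2 : k + 1 ≤ 2 ^ k := Nat.lt_two_pow_self
    have e3 : 64 * ((n + 1) * (k + 1) * 2 ^ (k * n + k) * 2 ^ 2 ^ (k * n + k)) ≤
        2 ^ 6 * (2 ^ n * 2 ^ k * 2 ^ (k * n + k) * 2 ^ 2 ^ (k * n + k)) := by
      refine Nat.mul_le_mul (by norm_num) ?_
      refine Nat.mul_le_mul_right _ ?_
      refine Nat.mul_le_mul_right _ ?_
      exact Nat.mul_le_mul e1 e2
    have e4 : 2 ^ 6 * (2 ^ n * 2 ^ k * 2 ^ (k * n + k) * 2 ^ 2 ^ (k * n + k)) =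
        2 ^ (6 + n + k + (k * n + k) + 2 ^ (k * n + k)) := by
      rw [← pow_add, ← pow_add, ← pow_add, ← pow_add]
      congr 1
      ring
    rw [e4] at e3
    refine e3.trans (Nat.pow_le_pow_right (by norm_num) ?_)
    have e5 : 6 + n + k + (k * n + k) ≤ 2 ^ (6 + n + k + (k * n + k)) :=
      Nat.lt_two_pow_self.le
    have e6 : 2 ^ (k * n + k) ≤ 2 ^ (6 + n + k + (k * n + k)) :=
      Nat.pow_le_pow_right (by norm_num) (by omega)
    have e7 : 2 ^ (6 + n + k + (k * n + k)) + 2 ^ (6 + n + k + (k * n + k)) =
        2 ^ (7 + n + k + (k * n + k)) := by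
      rw [← two_mul, ← pow_succ']
      congr 1
      ring
    have e8 : 2 ^ (7 + n + k + (k * n + k)) ≤ 2 ^ ((2 * k + 7) * n + (2 * k + 7)) := by
      refine Nat.pow_le_pow_right (by norm_num) ?_
      have : (2 * k + 7) * n = 2 * (k * n) + 7 * n := by ring
      rw [this]
      omega
    omega
  refine le_trans ?_ t2
  refine le_trans (le_of_eq ?_) t1
  ring

end Pool.Agent.Helper5.SX
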