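import Pool.Agent.Helper5.SY.Copy

/-!
# Strings by number
-/

namespace Pool.Agent.Helper5.SX

open Function

theorem wsucc_length_le (w : Str) : (wsucc w).length ≤ w.length + 1 := by
  induction w with
  | nil => simp [wsucc]
  | cons b w ih =>
    cases b with
    | false => simp [wsucc]
    | true =>
      simp only [wsucc, List.length_cons]
      omega

theorem wstr_length_le (m : ℕ) : (wstr m).length ≤ m := by
  induction m with
  | zero => simp [wstr]
  | succ m ih =>
    have h := wsucc_length_le (wstr m)
    simp only [wstr]
    omega

/-- The number of a string. -/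
def wnum : Str → ℕ
  | [] => 0
  | b :: w => 2 * wnum w + (if b then 2 else 1)

theorem wnum_wsucc (w : Str) : wnum (wsucc w) = wnum w + 1 := by
  induction w with
  | nil => simp [wsucc, wnum]
  | cons b w ih =>
    cases b with
    | false => simp [wsucc, wnum]
    | true =>
      simp only [wsucc, wnum, ih, Bool.false_eq_true, if_false, if_true]
      omega

theorem wnum_wstr (m : ℕ) : wnum (wstr m) = m := by
  induction m with
  | zero => simp [wstr, wnum]
  | succ m ih => rw [wstr, wnum_wsucc, ih]

theorem wnum_inj : ∀ a b : Str, wnum a = wnum b → a = b := by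
  intro a
  induction a with
  | nil =>
    intro b h
    cases b with
    | nil => rfl
    | cons x b =>
      cases x <;> simp [wnum] at h
  | cons y a ih =>
    intro b h
    cases b with
    | nil => cases y <;> simp [wnum] at h
    | cons x b =>
      have hxy : y = x := by
        cases x <;> cases y <;> simp [wnum] at h <;> first | rfl | omega
      subst hxy
      have h1 : wnum a = wnum b := by
        simp only [wnum] at h
        omega
      rw [ih b h1]

theorem wnum_le (a : Str) : wnum a + 2 ≤ 2 ^ (a.length + 1) := by
  induction a with
  | nil => simp [wnum]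
  | cons b a ih =>
    have h : 2 ^ ((b :: a).length + 1) = 2 * 2 ^ (a.length + 1) := by
      rw [List.length_cons, pow_succ]
      ring
    rw [h]
    simp only [wnum]
    split_ifs <;> omega

theorem wstr_surj (a : Str) : ∃ m ≤ 2 ^ (a.length + 1), wstr m = a :=
  ⟨wnum a, by have := wnum_le a; omega, wnum_inj _ _ (wnum_wstr _)⟩

theorem wincr_ph2 {O : Set Str} : ∀ (j : ℕ) (s : Store), s 13 = List.replicate j true →
    Does O (Cmd.loop 13 (Cmd.pop 13 Cmd.skip Cmd.skip (Cmd.push 7 false))) s
      (update (update s 13 []) 7 (List.replicate j false ++ s 7)) True (3 * j + 1) := by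
  intro j
  induction j with
  | zero =>
    intro s h
    refine Does.congr (does_loop_nil h) (fun _ => ?_) Iff.rfl
    funext q
    simp only [Function.update_apply]
    split_ifs <;> simp_all
  | succ j ih =>
    intro s h
    rw [List.replicate_succ] at h
    have h1 : Does O (Cmd.pop 13 Cmd.skip Cmd.skip (Cmd.push 7 false)) s
        (update (update s 13 (List.replicate j true)) 7 (false :: s 7)) True 2 := by
      refine Spec.pop_true h ?_
      refine Does.congr (does_push 7 false) (fun _ => ?_) Iff.rfl
      simp
    have h2 := Does.loop_cons (by rw [h]; simp) h1 (fun _ => ih _ (by simp))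
    refine (Does.congr h2 (fun _ => ?_) (by simp)).mono (by omega)
    funext q
    simp only [Function.update_apply]
    split_ifs <;> simp_all [List.replicate_succ']

theorem wincr_ph1 {O : Set Str} : ∀ (w : Str) (s : Store), s 7 = w →
    s 12 = [true] → ∃ (j : ℕ) (v : Str),
      wsucc w = List.replicate j false ++ v ∧ j ≤ w.length ∧
      Does O (Cmd.loop 12 (Cmd.pop 7 (Cmd.seq (Cmd.push 7 false) (clr 12))
        (Cmd.seq (Cmd.push 7 true) (clr 12)) (Cmd.push 13 true))) s
        (update (update (update s 7 v) 12 []) 13 (List.replicate j true ++ s 13))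
        True (3 * j + 8) := by
  intro w
  induction w with
  | nil =>
    intro s h7 h12
    refine ⟨0, [false], by simp [wsucc], by simp, ?_⟩
    have h1 : Does O (Cmd.pop 7 (Cmd.seq (Cmd.push 7 false) (clr 12))
        (Cmd.seq (Cmd.push 7 true) (clr 12)) (Cmd.push 13 true)) s
        (update (update s 7 [false]) 12 []) True 6 := by
      refine Spec.pop_nil h7 ?_
      refine (Does.congr (Does.seq (does_push 7 false) (fun _ => clr_does 12)) (fun _ => ?_)
        (by simp)).mono ?_
      · simp [h7]
      · simp [h12]
    have h2 := Does.loop_cons (by rw [h12]; simp) h1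
      (fun _ => does_loop_nil (r := 12) (by simp))
    refine (Does.congr h2 (fun _ => ?_) (by simp)).mono (by omega)
    funext q
    simp only [Function.update_apply]
    split_ifs <;> simp_all
  | cons b w ih =>
    intro s h7 h12
    cases b with
    | false =>
      refine ⟨0, true :: w, by simp [wsucc], by simp, ?_⟩
      have h1 : Does O (Cmd.pop 7 (Cmd.seq (Cmd.push 7 false) (clr 12))
          (Cmd.seq (Cmd.push 7 true) (clr 12)) (Cmd.push 13 true)) s
          (update (update s 7 (true :: w)) 12 []) True 6 := by
        refine Spec.pop_false h7 ?_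
        refine (Does.congr (Does.seq (does_push 7 true) (fun _ => clr_does 12)) (fun _ => ?_)
          (by simp)).mono ?_
        · simp
        · simp [h12]
      have h2 := Does.loop_cons (by rw [h12]; simp) h1
        (fun _ => does_loop_nil (r := 12) (by simp))
      refine (Does.congr h2 (fun _ => ?_) (by simp)).mono (by omega)
      funext q
      simp only [Function.update_apply]
      split_ifs <;> simp_all
    | true =>
      have h1 : Does O (Cmd.pop 7 (Cmd.seq (Cmd.push 7 false) (clr 12))
          (Cmd.seq (Cmd.push 7 true) (clr 12)) (Cmd.push 13 true)) s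
          (update (update s 7 w) 13 (true :: s 13)) True 2 := by
        refine Spec.pop_true h7 ?_
        refine Does.congr (does_push 13 true) (fun _ => ?_) Iff.rfl
        simp
      obtain ⟨j, v, hj, hl, hd⟩ := ih (update (update s 7 w) 13 (true :: s 13)) (by simp)
        (by simp [h12])
      refine ⟨j + 1, v, by simp [wsucc, hj, List.replicate_succ], by simp [hl], ?_⟩
      have h2 := Does.loop_cons (by rw [h12]; simp) h1 (fun _ => hd)
      refine (Does.congr h2 (fun _ => ?_) (by simp)).mono (by omega)
      funext q
      simp only [Function.update_apply]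
      split_ifs <;> simp_all [List.replicate_succ']

theorem wincr_does {O : Set Str} {s : Store} (h12 : s 12 = []) (h13 : s 13 = []) :
    Does O wincr s (update s 7 (wsucc (s 7))) True (6 * (s 7).length + 12) := by
  obtain ⟨j, v, hj, hl, hd⟩ := wincr_ph1 (O := O) (s 7) (update s 12 (true :: s 12))
    (by simp) (by simp [h12])
  have h1 := Does.seq (does_push (O := O) (s := s) 12 true)
    (fun _ => Does.seq hd (fun _ => wincr_ph2 j _ (by simp [h13])))
  unfold wincr
  refine (Does.congr h1 (fun _ => ?_) (by simp)).mono (by omega)
  funext q
  simp only [Function.update_apply]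
  split_ifs <;> simp_all

theorem decp_loop {O : Set Str} : ∀ (j i : ℕ) (s : Store), s 6 = List.replicate j true →
    s 7 = wstr i → s 12 = [] → s 13 = [] →
    Does O (Cmd.loop 6 (Cmd.pop 6 Cmd.skip Cmd.skip wincr)) s
      (update (update s 6 []) 7 (wstr (i + j))) True (j * (6 * (i + j) + 20) + 1) := by
  intro j
  induction j with
  | zero =>
    intro i s h6 h7 h12 h13
    refine (Does.congr (does_loop_nil h6) (fun _ => ?_) Iff.rfl).mono (by omega)
    funext q
    simp only [Function.update_apply]
    split_ifs <;> simp_all
  | succ j ih =>
    intro i s h6 h7 h12 h13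
    rw [List.replicate_succ] at h6
    have h1 : Does O (Cmd.pop 6 Cmd.skip Cmd.skip wincr) s
        (update (update s 6 (List.replicate j true)) 7 (wstr (i + 1))) True
        (6 * i + 12 + 1) := by
      refine Spec.pop_true h6 ?_
      refine (Does.congr (wincr_does (by simp [h12]) (by simp [h13])) (fun _ => ?_)
        Iff.rfl).mono ?_
      · simp [h7, wstr]
      · have h8 : (update s 6 (List.replicate j true)) 7 = wstr i := by simp [h7]
        have := wstr_length_le i
        rw [h8]
        omega
    have h2 := Does.loop_cons (by rw [h6]; simp) h1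
      (fun _ => ih (i + 1) _ (by simp) (by simp) (by simp [h12]) (by simp [h13]))
    refine (Does.congr h2 (fun _ => ?_) (by simp)).mono (by nlinarith)
    have h3 : i + 1 + j = i + (j + 1) := by omega
    rw [h3]
    funext q
    simp only [Function.update_apply]
    split_ifs <;> simp_all

theorem decp_does {O : Set Str} {s : Store} {m : ℕ} (h4 : s 4 = List.replicate m true)
    (h6 : s 6 = []) (h7 : s 7 = []) (h12 : s 12 = []) (h13 : s 13 = []) (h31 : s 31 = []) :
    Does O decp s (update s 7 (wstr m)) True (40 * (m + 1) ^ 2) := by
  unfold decp
  have h1 := cpg_does (O := O) tt (r := 4) (u := 6) h31 (by omega) (by omega) (by omega)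
  have h2 := Does.seq h1 (fun _ => decp_loop (O := O) m 0 _ (by
    rw [h4, h6]
    simp [tt]) (by simp [h7, wstr]) (by simp [h12]) (by simp [h13]))
  refine (Does.congr h2 (fun _ => ?_) (by simp)).mono ?_
  · funext q
    simp only [Function.update_apply, Nat.zero_add]
    split_ifs <;> simp_all
  · rw [h4]
    simp only [List.length_replicate, Nat.zero_add]
    nlinarith

end Pool.Agent.Helper5.SX
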