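import Pool.Agent.Helper5.SY.Defs

/-!
# Double exponential time: programs
-/

namespace Pool.Agent.Helper5.SX

open Function

/-- The class `NEE^O`, the union of the classes `NTIME^O(2^(2^(kn+k)))`. -/
def NEE (O : Set Str) : Set (Set Str) :=
  {A | ∃ k : ℕ, A ∈ NTIME O (fun n => 2 ^ 2 ^ (k * n + k))}

/-- Write the clock `2^(2^(kn+k))` in unary on stack 32, `n` = length of stack `r`. -/
def mkclk2 (k r : ℕ) : Cmd :=
  Cmd.seq (Cmd.push 36 true) (Cmd.seq (rep (iterc (dbl 36) k) r 1) (Cmd.seq (iterc (dbl 36) k)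
    (Cmd.seq (Cmd.push 32 true) (Cmd.loop 36 (Cmd.pop 36 Cmd.skip Cmd.skip (dbl 32))))))

/-- Check that `c` can accept the content of `rx` (without advice) in time `2^(2^(kn+k))`,
`n` = length of `rx`. -/
def call2 (c : Cmd) (k rx : ℕ) : Cmd :=
  Cmd.seq (cpg id rx 33) (Cmd.seq (mkclk2 k rx) (callp c))

/-- Check that the stacks 0 and 7 are equal; empty both. -/
def eqwp : Cmd :=
  Cmd.seq (Cmd.loop 0 (Cmd.pop 0 Cmd.skip (Cmd.pop 7 diverge Cmd.skip diverge)
    (Cmd.pop 7 diverge diverge Cmd.skip))) (assertE 7)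

/-- Check that stack 0 is unary (on a copy on stack 14). -/
def tallyp : Cmd :=
  Cmd.seq (cpg id 0 14) (Cmd.loop 14 (Cmd.pop 14 Cmd.skip diverge Cmd.skip))

/-- Check that stack 0 is not unary (with a copy on stack 14 and a flag on stack 16). -/
def ntallyp : Cmd :=
  Cmd.seq (cpg id 0 14) (Cmd.seq (Cmd.loop 14 (Cmd.pop 14 Cmd.skip (Cmd.push 16 true) Cmd.skip))
    (Cmd.seq (assertNE 16) (clr 16)))

/-- Guess the number `m` of the input and run `c` on `1^m`. -/
def R1 (c : Cmd) (k : ℕ) : Cmd :=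
  Cmd.seq (gU 4) (Cmd.seq decp (Cmd.seq eqwp (Cmd.seq (call c k 4 30) (Cmd.push 2 true))))

/-- Run `c` on the string with number `n`, `n` = length of the input. -/
def R0 (c : Cmd) (k : ℕ) : Cmd :=
  Cmd.seq (cpg tt 0 4) (Cmd.seq decp (Cmd.seq (call2 c k 7) (Cmd.push 2 true)))

/-- The input is unary and `R0` accepts. -/
def R3 (c : Cmd) (k : ℕ) : Cmd := Cmd.seq tallyp (R0 c k)

/-- The input is not unary, or `R0` accepts. -/
def R2 (c : Cmd) (k : ℕ) : Cmd := Cmd.choose (Cmd.seq ntallyp (Cmd.push 2 true)) (R0 c k)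

end Pool.Agent.Helper5.SX
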