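import Pool.Agent.Helper5.SY.Defs

/-!
# The list of all strings
-/

namespace Pool.Agent.Helper5.SX

open Function

theorem mem_allStr {n : ℕ} {x : Str} : x ∈ allStr n ↔ x.length = n := by
  induction n generalizing x with
  | zero => rw [allStr, List.mem_singleton, List.length_eq_zero_iff]
  | succ n ih =>
    rw [allStr, List.mem_flatMap]
    constructor
    · rintro ⟨w, hw, hx⟩
      have hw' := ih.1 hw
      rcases List.mem_cons.1 hx with rfl | hx
      · rw [List.length_cons, hw']
      · rw [List.mem_singleton] at hx
        rw [hx, List.length_cons, hw']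
    · intro h
      cases x with
      | nil => simp at h
      | cons b w =>
        refine ⟨w, ih.2 (by simpa using h), ?_⟩
        cases b <;> simp

theorem nodup_flatMap_cons {l : List Str} (h : l.Nodup) :
    (l.flatMap (fun w => [false :: w, true :: w])).Nodup := by
  induction l with
  | nil => simp
  | cons a l ih =>
    rw [List.nodup_cons] at h
    rw [List.flatMap_cons]
    have h1 := ih h.2
    simp only [List.cons_append, List.nil_append, List.nodup_cons, List.mem_cons,
      List.mem_flatMap, List.not_mem_nil, or_false]
    refine ⟨?_, ?_, h1⟩
    · rintro (h2 | ⟨w, hw, h2 | h2⟩)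
      · simp at h2
      · simp only [List.cons.injEq, true_and] at h2
        exact h.1 (h2 ▸ hw)
      · simp at h2
    · rintro ⟨w, hw, h2 | h2⟩
      · simp at h2
      · simp only [List.cons.injEq, true_and] at h2
        exact h.1 (h2 ▸ hw)

theorem nodup_allStr (n : ℕ) : (allStr n).Nodup := by
  induction n with
  | zero => simp [allStr]
  | succ n ih => exact nodup_flatMap_cons ih

theorem length_flatMap_cons (l : List Str) :
    (l.flatMap (fun w => [false :: w, true :: w])).length = 2 * l.length := by
  induction l with
  | nil => rfl
  | cons a l ih =>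
    rw [List.flatMap_cons, List.length_append, ih, List.length_cons]
    simp only [List.length_cons, List.length_nil]
    omega

theorem length_allStr (n : ℕ) : (allStr n).length = 2 ^ n := by
  induction n with
  | zero => rfl
  | succ n ih => rw [allStr, length_flatMap_cons, ih, pow_succ, mul_comm]

theorem getElem_flatMap_even (l : List Str) (i : ℕ) :
    (l.flatMap (fun w => [false :: w, true :: w]))[2 * i]? = l[i]?.map (fun w => false :: w) := by
  induction l generalizing i with
  | nil => rfl
  | cons a l ih =>
    rw [List.flatMap_cons]
    cases i with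
    | zero => rfl
    | succ i =>
      have h := ih i
      rw [List.getElem?_cons_succ, ← h]
      rfl

theorem getElem_flatMap_odd (l : List Str) (i : ℕ) :
    (l.flatMap (fun w => [false :: w, true :: w]))[2 * i + 1]? =
      l[i]?.map (fun w => true :: w) := by
  induction l generalizing i with
  | nil => rfl
  | cons a l ih =>
    rw [List.flatMap_cons]
    cases i with
    | zero => rfl
    | succ i =>
      have h := ih i
      rw [List.getElem?_cons_succ, ← h]
      rfl

theorem allStr_head (n : ℕ) : (allStr n)[0]? = some (List.replicate n false) := by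
  induction n with
  | zero => rfl
  | succ n ih =>
    have h := getElem_flatMap_even (allStr n) 0
    rw [ih] at h
    exact h

/-- `sc` gives the next element of the list (and `none` at the end). -/
theorem allStr_step {n i : ℕ} {x : Str} (h : (allStr n)[i]? = some x) :
    (allStr n)[i + 1]? = sc x := by
  induction n generalizing i x with
  | zero =>
    cases i with
    | zero =>
      have h1 : some [] = some x := h
      rw [← Option.some.inj h1]
      rfl
    | succ i => simp [allStr] at h
  | succ n ih =>
    rw [allStr] at h ⊢
    rcases Nat.even_or_odd' i with ⟨j, rfl | rfl⟩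
    · rw [getElem_flatMap_even] at h
      obtain ⟨w, hw, rfl⟩ := Option.map_eq_some_iff.1 h
      rw [getElem_flatMap_odd, hw]
      rfl
    · rw [getElem_flatMap_odd] at h
      obtain ⟨w, hw, rfl⟩ := Option.map_eq_some_iff.1 h
      have h2 : 2 * j + 1 + 1 = 2 * (j + 1) := by ring
      rw [h2, getElem_flatMap_even, ih hw]
      rfl

theorem ch_all {φ : Str → Prop} {l : List Str} :
    Ch (V := Unit) (fun x _ _ => φ x) l () () ↔ ∀ x ∈ l, φ x := by
  induction l with
  | nil => simp [Ch]
  | cons a l ih =>
    rw [Ch, List.forall_mem_cons, ← ih]
    constructor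
    · rintro ⟨_, h1, h2⟩
      exact ⟨h1, h2⟩
    · rintro ⟨h1, h2⟩
      exact ⟨(), h1, h2⟩

open Classical in
theorem ch_count {ψ : Str → Prop} {l : List Str} {j : ℕ} :
    Ch (V := ℕ) (fun x j j' => j' = j ∨ (ψ x ∧ j = j' + 1)) l j 0 ↔
      j ≤ (l.filter (fun x => decide (ψ x))).length := by
  induction l generalizing j with
  | nil => simp [Ch]
  | cons a l ih =>
    rw [Ch]
    constructor
    · rintro ⟨v, h1, h2⟩
      rw [ih] at h2
      by_cases ha : ψ a
      · rw [List.filter_cons_of_pos (by simpa using ha), List.length_cons]
        rcases h1 with rfl | ⟨-, rfl⟩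
        · omega
        · omega
      · rw [List.filter_cons_of_neg (by simpa using ha)]
        rcases h1 with rfl | ⟨h3, -⟩
        · exact h2
        · exact absurd h3 ha
    · intro h
      by_cases ha : ψ a
      · rw [List.filter_cons_of_pos (by simpa using ha), List.length_cons] at h
        cases j with
        | zero => exact ⟨0, Or.inl rfl, ih.2 (Nat.zero_le _)⟩
        | succ j => exact ⟨j, Or.inr ⟨ha, rfl⟩, ih.2 (by omega)⟩
      · rw [List.filter_cons_of_neg (by simpa using ha)] at h
        exact ⟨j, Or.inl rfl, ih.2 h⟩

end Pool.Agent.Helper5.SX
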