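import Pool.Agent.Helper5.SY.Incr
import Pool.Agent.Helper5.SY.Lists

/-!
# The enumeration loop
-/

namespace Pool.Agent.Helper5.SX

open Function

theorem Spec.seq_ex {V : Type} {O : Set Str} {c d : Cmd} {s : Store} {T T' : ℕ} {β : V → Prop}
    {f : V → Store} {R : V → Store → Prop}
    (h : Spec O c s (fun s' => ∃ v', β v' ∧ s' = f v') T)
    (h' : ∀ v', β v' → Spec O d (f v') (R v') T') :
    Spec O (Cmd.seq c d) s (fun s₂ => ∃ v', β v' ∧ R v' s₂) (T + T') := by
  constructor
  · intro t s' hr
    cases hr with
    | seq h1 h2 =>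
      obtain ⟨v', hv, rfl⟩ := h.1 _ _ h1
      exact ⟨v', hv, (h' v' hv).1 _ _ h2⟩
  · rintro s' ⟨v', hv, h2⟩
    obtain ⟨t, ht, hr⟩ := h.2 (f v') ⟨v', hv, rfl⟩
    obtain ⟨t', ht', hr'⟩ := (h' v' hv).2 s' h2
    exact ⟨t + t', by omega, Run.seq hr hr'⟩

theorem Spec.loop_ex {V : Type} {O : Set Str} {c : Cmd} {r : ℕ} {s : Store} {T T' : ℕ}
    {β : V → Prop} {f : V → Store} {R : V → Store → Prop} (hs : s r ≠ [])
    (h : Spec O c s (fun s' => ∃ v', β v' ∧ s' = f v') T)
    (h' : ∀ v', β v' → Spec O (Cmd.loop r c) (f v') (R v') T') :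
    Spec O (Cmd.loop r c) s (fun s₂ => ∃ v', β v' ∧ R v' s₂) (T + T' + 1) := by
  constructor
  · intro t s' hr
    cases hr with
    | loop_nil h1 => exact absurd h1 hs
    | loop_cons h1 h2 h3 =>
      obtain ⟨v', hv, rfl⟩ := h.1 _ _ h2
      exact ⟨v', hv, (h' v' hv).1 _ _ h3⟩
  · rintro s' ⟨v', hv, h2⟩
    obtain ⟨t, ht, hr⟩ := h.2 (f v') ⟨v', hv, rfl⟩
    obtain ⟨t', ht', hr'⟩ := (h' v' hv).2 s' h2
    exact ⟨t + t' + 1, by omega, Run.loop_cons hs hr hr'⟩

theorem enum_loop {V : Type} {O : Set Str} {body : Cmd} {σ : V → Store} {n T : ℕ}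
    {β : Str → V → V → Prop} (h10 : ∀ v, σ v 10 = List.replicate n false)
    (h11 : ∀ v, σ v 11 = []) (h12 : ∀ v, σ v 12 = []) (h13 : ∀ v, σ v 13 = [])
    (hbody : ∀ (x : Str) (v : V), x.length = n →
      Spec O body (update (update (σ v) 10 x) 11 [true])
        (fun s' => ∃ v', β x v v' ∧ s' = update (update (σ v') 10 x) 11 [true]) T) :
    ∀ (l : List Str) (x : Str) (i : ℕ) (v : V), x :: l = (allStr n).drop i →
    Spec O (Cmd.loop 11 (Cmd.seq body incr)) (update (update (σ v) 10 x) 11 [true])
      (fun s' => ∃ v', Ch β (x :: l) v v' ∧ s' = σ v')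
      ((T + 12 * (n + 1) + 5) * (l.length + 1) + 1) := by
  intro l
  induction l with
  | nil =>
    intro x i v hl
    have hx : (allStr n)[i]? = some x := by
      have h := List.getElem?_drop (xs := allStr n) (i := i) (j := 0)
      rw [← hl] at h
      simpa using h.symm
    have hsc : sc x = none := by
      rw [← allStr_step hx]
      have h := List.getElem?_drop (xs := allStr n) (i := i) (j := 1)
      rw [← hl] at h
      simpa using h.symm
    have hlen : x.length = n := mem_allStr.1 (List.mem_of_getElem? hx)
    have h1 : Spec O (Cmd.seq body incr) (update (update (σ v) 10 x) 11 [true])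
        (fun s' => ∃ v', β x v v' ∧ s' = σ v') (T + (12 * (n + 1) + 4)) := by
      refine Spec.seq_ex (R := fun v' s' => s' = σ v') (hbody x v hlen) fun v' hv => ?_
      have h2 := incr_none (O := O) (s := update (update (σ v') 10 x) 11 [true]) (by simp [hsc])
        (by simp) (by simp [h12]) (by simp [h13])
      have h3 : update (update (update (update (σ v') 10 x) 11 [true]) 10
          (List.replicate ((update (update (σ v') 10 x) 11 [true]) 10).length false)) 11 [] =
          σ v' := by
        funext q
        have ha := h10 v'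
        have hb := h11 v'
        by_cases hq : q = 11
        · subst hq
          simp [hb]
        · by_cases hq' : q = 10
          · subst hq'
            simp [ha, hlen]
          · simp [hq, hq']
      rw [h3] at h2
      refine (Spec.congr h2 fun s' => by simp).mono ?_
      simp [hlen]
    refine (Spec.congr (Spec.loop_ex (R := fun v' s' => s' = σ v') (by simp) h1 fun v' hv =>
      Spec.congr (does_loop_nil (h11 v')) fun s' => by simp) fun s' => ?_).mono ?_
    · simp [Ch]
    · simp only [List.length_nil]
      omega
  | cons y l ih =>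
    intro x i v hl
    have hx : (allStr n)[i]? = some x := by
      have h := List.getElem?_drop (xs := allStr n) (i := i) (j := 0)
      rw [← hl] at h
      simpa using h.symm
    have hsc : sc x = some y := by
      rw [← allStr_step hx]
      have h := List.getElem?_drop (xs := allStr n) (i := i) (j := 1)
      rw [← hl] at h
      simpa using h.symm
    have hl' : y :: l = (allStr n).drop (i + 1) := by
      have h := List.drop_drop (i := 1) (j := i) (l := allStr n)
      rw [← h, ← hl]
      rfl
    have hlen : x.length = n := mem_allStr.1 (List.mem_of_getElem? hx)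
    have h1 : Spec O (Cmd.seq body incr) (update (update (σ v) 10 x) 11 [true])
        (fun s' => ∃ v', β x v v' ∧ s' = update (update (σ v') 10 y) 11 [true])
        (T + (12 * (n + 1) + 4)) := by
      refine Spec.seq_ex (R := fun v' s' => s' = update (update (σ v') 10 y) 11 [true])
        (hbody x v hlen) fun v' hv => ?_
      have h2 := incr_some (O := O) (s := update (update (σ v') 10 x) 11 [true]) (x := y)
        (by simp [hsc]) (by simp [h12]) (by simp [h13])
      have h3 : update (update (update (σ v') 10 x) 11 [true]) 10 y =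
          update (update (σ v') 10 y) 11 [true] := by
        funext q
        by_cases hq : q = 11
        · subst hq
          simp
        · by_cases hq' : q = 10
          · subst hq'
            simp
          · simp [hq, hq']
      rw [h3] at h2
      refine (Spec.congr h2 fun s' => by simp).mono ?_
      simp [hlen]
    refine (Spec.congr (Spec.loop_ex
      (R := fun v₁ s' => ∃ v', Ch β (y :: l) v₁ v' ∧ s' = σ v') (by simp) h1
      fun v' hv => ih y (i + 1) v' hl') fun s' => ?_).mono ?_
    · constructor
      · rintro ⟨v₁, ha, v', hb, rfl⟩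
        exact ⟨v', ⟨v₁, ha, hb⟩, rfl⟩
      · rintro ⟨v', ⟨v₁, ha, hb⟩, rfl⟩
        exact ⟨v₁, ha, v', hb, rfl⟩
    · simp only [List.length_cons]
      ring_nf
      omega

/-- `enum body` runs `body` for each string `x` of length `n` (on stack 10) in the order of
`allStr n`; the rest of the store is described by a state `v : V`, which `body` may change from
`v` to `v'` exactly if `β x v v'`. Induction on the number of strings left: for
`l = (allStr n).drop i`, `l = x :: l'`, one has `sc x = l'.head?` (`allStr_step`); use
`Spec.loop_cons`, `Spec.seq`, `incr_some`, `incr_none`. -/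
theorem enum_spec {V : Type} {O : Set Str} {body : Cmd} {σ : V → Store} {n T : ℕ}
    {β : Str → V → V → Prop} (h10 : ∀ v, σ v 10 = List.replicate n false)
    (h11 : ∀ v, σ v 11 = []) (h12 : ∀ v, σ v 12 = []) (h13 : ∀ v, σ v 13 = [])
    (hbody : ∀ (x : Str) (v : V), x.length = n →
      Spec O body (update (update (σ v) 10 x) 11 [true])
        (fun s' => ∃ v', β x v v' ∧ s' = update (update (σ v') 10 x) 11 [true]) T) (v : V) :
    Spec O (enum body) (σ v) (fun s' => ∃ v', Ch β (allStr n) v v' ∧ s' = σ v')
      ((T + 20 * (n + 1)) * 2 ^ n + 10) := by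
  have hlen := length_allStr n
  rcases hall : allStr n with _ | ⟨x, l⟩
  · rw [hall, List.length_nil] at hlen
    exact absurd hlen (pow_pos (by norm_num) n).ne
  have hx : x = List.replicate n false := by
    have h := allStr_head n
    rw [hall] at h
    simpa using h
  rw [hall, List.length_cons] at hlen
  have h1 : Does O (Cmd.push 11 true) (σ v) (update (update (σ v) 10 x) 11 [true]) True 1 := by
    refine Does.congr (does_push 11 true) (fun _ => ?_) Iff.rfl
    funext q
    by_cases hq : q = 11
    · subst hq
      simp [h11]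
    · by_cases hq' : q = 10
      · subst hq'
        simp [h10, hx]
      · simp [hq, hq']
  have h2 := enum_loop h10 h11 h12 h13 hbody l x 0 v (by rw [List.drop_zero, hall])
  refine (Spec.congr (Does.seq_spec h1 fun _ => h2) fun s' => by simp).mono ?_
  rw [hlen]
  have h3 : (T + 12 * (n + 1) + 5) * 2 ^ n ≤ (T + 20 * (n + 1)) * 2 ^ n :=
    Nat.mul_le_mul_right _ (by omega)
  omega

end Pool.Agent.Helper5.SX
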