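import Pool.Agent.Helper5.SY.Copy

/-!
# Guessing
-/

namespace Pool.Agent.Helper5.SX

open Function

theorem gU_sound_aux {O : Set Str} {r : ℕ} (hr : r ≠ 5) {c : Cmd} {s s' : Store} {t : ℕ}
    (h : Run O c s t s') (hc : c = Cmd.loop 5 (Cmd.choose (clr 5) (Cmd.push r true)))
    (h5 : s 5 = [true]) (k : ℕ) (hk : s r = List.replicate k true) :
    ∃ m, s' = update (update s 5 []) r (List.replicate m true) := by
  induction h generalizing k with
  | loop_nil h1 =>
    cases hc
    rw [h5] at h1
    cases h1
  | @loop_cons _ _ s s₁ s₂ _ _ h1 h2 h3 ih2 ih3 =>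
    cases hc
    cases h2 with
    | choose_left h4 =>
      obtain ⟨rfl, -⟩ := (clr_does (O := O) (s := s) 5).1 _ _ h4
      obtain ⟨rfl, -⟩ := (does_loop_nil (O := O) (s := update s 5 []) (r := 5)
        (c := Cmd.choose (clr 5) (Cmd.push r true)) (by simp)).1 _ _ h3
      refine ⟨k, ?_⟩
      rw [← hk]
      ext q : 1
      by_cases hq : q = r
      · subst hq
        simp [hr]
      · simp [hq]
    | choose_right h4 =>
      cases h4
      obtain ⟨m, hm⟩ := ih3 rfl (by simp [Ne.symm hr, h5]) (k + 1)
        (by simp [hk, List.replicate_succ])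
      refine ⟨m, hm.trans ?_⟩
      ext q : 1
      by_cases hq : q = r
      · subst hq
        simp
      · by_cases hq5 : q = 5
        · subst hq5
          simp [hq]
        · simp [hq, hq5]
  | _ => cases hc

theorem gU_sound {O : Set Str} {s s' : Store} {r t : ℕ} (hr : r ≠ 5) (hs : s r = [])
    (h5 : s 5 = []) (h : Run O (gU r) s t s') : ∃ m, s' = update s r (List.replicate m true) := by
  unfold gU at h
  cases h with
  | seq h1 h2 =>
    cases h1
    obtain ⟨m, hm⟩ := gU_sound_aux hr h2 rfl (by simp [h5]) 0 (by simp [hr, hs])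
    refine ⟨m, hm.trans ?_⟩
    ext q : 1
    by_cases hq : q = r
    · subst hq
      simp
    · by_cases hq5 : q = 5
      · subst hq5
        simp [hq, h5]
      · simp [hq, hq5]

theorem gU_complete_aux {O : Set Str} {r : ℕ} (hr : r ≠ 5) (m : ℕ) (s : Store)
    (h5 : s 5 = [true]) :
    ∃ t ≤ 3 * m + 8, Run O (Cmd.loop 5 (Cmd.choose (clr 5) (Cmd.push r true))) s t
      (update (update s 5 []) r (List.replicate m true ++ s r)) := by
  induction m generalizing s with
  | zero =>
    obtain ⟨t, ht, h1⟩ := (clr_does (O := O) (s := s) 5).2 _ ⟨rfl, trivial⟩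
    have h2 : Run O (Cmd.loop 5 (Cmd.choose (clr 5) (Cmd.push r true))) (update s 5 []) 1
        (update s 5 []) := Run.loop_nil (by simp)
    refine ⟨t + 1 + 1 + 1, ?_, ?_⟩
    · rw [h5] at ht
      simp at ht
      omega
    · have h3 := Run.loop_cons (by rw [h5]; simp) (Run.choose_left (d := Cmd.push r true) h1) h2
      have h4 : update (update s 5 []) r (List.replicate 0 true ++ s r) = update s 5 [] := by
        ext q : 1
        by_cases hq : q = r
        · subst hq
          simp [hr]
        · simp [hq]
      rw [h4]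
      exact h3
  | succ m ih =>
    obtain ⟨t, ht, h1⟩ := ih (update s r (true :: s r)) (by simp [Ne.symm hr, h5])
    refine ⟨1 + 1 + t + 1, by omega, ?_⟩
    have h3 := Run.loop_cons (by rw [h5]; simp)
      (Run.choose_right (c := clr 5) (Run.push (O := O) r true s)) h1
    have h4 : update (update s 5 []) r (List.replicate (m + 1) true ++ s r) =
        update (update (update s r (true :: s r)) 5 []) r
          (List.replicate m true ++ (update s r (true :: s r)) r) := by
      ext q : 1
      by_cases hq : q = r
      · subst hq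
        simp [List.replicate_succ']
      · by_cases hq5 : q = 5
        · subst hq5
          simp [hq]
        · simp [hq, hq5]
    rw [h4]
    exact h3

theorem gU_complete {O : Set Str} {s : Store} {r : ℕ} (hr : r ≠ 5) (hs : s r = [])
    (h5 : s 5 = []) (m : ℕ) :
    ∃ t ≤ 4 * m + 10, Run O (gU r) s t (update s r (List.replicate m true)) := by
  obtain ⟨t, ht, h1⟩ := gU_complete_aux (O := O) hr m (update s 5 (true :: s 5)) (by simp [h5])
  refine ⟨1 + t, by omega, ?_⟩
  have h2 := Run.seq (Run.push (O := O) 5 true s) h1
  have h3 : update (update (update s 5 (true :: s 5)) 5 []) r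
      (List.replicate m true ++ (update s 5 (true :: s 5)) r) =
      update s r (List.replicate m true) := by
    ext q : 1
    by_cases hq : q = r
    · subst hq
      simp [hr, hs]
    · by_cases hq5 : q = 5
      · subst hq5
        simp [hq, h5]
      · simp [hq, hq5]
  rw [h3] at h2
  exact h2

theorem gX_spec_aux {O : Set Str} (n : ℕ) (s : Store) (h6 : s 6 = List.replicate n true) :
    Spec O (Cmd.loop 6 (Cmd.pop 6 Cmd.skip Cmd.skip
      (Cmd.choose (Cmd.push 10 false) (Cmd.push 10 true)))) s
      (fun s' => ∃ x : Str, x.length = n ∧ s' = update (update s 6 []) 10 (x ++ s 10))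
      (4 * n + 1) := by
  induction n generalizing s with
  | zero =>
    refine (Spec.congr (does_loop_nil h6) fun s' => ?_).mono (by omega)
    have h7 : update (update s 6 []) 10 (s 10) = s := by
      ext q : 1
      by_cases hq : q = 10
      · subst hq
        simp
      · by_cases hq6 : q = 6
        · subst hq6
          simp [h6]
        · simp [hq, hq6]
    constructor
    · rintro ⟨rfl, -⟩
      exact ⟨[], rfl, h7.symm⟩
    · rintro ⟨x, hx, rfl⟩
      rw [List.length_eq_zero_iff] at hx
      subst hx
      exact ⟨h7, trivial⟩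
  | succ n ih =>
    have h7 : s 6 = true :: List.replicate n true := by rw [h6, List.replicate_succ]
    have h8 := Spec.pop_true (c₀ := Cmd.skip) (c₁ := Cmd.skip) h7
      (Spec.choose (does_push (O := O) (s := update s 6 (List.replicate n true)) 10 false)
        (does_push (O := O) (s := update s 6 (List.replicate n true)) 10 true))
    have h9 := Spec.loop_cons (R'' := fun s₁ s' => ∃ x : Str, x.length = n ∧
      s' = update (update s₁ 6 []) 10 (x ++ s₁ 10)) (T' := 4 * n + 1)
      (by rw [h7]; simp) h8 (fun s₁ hs₁ => ih s₁ (by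
        rcases hs₁ with ⟨rfl, -⟩ | ⟨rfl, -⟩ <;> simp))
    refine (h9.congr fun s' => ?_).mono (by omega)
    have h10 : ∀ (b : Bool) (x : Str), update (update (update (update s 6 (List.replicate n true)) 10
        (b :: (update s 6 (List.replicate n true)) 10)) 6 []) 10
        (x ++ (update (update s 6 (List.replicate n true)) 10
          (b :: (update s 6 (List.replicate n true)) 10)) 10) =
        update (update s 6 []) 10 ((x ++ [b]) ++ s 10) := by
      intro b x
      ext q : 1
      by_cases hq : q = 10
      · subst hq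
        simp
      · by_cases hq6 : q = 6
        · subst hq6
          simp
        · simp [hq, hq6]
    constructor
    · rintro ⟨s₁, ⟨rfl, -⟩ | ⟨rfl, -⟩, x, hx, rfl⟩
      · exact ⟨x ++ [false], by simp [hx], h10 false x⟩
      · exact ⟨x ++ [true], by simp [hx], h10 true x⟩
    · rintro ⟨y, hy, rfl⟩
      obtain ⟨x, b, rfl⟩ : ∃ (x : Str) (b : Bool), y = x ++ [b] := by
        rcases List.eq_nil_or_concat y with rfl | ⟨x, b, h⟩
        · simp at hy
        · exact ⟨x, b, by simpa using h⟩
      have hx : x.length = n := by simpa using hy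
      cases b with
      | false => exact ⟨_, Or.inl ⟨rfl, trivial⟩, x, hx, (h10 false x).symm⟩
      | true => exact ⟨_, Or.inr ⟨rfl, trivial⟩, x, hx, (h10 true x).symm⟩

theorem gX_spec {O : Set Str} {s : Store} {n : ℕ} (h3 : s 3 = List.replicate n true)
    (h6 : s 6 = []) (h10 : s 10 = []) (h31 : s 31 = []) :
    Spec O gX s (fun s' => ∃ x : Str, x.length = n ∧ s' = update s 10 x) (20 * n + 20) := by
  unfold gX
  have h1 := cpg_does (O := O) tt (r := 3) (u := 6) h31 (by omega) (by omega) (by omega)
  have h2 := Does.seq_spec h1 (fun _ => gX_spec_aux (O := O) n _ (by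
    rw [h3, h6]
    simp [tt]))
  refine (h2.congr fun s' => ?_).mono (by rw [h3]; simp; omega)
  have h7 : ∀ x : Str, update (update (update s 6 ((s 3).map tt ++ s 6)) 6 []) 10
      (x ++ (update s 6 ((s 3).map tt ++ s 6)) 10) = update s 10 x := by
    intro x
    ext q : 1
    by_cases hq : q = 10
    · subst hq
      simp [h10]
    · by_cases hq6 : q = 6
      · subst hq6
        simp [h6]
      · simp [hq, hq6]
  constructor
  · rintro ⟨-, x, hx, rfl⟩
    exact ⟨x, hx, h7 x⟩
  · rintro ⟨x, hx, rfl⟩
    exact ⟨trivial, x, hx, (h7 x).symm⟩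

end Pool.Agent.Helper5.SX
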