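import Pool.Agent.Helper5.SY.Copy

/-!
# Binary numerals
-/

namespace Pool.Agent.Helper5.SX

open Function

theorem uvalAux_append (a : Str) (b : Bool) (m : ℕ) :
    uvalAux (a ++ [b]) m = 2 * uvalAux a m + (if b then 1 else 0) := by
  induction a generalizing m with
  | nil => rfl
  | cons c a ih => exact ih _

theorem uval_surj (m : ℕ) : ∃ a : Str, uval a = m ∧ a.length ≤ Nat.log 2 m + 1 := by
  induction m using Nat.strong_induction_on with
  | _ m ih =>
    rcases Nat.lt_or_ge m 2 with h | h
    · interval_cases m
      · exact ⟨[], rfl, by simp⟩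
      · exact ⟨[true], rfl, by simp⟩
    · obtain ⟨a, ha, hl⟩ := ih (m / 2) (by omega)
      refine ⟨a ++ [decide (m % 2 = 1)], ?_, ?_⟩
      · unfold uval at ha ⊢
        rw [uvalAux_append, ha]
        rcases Nat.mod_two_eq_zero_or_one m with h0 | h0
        · simp [h0]
          omega
        · simp [h0]
          omega
      · have hlog : Nat.log 2 m = Nat.log 2 (m / 2) + 1 := Nat.log_of_one_lt_of_le (by omega) h
        simp only [List.length_append, List.length_cons, List.length_nil]
        omega

theorem uvalAux_lt (a : Str) (m : ℕ) : uvalAux a m < 2 ^ a.length * (m + 1) := by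
  induction a generalizing m with
  | nil => simp [uvalAux]
  | cons b a ih =>
    have h1 := ih (2 * m + (if b then 1 else 0))
    have h2 : (if b then 1 else 0 : ℕ) ≤ 1 := by split_ifs <;> omega
    calc uvalAux (b :: a) m = uvalAux a (2 * m + (if b then 1 else 0)) := rfl
      _ < 2 ^ a.length * (2 * m + (if b then 1 else 0) + 1) := h1
      _ ≤ 2 ^ a.length * (2 * (m + 1)) := Nat.mul_le_mul_left _ (by omega)
      _ = 2 ^ (b :: a).length * (m + 1) := by rw [List.length_cons, pow_succ]; ring

theorem uval_lt (a : Str) : uval a < 2 ^ a.length := by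
  have := uvalAux_lt a 0
  simpa [uval] using this

theorem horner_aux {O : Set Str} {s : Store} {m : ℕ} (h4 : s 4 = List.replicate m true)
    (h31 : s 31 = []) :
    Does O horner s (update (update s 1 []) 4 (List.replicate (uvalAux (s 1) m) true)) True
      (40 * 4 ^ (s 1).length * (m + 1)) := by
  unfold horner
  induction hw : s 1 generalizing s m with
  | nil =>
    refine (Does.congr (does_loop_nil hw) (fun _ => ?_) Iff.rfl).mono ?_
    · ext q : 1
      by_cases hq : q = 4
      · subst hq
        simp [uvalAux, h4]
      · by_cases hq' : q = 1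
        · subst hq'
          simp [hw]
        · simp [hq, hq']
    · simp only [List.length_nil, pow_zero]
      omega
  | cons b w ih =>
    have h4' : (update s 1 w) 4 = List.replicate m true := by simpa using h4
    have h31' : (update s 1 w) 31 = [] := by simpa using h31
    have hd := dbl_does (O := O) h31' (by omega : (4 : ℕ) ≠ 31) h4'
    have h1 : Does O (Cmd.pop 1 Cmd.skip (dbl 4) (Cmd.seq (dbl 4) (Cmd.push 4 true))) s
        (update (update s 1 w) 4 (List.replicate (2 * m + (if b then 1 else 0)) true)) True
        (10 * m + 4) := by
      cases b with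
      | false => exact Spec.mono (Spec.pop_false hw hd) (by omega)
      | true =>
        refine Spec.mono (Spec.pop_true hw
          (Does.congr (Does.seq hd fun _ => does_push 4 true) (fun _ => ?_) (by simp))) (by omega)
        simp [List.replicate_succ]
    have h2 := Does.loop_cons (by rw [hw]; simp) h1
      (fun _ => ih (s := update (update s 1 w) 4
        (List.replicate (2 * m + (if b then 1 else 0)) true))
        (m := 2 * m + (if b then 1 else 0)) (by simp) (by simpa using h31) (by simp))
    refine (Does.congr h2 (fun _ => ?_) (by simp)).mono ?_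
    · ext q : 1
      by_cases hq : q = 4
      · subst hq
        simp [uvalAux]
      · by_cases hq' : q = 1
        · subst hq'
          simp
        · simp [hq, hq']
    · have h3 : (if b then 1 else 0 : ℕ) ≤ 1 := by split_ifs <;> omega
      have h5 : 1 ≤ 4 ^ w.length := Nat.one_le_pow _ _ (by omega)
      have h6 : 40 * 4 ^ w.length * (2 * m + (if b then 1 else 0) + 1) ≤
          40 * 4 ^ w.length * (2 * m + 2) := Nat.mul_le_mul_left _ (by omega)
      have h7 : 40 * 4 ^ (b :: w).length * (m + 1) = 40 * 4 ^ w.length * (2 * m + 2) +
          80 * (4 ^ w.length * (m + 1)) := by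
        rw [List.length_cons, pow_succ]
        ring
      have h8 : m + 1 ≤ 4 ^ w.length * (m + 1) := Nat.le_mul_of_pos_left _ (by omega)
      rw [h7]
      omega

/-- Generalise to `s 4 = replicate m true` with `uvalAux`. -/
theorem horner_does {O : Set Str} {s : Store} (h4 : s 4 = []) (h31 : s 31 = []) :
    Does O horner s (update (update s 1 []) 4 (List.replicate (uval (s 1)) true)) True
      (40 * 4 ^ ((s 1).length + 1)) := by
  refine (horner_aux (m := 0) (by simpa using h4) h31).mono ?_
  have : 40 * 4 ^ (s 1).length ≤ 40 * 4 ^ ((s 1).length + 1) :=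
    Nat.mul_le_mul_left _ (Nat.pow_le_pow_right (by omega) (by omega))
  omega

end Pool.Agent.Helper5.SX
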