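import Pool.Agent.Helper5.SY.Defs

/-!
# The binary counter
-/

namespace Pool.Agent.Helper5.SX

open Function

theorem incr_ph2 {O : Set Str} : ∀ (j : ℕ) (s : Store), s 13 = List.replicate j true →
    Does O (Cmd.loop 13 (Cmd.pop 13 Cmd.skip Cmd.skip (Cmd.push 10 false))) s
      (update (update s 13 []) 10 (List.replicate j false ++ s 10)) True (3 * j + 1) := by
  intro j
  induction j with
  | zero =>
    intro s h
    refine Does.congr (does_loop_nil h) (fun _ => ?_) Iff.rfl
    funext q
    simp only [Function.update_apply]
    split_ifs <;> simp_all
  | succ j ih =>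
    intro s h
    rw [List.replicate_succ] at h
    have h1 : Does O (Cmd.pop 13 Cmd.skip Cmd.skip (Cmd.push 10 false)) s
        (update (update s 13 (List.replicate j true)) 10 (false :: s 10)) True 2 := by
      refine Spec.pop_true h ?_
      refine Does.congr (does_push 10 false) (fun _ => ?_) Iff.rfl
      simp
    have h2 := Does.loop_cons (by rw [h]; simp) h1 (fun _ => ih _ (by simp))
    refine (Does.congr h2 (fun _ => ?_) (by simp)).mono (by omega)
    funext q
    simp only [Function.update_apply]
    split_ifs <;> simp_all [List.replicate_succ']

theorem incr_ph1_some {O : Set Str} : ∀ (w : Str) (s : Store) (x : Str), s 10 = w →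
    sc w = some x → s 12 = [true] → ∃ (j : ℕ) (v : Str),
      x = List.replicate j false ++ true :: v ∧ w.length = j + 1 + v.length ∧
      Does O (Cmd.loop 12 (Cmd.pop 10 (Cmd.seq (clr 12) (clr 11))
        (Cmd.seq (Cmd.push 10 true) (clr 12)) (Cmd.push 13 true))) s
        (update (update (update s 10 (true :: v)) 12 []) 13 (List.replicate j true ++ s 13))
        True (3 * j + 8) := by
  intro w
  induction w with
  | nil =>
    intro s x h10 hx h12
    simp [sc] at hx
  | cons b w ih =>
    intro s x h10 hx h12
    cases b with
    | false =>
      simp only [sc, Option.some.injEq] at hx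
      refine ⟨0, w, by simp [← hx], by simp; omega, ?_⟩
      have h1 : Does O (Cmd.pop 10 (Cmd.seq (clr 12) (clr 11))
          (Cmd.seq (Cmd.push 10 true) (clr 12)) (Cmd.push 13 true)) s
          (update (update s 10 (true :: w)) 12 []) True 6 := by
        refine Spec.pop_false h10 ?_
        refine (Does.congr (Does.seq (does_push 10 true) (fun _ => clr_does 12)) (fun _ => ?_)
          (by simp)).mono ?_
        · simp
        · simp [h12]
      have h2 := Does.loop_cons (by rw [h12]; simp) h1
        (fun _ => does_loop_nil (r := 12) (by simp))
      refine (Does.congr h2 (fun _ => ?_) (by simp)).mono (by omega)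
      funext q
      simp only [Function.update_apply]
      split_ifs <;> simp_all
    | true =>
      simp only [sc, Option.map_eq_some_iff] at hx
      obtain ⟨y, hy, rfl⟩ := hx
      have h1 : Does O (Cmd.pop 10 (Cmd.seq (clr 12) (clr 11))
          (Cmd.seq (Cmd.push 10 true) (clr 12)) (Cmd.push 13 true)) s
          (update (update s 10 w) 13 (true :: s 13)) True 2 := by
        refine Spec.pop_true h10 ?_
        refine Does.congr (does_push 13 true) (fun _ => ?_) Iff.rfl
        simp
      obtain ⟨j, v, hj, hl, hd⟩ := ih (update (update s 10 w) 13 (true :: s 13)) y (by simp) hy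
        (by simp [h12])
      refine ⟨j + 1, v, by simp [hj, List.replicate_succ], by simp [hl]; omega, ?_⟩
      have h2 := Does.loop_cons (by rw [h12]; simp) h1 (fun _ => hd)
      refine (Does.congr h2 (fun _ => ?_) (by simp)).mono (by omega)
      funext q
      simp only [Function.update_apply]
      split_ifs <;> simp_all [List.replicate_succ']

theorem incr_ph1_none {O : Set Str} : ∀ (w : Str) (s : Store), s 10 = w →
    sc w = none → s 12 = [true] → s 11 = [true] →
      Does O (Cmd.loop 12 (Cmd.pop 10 (Cmd.seq (clr 12) (clr 11))
        (Cmd.seq (Cmd.push 10 true) (clr 12)) (Cmd.push 13 true))) s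
        (update (update (update (update s 10 []) 12 []) 11 []) 13
          (List.replicate w.length true ++ s 13))
        True (3 * w.length + 11) := by
  intro w
  induction w with
  | nil =>
    intro s h10 hx h12 h11
    have h1 : Does O (Cmd.pop 10 (Cmd.seq (clr 12) (clr 11))
        (Cmd.seq (Cmd.push 10 true) (clr 12)) (Cmd.push 13 true)) s
        (update (update s 12 []) 11 []) True 9 := by
      refine Spec.pop_nil h10 ?_
      refine (Does.congr (Does.seq (clr_does 12) (fun _ => clr_does 11)) (fun _ => ?_)
        (by simp)).mono ?_
      · simp
      · simp [h12, h11]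
    have h2 := Does.loop_cons (by rw [h12]; simp) h1
      (fun _ => does_loop_nil (r := 12) (by simp))
    refine (Does.congr h2 (fun _ => ?_) (by simp)).mono (by simp)
    funext q
    simp only [Function.update_apply]
    split_ifs <;> simp_all
  | cons b w ih =>
    intro s h10 hx h12 h11
    cases b with
    | false => simp [sc] at hx
    | true =>
      simp only [sc, Option.map_eq_none_iff] at hx
      have h1 : Does O (Cmd.pop 10 (Cmd.seq (clr 12) (clr 11))
          (Cmd.seq (Cmd.push 10 true) (clr 12)) (Cmd.push 13 true)) s
          (update (update s 10 w) 13 (true :: s 13)) True 2 := by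
        refine Spec.pop_true h10 ?_
        refine Does.congr (does_push 13 true) (fun _ => ?_) Iff.rfl
        simp
      have hd := ih (update (update s 10 w) 13 (true :: s 13)) (by simp) hx
        (by simp [h12]) (by simp [h11])
      have h2 := Does.loop_cons (by rw [h12]; simp) h1 (fun _ => hd)
      refine (Does.congr h2 (fun _ => ?_) (by simp)).mono (by simp; omega)
      funext q
      simp only [Function.update_apply]
      split_ifs <;> simp_all [List.replicate_succ']

theorem incr_some {O : Set Str} {s : Store} {x : Str} (h : sc (s 10) = some x)
    (h12 : s 12 = []) (h13 : s 13 = []) :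
    Does O incr s (update s 10 x) True (12 * ((s 10).length + 1)) := by
  obtain ⟨j, v, hj, hl, hd⟩ := incr_ph1_some (O := O) (s 10) (update s 12 (true :: s 12)) x
    (by simp) h (by simp [h12])
  have h1 := Does.seq (does_push (O := O) (s := s) 12 true)
    (fun _ => Does.seq hd (fun _ => incr_ph2 j _ (by simp [h13])))
  unfold incr
  refine (Does.congr h1 (fun _ => ?_) (by simp)).mono (by omega)
  funext q
  simp only [Function.update_apply]
  split_ifs <;> simp_all

theorem incr_none {O : Set Str} {s : Store} (h : sc (s 10) = none) (h11 : s 11 = [true])
    (h12 : s 12 = []) (h13 : s 13 = []) :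
    Does O incr s (update (update s 10 (List.replicate (s 10).length false)) 11 []) True
      (12 * ((s 10).length + 1) + 4) := by
  have hd := incr_ph1_none (O := O) (s 10) (update s 12 (true :: s 12))
    (by simp) h (by simp [h12]) (by simp [h11])
  have h1 := Does.seq (does_push (O := O) (s := s) 12 true)
    (fun _ => Does.seq hd (fun _ => incr_ph2 (s 10).length _ (by simp [h13])))
  unfold incr
  refine (Does.congr h1 (fun _ => ?_) (by simp)).mono (by omega)
  funext q
  simp only [Function.update_apply]
  split_ifs <;> simp_all

end Pool.Agent.Helper5.SX
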