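import Pool.Agent.Helper5.SX.Model

/-!
# A program logic for the oracle programs

`Spec O c s R T`: the final stores of `c` started on `s` are exactly the stores with `R`, and
each of them is reached within `T` steps (soundness and completeness in one statement).
-/

namespace Pool.Agent.Helper5.SX

open Function

/-- The final stores of `c` on `s` are exactly those with `R`, each reached within `T` steps. -/
def Spec (O : Set Str) (c : Cmd) (s : Store) (R : Store → Prop) (T : ℕ) : Prop :=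
  (∀ t s', Run O c s t s' → R s') ∧ ∀ s', R s' → ∃ t ≤ T, Run O c s t s'

/-- `c` leads from `s` to `s₁` within `T` steps if `φ` holds, and has no halting run otherwise. -/
def Does (O : Set Str) (c : Cmd) (s s₁ : Store) (φ : Prop) (T : ℕ) : Prop :=
  Spec O c s (fun s' => s' = s₁ ∧ φ) T

variable {O : Set Str} {c d c₀ c₁ c₂ : Cmd} {s s₁ s₂ : Store} {R R' : Store → Prop} {T T' : ℕ}
  {φ ψ : Prop} {r : ℕ} {w : Str}

theorem Spec.mono (h : Spec O c s R T) (hT : T ≤ T') : Spec O c s R T' :=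
  ⟨h.1, fun s' hs => by
    obtain ⟨t, ht, hr⟩ := h.2 s' hs
    exact ⟨t, ht.trans hT, hr⟩⟩

theorem Spec.congr (h : Spec O c s R T) (hR : ∀ s', R s' ↔ R' s') : Spec O c s R' T :=
  ⟨fun t s' hs => (hR s').1 (h.1 t s' hs), fun s' hs => h.2 s' ((hR s').2 hs)⟩

theorem Does.mono (h : Does O c s s₁ φ T) (hT : T ≤ T') : Does O c s s₁ φ T' := Spec.mono h hT

theorem Does.congr (h : Does O c s s₁ φ T) (h1 : φ → s₁ = s₂) (h2 : φ ↔ ψ) :
    Does O c s s₂ ψ T := by
  refine Spec.congr h fun s' => ?_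
  constructor
  · rintro ⟨rfl, h3⟩
    exact ⟨h1 h3, h2.1 h3⟩
  · rintro ⟨rfl, h3⟩
    exact ⟨(h1 (h2.2 h3)).symm, h2.2 h3⟩

theorem Spec.seq {R'' : Store → Store → Prop} (h : Spec O c s R T)
    (h' : ∀ s₁, R s₁ → Spec O d s₁ (R'' s₁) T') :
    Spec O (Cmd.seq c d) s (fun s₂ => ∃ s₁, R s₁ ∧ R'' s₁ s₂) (T + T') := by
  constructor
  · intro t s' hr
    cases hr with
    | seq h1 h2 => exact ⟨_, h.1 _ _ h1, (h' _ (h.1 _ _ h1)).1 _ _ h2⟩
  · rintro s' ⟨s₁, h1, h2⟩
    obtain ⟨t, ht, hr⟩ := h.2 s₁ h1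
    obtain ⟨t', ht', hr'⟩ := (h' s₁ h1).2 s' h2
    exact ⟨t + t', by omega, Run.seq hr hr'⟩

theorem Does.seq (h : Does O c s s₁ φ T) (h' : φ → Does O d s₁ s₂ ψ T') :
    Does O (Cmd.seq c d) s s₂ (φ ∧ ψ) (T + T') := by
  refine (Spec.seq (R'' := fun _ s' => s' = s₂ ∧ ψ) h ?_).congr ?_
  · rintro s' ⟨rfl, h1⟩
    exact h' h1
  · intro s'
    constructor
    · rintro ⟨_, ⟨rfl, h1⟩, rfl, h2⟩
      exact ⟨rfl, h1, h2⟩
    · rintro ⟨rfl, h1, h2⟩
      exact ⟨s₁, ⟨rfl, h1⟩, rfl, h2⟩

/-- A deterministic step followed by an arbitrary program. -/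
theorem Does.seq_spec (h : Does O c s s₁ φ T) (h' : φ → Spec O d s₁ R T') :
    Spec O (Cmd.seq c d) s (fun s' => φ ∧ R s') (T + T') := by
  refine (Spec.seq (R'' := fun _ s' => R s') h ?_).congr ?_
  · rintro s' ⟨rfl, h1⟩
    exact h' h1
  · intro s'
    constructor
    · rintro ⟨_, ⟨rfl, h1⟩, h2⟩
      exact ⟨h1, h2⟩
    · rintro ⟨h1, h2⟩
      exact ⟨s₁, ⟨rfl, h1⟩, h2⟩

theorem does_skip : Does O Cmd.skip s s True 1 := by
  constructor
  · intro t s' h
    cases h
    exact ⟨rfl, trivial⟩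
  · rintro s' ⟨rfl, -⟩
    exact ⟨1, le_rfl, Run.skip _⟩

theorem does_push (r : ℕ) (b : Bool) : Does O (Cmd.push r b) s (update s r (b :: s r)) True 1 := by
  constructor
  · intro t s' h
    cases h
    exact ⟨rfl, trivial⟩
  · rintro s' ⟨rfl, -⟩
    exact ⟨1, le_rfl, Run.push _ _ _⟩

theorem Spec.pop_nil (hs : s r = []) (h : Spec O c₀ s R T) :
    Spec O (Cmd.pop r c₀ c₁ c₂) s R (T + 1) := by
  constructor
  · intro t s' hr
    cases hr with
    | pop_nil h1 h2 => exact h.1 _ _ h2
    | pop_false h1 h2 => rw [hs] at h1; cases h1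
    | pop_true h1 h2 => rw [hs] at h1; cases h1
  · intro s' h1
    obtain ⟨t, ht, hr⟩ := h.2 s' h1
    exact ⟨t + 1, by omega, Run.pop_nil hs hr⟩

theorem Spec.pop_false (hs : s r = false :: w) (h : Spec O c₁ (update s r w) R T) :
    Spec O (Cmd.pop r c₀ c₁ c₂) s R (T + 1) := by
  constructor
  · intro t s' hr
    cases hr with
    | pop_nil h1 h2 => rw [hs] at h1; cases h1
    | pop_false h1 h2 =>
      rw [hs] at h1
      cases h1
      exact h.1 _ _ h2
    | pop_true h1 h2 => rw [hs] at h1; cases h1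
  · intro s' h1
    obtain ⟨t, ht, hr⟩ := h.2 s' h1
    exact ⟨t + 1, by omega, Run.pop_false hs hr⟩

theorem Spec.pop_true (hs : s r = true :: w) (h : Spec O c₂ (update s r w) R T) :
    Spec O (Cmd.pop r c₀ c₁ c₂) s R (T + 1) := by
  constructor
  · intro t s' hr
    cases hr with
    | pop_nil h1 h2 => rw [hs] at h1; cases h1
    | pop_false h1 h2 => rw [hs] at h1; cases h1
    | pop_true h1 h2 =>
      rw [hs] at h1
      cases h1
      exact h.1 _ _ h2
  · intro s' h1
    obtain ⟨t, ht, hr⟩ := h.2 s' h1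
    exact ⟨t + 1, by omega, Run.pop_true hs hr⟩

theorem Spec.choose (h : Spec O c s R T) (h' : Spec O d s R' T') :
    Spec O (Cmd.choose c d) s (fun s' => R s' ∨ R' s') (max T T' + 1) := by
  constructor
  · intro t s' hr
    cases hr with
    | choose_left h1 => exact Or.inl (h.1 _ _ h1)
    | choose_right h1 => exact Or.inr (h'.1 _ _ h1)
  · rintro s' (h1 | h1)
    · obtain ⟨t, ht, hr⟩ := h.2 s' h1
      exact ⟨t + 1, by omega, Run.choose_left hr⟩
    · obtain ⟨t, ht, hr⟩ := h'.2 s' h1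
      exact ⟨t + 1, by omega, Run.choose_right hr⟩

theorem does_loop_nil (hs : s r = []) : Does O (Cmd.loop r c) s s True 1 := by
  constructor
  · intro t s' hr
    cases hr with
    | loop_nil h1 => exact ⟨rfl, trivial⟩
    | loop_cons h1 h2 h3 => exact absurd hs h1
  · rintro s' ⟨rfl, -⟩
    exact ⟨1, le_rfl, Run.loop_nil hs⟩

theorem Spec.loop_cons {R'' : Store → Store → Prop} (hs : s r ≠ []) (h : Spec O c s R T)
    (h' : ∀ s₁, R s₁ → Spec O (Cmd.loop r c) s₁ (R'' s₁) T') :
    Spec O (Cmd.loop r c) s (fun s₂ => ∃ s₁, R s₁ ∧ R'' s₁ s₂) (T + T' + 1) := by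
  constructor
  · intro t s' hr
    cases hr with
    | loop_nil h1 => exact absurd h1 hs
    | loop_cons h1 h2 h3 => exact ⟨_, h.1 _ _ h2, (h' _ (h.1 _ _ h2)).1 _ _ h3⟩
  · rintro s' ⟨s₁, h1, h2⟩
    obtain ⟨t, ht, hr⟩ := h.2 s₁ h1
    obtain ⟨t', ht', hr'⟩ := (h' s₁ h1).2 s' h2
    exact ⟨t + t' + 1, by omega, Run.loop_cons hs hr hr'⟩

theorem Does.loop_cons (hs : s r ≠ []) (h : Does O c s s₁ φ T)
    (h' : φ → Does O (Cmd.loop r c) s₁ s₂ ψ T') :
    Does O (Cmd.loop r c) s s₂ (φ ∧ ψ) (T + T' + 1) := by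
  refine (Spec.loop_cons (R'' := fun _ s' => s' = s₂ ∧ ψ) hs h ?_).congr ?_
  · rintro s' ⟨rfl, h1⟩
    exact h' h1
  · intro s'
    constructor
    · rintro ⟨_, ⟨rfl, h1⟩, rfl, h2⟩
      exact ⟨rfl, h1, h2⟩
    · rintro ⟨rfl, h1, h2⟩
      exact ⟨s₁, ⟨rfl, h1⟩, rfl, h2⟩

/-- A program without halting runs. -/
def diverge : Cmd := Cmd.seq (Cmd.push 0 true) (Cmd.loop 0 Cmd.skip)

theorem loop_skip_no_run (hs : s r ≠ []) {t : ℕ} {s' : Store} :
    ¬ Run O (Cmd.loop r Cmd.skip) s t s' := by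
  intro h
  generalize hc : Cmd.loop r Cmd.skip = c at h
  induction h with
  | loop_nil h1 =>
    cases hc
    exact hs h1
  | loop_cons h1 h2 h3 ih2 ih3 =>
    cases hc
    cases h2
    exact ih3 hs rfl
  | _ => cases hc

theorem diverge_no_run {t : ℕ} {s' : Store} : ¬ Run O diverge s t s' := by
  intro h
  cases h with
  | seq h1 h2 =>
    cases h1
    exact loop_skip_no_run (by simp) h2

theorem does_diverge (s₁ : Store) : Does O diverge s s₁ False 0 :=
  ⟨fun _ _ h => absurd h diverge_no_run, fun _ h => absurd h.2 not_false⟩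

/-- Check that stack `r` is not empty. -/
def assertNE (r : ℕ) : Cmd := Cmd.pop r diverge (Cmd.push r false) (Cmd.push r true)

/-- Check that stack `r` is empty. -/
def assertE (r : ℕ) : Cmd := Cmd.pop r Cmd.skip diverge diverge

/-- Empty stack `r`. -/
def clr (r : ℕ) : Cmd := Cmd.loop r (Cmd.pop r Cmd.skip Cmd.skip Cmd.skip)

theorem assertNE_does (r : ℕ) : Does O (assertNE r) s s (s r ≠ []) 2 := by
  unfold assertNE
  rcases hs : s r with _ | ⟨b, w⟩
  · refine Does.congr (φ := False) (s₁ := s) ?_ (fun h => h.elim) (by simp)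
    exact Spec.mono (Spec.pop_nil hs (does_diverge s)) (by omega)
  · refine Does.congr (φ := True) (s₁ := s) ?_ (fun _ => rfl) (by simp)
    cases b with
    | false =>
      refine Spec.pop_false hs (Does.congr (does_push r false) (fun _ => ?_) Iff.rfl)
      ext q : 1
      by_cases hq : q = r
      · subst hq
        simp [hs]
      · simp [hq]
    | true =>
      refine Spec.pop_true hs (Does.congr (does_push r true) (fun _ => ?_) Iff.rfl)
      ext q : 1
      by_cases hq : q = r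
      · subst hq
        simp [hs]
      · simp [hq]

theorem assertE_does (r : ℕ) : Does O (assertE r) s s (s r = []) 2 := by
  unfold assertE
  rcases hs : s r with _ | ⟨b, w⟩
  · exact Does.congr (Spec.pop_nil hs does_skip) (fun _ => rfl) (by simp)
  · refine Does.congr (φ := False) (s₁ := s) ?_ (fun h => h.elim) (by simp)
    cases b with
    | false => exact Spec.mono (Spec.pop_false hs (does_diverge s)) (by omega)
    | true => exact Spec.mono (Spec.pop_true hs (does_diverge s)) (by omega)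

theorem clr_does (r : ℕ) : Does O (clr r) s (update s r []) True (3 * (s r).length + 1) := by
  unfold clr
  induction hw : s r generalizing s with
  | nil =>
    refine Does.congr (does_loop_nil hw) (fun _ => ?_) Iff.rfl
    rw [← hw, update_eq_self]
  | cons b w ih =>
    have h1 : Does O (Cmd.pop r Cmd.skip Cmd.skip Cmd.skip) s (update s r w) True 2 := by
      cases b with
      | false => exact Spec.pop_false hw does_skip
      | true => exact Spec.pop_true hw does_skip
    have h2 := Does.loop_cons (by rw [hw]; simp) h1 (fun _ => ih (s := update s r w) (by simp))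
    refine (Does.congr h2 (fun _ => by simp) (by simp)).mono ?_
    simp only [List.length_cons]
    omega

end Pool.Agent.Helper5.SX
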