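import Pool.Agent.Helper5.SY.Copy

/-!
# Comparison
-/

namespace Pool.Agent.Helper5.SX

open Function

/-- The number of places at which two strings differ. -/
private def neqp_ham : Str → Str → ℕ
  | a :: x, b :: y => (if a = b then 0 else 1) + neqp_ham x y
  | _, _ => 0

private theorem neqp_ham_le : ∀ x y : Str, neqp_ham x y ≤ x.length
  | [], _ => by simp [neqp_ham]
  | _ :: _, [] => by simp [neqp_ham]
  | a :: x, b :: y => by
    have := neqp_ham_le x y
    simp only [neqp_ham, List.length_cons]
    split_ifs <;> omega

private theorem neqp_ham_iff : ∀ x y : Str, x.length = y.length → (neqp_ham x y ≠ 0 ↔ x ≠ y)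
  | [], [], _ => by simp [neqp_ham]
  | [], _ :: _, h => by simp at h
  | _ :: _, [], h => by simp at h
  | a :: x, b :: y, h => by
    have h1 := neqp_ham_iff x y (by simpa using h)
    simp only [neqp_ham]
    by_cases hab : a = b
    · subst hab
      rw [if_pos rfl, zero_add, h1]
      simp
    · rw [if_neg hab]
      have h2 : a :: x ≠ b :: y := fun h3 => hab (List.cons.inj h3).1
      exact ⟨fun _ => h2, fun _ => by omega⟩

private theorem neqp_loop {O : Set Str} : ∀ (x y : Str) (s : Store) (k : ℕ),
    x.length = y.length → s 14 = x → s 15 = y → s 16 = List.replicate k true →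
    Does O (Cmd.loop 14 (Cmd.pop 14 Cmd.skip
        (Cmd.pop 15 Cmd.skip Cmd.skip (Cmd.push 16 true))
        (Cmd.pop 15 Cmd.skip (Cmd.push 16 true) Cmd.skip))) s
      (update (update (update s 14 []) 15 []) 16 (List.replicate (k + neqp_ham x y) true)) True
      (4 * x.length + 1)
  | [], [], s, k, _, h14, h15, h16 => by
    refine (Does.congr (does_loop_nil h14) (fun _ => ?_) Iff.rfl).mono (by simp)
    ext q : 1
    by_cases h1 : q = 16
    · subst h1
      simp [neqp_ham, h16]
    · by_cases h2 : q = 15
      · subst h2
        simp [h15]
      · by_cases h3 : q = 14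
        · subst h3
          simp [h14]
        · simp [h1, h2, h3]
  | [], _ :: _, _, _, h, _, _, _ => by simp at h
  | _ :: _, [], _, _, h, _, _, _ => by simp at h
  | a :: x, b :: y, s, k, h, h14, h15, h16 => by
    have hl : x.length = y.length := by simpa using h
    have hstep : Does O (Cmd.pop 14 Cmd.skip
        (Cmd.pop 15 Cmd.skip Cmd.skip (Cmd.push 16 true))
        (Cmd.pop 15 Cmd.skip (Cmd.push 16 true) Cmd.skip)) s
        (update (update (update s 14 x) 15 y) 16
          (List.replicate (k + if a = b then 0 else 1) true)) True 3 := by
      cases a <;> cases b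
      · refine Spec.pop_false (T := 2) h14 (Spec.pop_false (T := 1) (w := y) (by simp [h15])
          (Does.congr does_skip (fun _ => ?_) Iff.rfl))
        ext q : 1
        by_cases h1 : q = 16
        · subst h1
          simp [h16]
        · simp [h1]
      · refine Spec.pop_false (T := 2) h14 (Spec.pop_true (T := 1) (w := y) (by simp [h15])
          (Does.congr (does_push 16 true) (fun _ => ?_) Iff.rfl))
        ext q : 1
        by_cases h1 : q = 16
        · subst h1
          simp [h16, List.replicate_succ]
        · simp [h1]
      · refine Spec.pop_true (T := 2) h14 (Spec.pop_false (T := 1) (w := y) (by simp [h15])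
          (Does.congr (does_push 16 true) (fun _ => ?_) Iff.rfl))
        ext q : 1
        by_cases h1 : q = 16
        · subst h1
          simp [h16, List.replicate_succ]
        · simp [h1]
      · refine Spec.pop_true (T := 2) h14 (Spec.pop_true (T := 1) (w := y) (by simp [h15])
          (Does.congr does_skip (fun _ => ?_) Iff.rfl))
        ext q : 1
        by_cases h1 : q = 16
        · subst h1
          simp [h16]
        · simp [h1]
    have h2 := Does.loop_cons (by rw [h14]; simp) hstep (fun _ =>
      neqp_loop x y (update (update (update s 14 x) 15 y) 16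
          (List.replicate (k + if a = b then 0 else 1) true)) (k + if a = b then 0 else 1) hl
      (by simp) (by simp) (by simp))
    refine (Does.congr h2 (fun _ => ?_) (by simp)).mono ?_
    · ext q : 1
      by_cases h1 : q = 16
      · subst h1
        simp [neqp_ham, add_assoc]
      · by_cases h2 : q = 15
        · subst h2
          simp
        · by_cases h3 : q = 14
          · subst h3
            simp
          · simp [h1, h2, h3]
    · simp only [List.length_cons]
      omega

theorem neqp_does {O : Set Str} {s : Store} (hl : (s 10).length = (s 0).length)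
    (h14 : s 14 = []) (h15 : s 15 = []) (h16 : s 16 = []) (h31 : s 31 = []) :
    Does O neqp s s (s 10 ≠ s 0) (50 * ((s 10).length + 1)) := by
  set s1 : Store := update s 14 (s 10) with hs1
  set s2 : Store := update s1 15 (s 0) with hs2
  set s3 : Store := update (update (update s2 14 []) 15 []) 16
    (List.replicate (0 + neqp_ham (s 10) (s 0)) true) with hs3
  have h1 : Does O (cpg id 10 14) s s1 True (8 * (s 10).length + 2) := by
    refine Does.congr (cpg_does id h31 (by decide) (by decide) (by decide)) (fun _ => ?_) Iff.rfl
    rw [hs1, h14, List.map_id, List.append_nil]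
  have h2 : Does O (cpg id 0 15) s1 s2 True (8 * (s 10).length + 2) := by
    refine (Does.congr (cpg_does (s := s1) id (by simp [hs1, h31]) (by decide) (by decide)
      (by decide)) (fun _ => ?_) Iff.rfl).mono ?_
    · rw [hs2]
      congr 1
      simp [hs1, h15]
    · simp [hs1, hl]
  have h3 := neqp_loop (O := O) (s 10) (s 0) s2 0 hl (by simp [hs2, hs1]) (by simp [hs2])
    (by simp [hs2, hs1, h16])
  have h4 := assertNE_does (O := O) (s := s3) 16
  have h5 := clr_does (O := O) (s := s3) 16
  have h6 := Does.seq h1 (fun _ => Does.seq h2 (fun _ => Does.seq h3 (fun _ =>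
    Does.seq h4 (fun _ => h5))))
  have h16' : s3 16 = List.replicate (neqp_ham (s 10) (s 0)) true := by
    simp [hs3]
  refine (Does.congr h6 (fun _ => ?_) ?_).mono ?_
  · ext q : 1
    by_cases g1 : q = 16
    · subst g1
      simp [h16]
    · by_cases g2 : q = 15
      · subst g2
        simp [hs3, h15]
      · by_cases g3 : q = 14
        · subst g3
          simp [hs3, h14]
        · simp [hs3, hs2, hs1, g1, g2, g3]
  · rw [h16', ← neqp_ham_iff _ _ hl]
    simp
  · rw [h16', List.length_replicate]
    have := neqp_ham_le (s 10) (s 0)
    omega

end Pool.Agent.Helper5.SX
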