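import Mathlib

/-!
# Exponential bounds
-/

namespace Pool.Agent.Helper5.SX

open Function

theorem num3_le (n K L : ℕ) (h : K ≤ L) : n ^ K ≤ n ^ L + 1 := by
  rcases Nat.eq_zero_or_pos n with rfl | hn
  · rcases Nat.eq_zero_or_pos K with rfl | hK
    · simp
    · rw [Nat.zero_pow hK]; exact Nat.zero_le _
  · exact (Nat.pow_le_pow_right hn h).trans (Nat.le_succ _)

theorem num3_self_le (n a : ℕ) (hn : 2 ≤ n) : a ≤ n ^ a :=
  (Nat.lt_pow_self (by omega)).le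

theorem tb_add (K K' : ℕ) : ∃ L : ℕ, ∀ n : ℕ,
    2 ^ (n ^ K + K) + 2 ^ (n ^ K' + K') ≤ 2 ^ (n ^ L + L) := by
  refine ⟨K + K' + 2, fun n => ?_⟩
  have h1 := num3_le n K (K + K' + 2) (by omega)
  have h2 := num3_le n K' (K + K' + 2) (by omega)
  have e1 : 2 ^ (n ^ K + K) ≤ 2 ^ (n ^ (K + K' + 2) + (K + K' + 1)) :=
    Nat.pow_le_pow_right (by norm_num) (by omega)
  have e2 : 2 ^ (n ^ K' + K') ≤ 2 ^ (n ^ (K + K' + 2) + (K + K' + 1)) :=
    Nat.pow_le_pow_right (by norm_num) (by omega)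
  have e3 : 2 ^ (n ^ (K + K' + 2) + (K + K' + 2))
      = 2 ^ (n ^ (K + K' + 2) + (K + K' + 1)) * 2 := by
    rw [← pow_succ]; congr 1
  rw [e3]
  omega

theorem num3_two (n K K' : ℕ) : n ^ K + n ^ K' ≤ n ^ (K + K' + 2) + 2 := by
  rcases Nat.lt_or_ge n 2 with hn | hn
  · have h1 : n ^ K ≤ 1 := by
      calc n ^ K ≤ 1 ^ K := Nat.pow_le_pow_left (by omega) _
        _ = 1 := one_pow _
    have h2 : n ^ K' ≤ 1 := by
      calc n ^ K' ≤ 1 ^ K' := Nat.pow_le_pow_left (by omega) _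
        _ = 1 := one_pow _
    omega
  · have h1 : n ^ K ≤ n ^ (K + K' + 1) := Nat.pow_le_pow_right (by omega) (by omega)
    have h2 : n ^ K' ≤ n ^ (K + K' + 1) := Nat.pow_le_pow_right (by omega) (by omega)
    have h3 : n ^ (K + K' + 1) * 2 ≤ n ^ (K + K' + 2) := by
      rw [show K + K' + 2 = (K + K' + 1) + 1 from rfl, pow_succ]
      exact Nat.mul_le_mul_left _ hn
    omega

theorem tb_mul (K K' : ℕ) : ∃ L : ℕ, ∀ n : ℕ,
    2 ^ (n ^ K + K) * 2 ^ (n ^ K' + K') ≤ 2 ^ (n ^ L + L) := by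
  refine ⟨K + K' + 2, fun n => ?_⟩
  rw [← pow_add]
  refine Nat.pow_le_pow_right (by norm_num) ?_
  have h := num3_two n K K'
  omega

/-- `(n+m)^K ≤ (n + C (n+2)^J)^K ≤ n^L + L` for all `n`, including `n = 0, 1`. -/
theorem tb_poly (K C J : ℕ) : ∃ L : ℕ, ∀ n m : ℕ, m ≤ C * (n + 2) ^ J →
    2 ^ ((n + m) ^ K + K) ≤ 2 ^ (n ^ L + L) := by
  refine ⟨(C * 2 ^ J + J + 2) * K + (1 + C * 3 ^ J) ^ K + K, fun n m hm => ?_⟩
  refine Nat.pow_le_pow_right (by norm_num) ?_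
  rcases Nat.lt_or_ge n 2 with hn | hn
  · have h1 : n + m ≤ 1 + C * 3 ^ J := by
      have : C * (n + 2) ^ J ≤ C * 3 ^ J :=
        Nat.mul_le_mul_left _ (Nat.pow_le_pow_left (by omega) _)
      omega
    have h2 : (n + m) ^ K ≤ (1 + C * 3 ^ J) ^ K := Nat.pow_le_pow_left h1 _
    omega
  · have h0 : n ≤ n ^ (J + 1) := by
      calc n = n ^ 1 := (pow_one n).symm
        _ ≤ n ^ (J + 1) := Nat.pow_le_pow_right (by omega) (by omega)
    have h0' : n ^ J ≤ n ^ (J + 1) := Nat.pow_le_pow_right (by omega) (by omega)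
    have h1 : m ≤ C * 2 ^ J * n ^ J := by
      calc m ≤ C * (n + 2) ^ J := hm
        _ ≤ C * (2 * n) ^ J := Nat.mul_le_mul_left _ (Nat.pow_le_pow_left (by omega) _)
        _ = C * 2 ^ J * n ^ J := by rw [mul_pow, mul_assoc]
    have h2 : n + m ≤ (C * 2 ^ J + 1) * n ^ (J + 1) := by
      have : C * 2 ^ J * n ^ J ≤ C * 2 ^ J * n ^ (J + 1) := Nat.mul_le_mul_left _ h0'
      rw [add_mul, one_mul]
      omega
    have h3 : (C * 2 ^ J + 1) * n ^ (J + 1) ≤ n ^ (C * 2 ^ J + J + 2) := by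
      have h4 := num3_self_le n (C * 2 ^ J + 1) hn
      calc (C * 2 ^ J + 1) * n ^ (J + 1) ≤ n ^ (C * 2 ^ J + 1) * n ^ (J + 1) :=
            Nat.mul_le_mul_right _ h4
        _ = n ^ (C * 2 ^ J + J + 2) := by rw [← pow_add]; congr 1; omega
    have h5 : (n + m) ^ K ≤ n ^ ((C * 2 ^ J + J + 2) * K) := by
      calc (n + m) ^ K ≤ (n ^ (C * 2 ^ J + J + 2)) ^ K := Nat.pow_le_pow_left (h2.trans h3) _
        _ = n ^ ((C * 2 ^ J + J + 2) * K) := by rw [← pow_mul]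
    have h6 : n ^ ((C * 2 ^ J + J + 2) * K)
        ≤ n ^ ((C * 2 ^ J + J + 2) * K + (1 + C * 3 ^ J) ^ K + K) :=
      Nat.pow_le_pow_right (by omega) (by omega)
    omega

theorem tb_of_poly (C J : ℕ) : ∃ L : ℕ, ∀ n : ℕ, C * (n + 1) ^ J ≤ 2 ^ (n ^ L + L) := by
  refine ⟨C + J + 1, fun n => ?_⟩
  have h1 : (n + 1) ^ J ≤ 2 ^ (n * J) := by
    rw [pow_mul]
    exact Nat.pow_le_pow_left (Nat.lt_two_pow_self (n := n)) _
  have h2 : C ≤ 2 ^ C := (Nat.lt_two_pow_self (n := C)).le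
  have h3 : n * J + C ≤ n ^ (C + J + 1) + (C + J + 1) := by
    rcases Nat.lt_or_ge n 2 with hn | hn
    · have : n * J ≤ 1 * J := Nat.mul_le_mul_right _ (by omega)
      omega
    · have h4 : n * J ≤ n ^ (J + 1) := by
        rw [pow_succ, mul_comm]
        exact Nat.mul_le_mul_right _ (num3_self_le n J hn)
      have h5 : n ^ (J + 1) ≤ n ^ (C + J + 1) := Nat.pow_le_pow_right (by omega) (by omega)
      omega
  calc C * (n + 1) ^ J ≤ 2 ^ C * 2 ^ (n * J) := Nat.mul_le_mul h2 h1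
    _ = 2 ^ (n * J + C) := by rw [← pow_add, Nat.add_comm]
    _ ≤ 2 ^ (n ^ (C + J + 1) + (C + J + 1)) := Nat.pow_le_pow_right (by norm_num) h3

end Pool.Agent.Helper5.SX
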