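import Pool.Agent.Helper5.SY.Copy

/-!
# Unary arithmetic
-/

namespace Pool.Agent.Helper5.SX

open Function

/-- Adding a unary copy of stack `r` to the unary stack `u`. -/
theorem cpgTT_does {O : Set Str} {s : Store} {r u a b : ℕ} (h31 : s 31 = []) (hru : r ≠ u)
    (hr : r ≠ 31) (hu : u ≠ 31) (ha : s r = List.replicate a true)
    (hb : s u = List.replicate b true) :
    Does O (cpg tt r u) s (update s u (List.replicate (a + b) true)) True (8 * a + 2) := by
  have h := cpg_does (O := O) (s := s) tt h31 hru hr hu
  rw [ha, hb] at h
  have e : (List.replicate a true).map tt ++ List.replicate b true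
      = List.replicate (a + b) true := by
    rw [List.map_replicate, List.replicate_add]
    rfl
  rw [e, List.length_replicate] at h
  exact h

/-- The multiplication loop of `sqp`. -/
theorem sqLoop_does {O : Set Str} {N : ℕ} (k : ℕ) : ∀ {s : Store} {j : ℕ},
    s 8 = List.replicate k true → s 6 = List.replicate N true → s 5 = List.replicate j true →
    s 31 = [] →
    Does O (Cmd.loop 8 (Cmd.pop 8 Cmd.skip Cmd.skip (cpg tt 6 5))) s
      (update (update s 8 []) 5 (List.replicate (k * N + j) true)) True (k * (8 * N + 4) + 1) := by
  induction k with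
  | zero =>
    intro s j h8 h6 h5 h31
    refine (Does.congr (does_loop_nil (by simpa using h8)) (fun _ => ?_) Iff.rfl).mono (by omega)
    have e1 : update s 8 [] = s := by
      rw [show ([] : Str) = s 8 by simpa using h8.symm, update_eq_self]
    rw [e1, show List.replicate (0 * N + j) true = s 5 by rw [h5]; simp, update_eq_self]
  | succ k ih =>
    intro s j h8 h6 h5 h31
    have h8' : s 8 = true :: List.replicate k true := by rw [h8, List.replicate_succ]
    have h1 : Does O (Cmd.pop 8 Cmd.skip Cmd.skip (cpg tt 6 5)) s
        (update (update s 8 (List.replicate k true)) 5 (List.replicate (N + j) true)) True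
        (8 * N + 2 + 1) :=
      Spec.pop_true h8' (cpgTT_does (by simpa using h31) (by norm_num) (by norm_num)
        (by norm_num) (by simpa using h6) (by simpa using h5))
    have h2 := Does.loop_cons (by rw [h8']; simp) h1 (fun _ =>
      ih (s := update (update s 8 (List.replicate k true)) 5 (List.replicate (N + j) true))
        (j := N + j) (by simp) (by simpa using h6) (by simp) (by simpa using h31))
    refine (Does.congr h2 (fun _ => ?_) (by simp)).mono (by ring_nf; omega)
    ext q : 1
    by_cases hq5 : q = 5
    · subst hq5
      simp only [update_self]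
      congr 1
      ring
    · by_cases hq8 : q = 8
      · subst hq8
        simp
      · simp [hq5, hq8]

theorem sqp_does {O : Set Str} {s : Store} {n m : ℕ} (h3 : s 3 = List.replicate n true)
    (h4 : s 4 = List.replicate m true) (h5 : s 5 = []) (h6 : s 6 = []) (h8 : s 8 = [])
    (h31 : s 31 = []) :
    Does O sqp s (update s 5 (List.replicate ((n + m) ^ 2 + n) true)) True
      (40 * (n + m + 1) ^ 2) := by
  unfold sqp
  set s1 : Store := update s 6 (List.replicate (n + 0) true) with hs1
  set s2 : Store := update s1 6 (List.replicate (m + (n + 0)) true) with hs2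
  set s3 : Store := update s2 8 (List.replicate (m + (n + 0) + 0) true) with hs3
  set s4 : Store := update (update s3 8 []) 5
    (List.replicate ((m + (n + 0) + 0) * (m + (n + 0)) + 0) true) with hs4
  set s5 : Store := update s4 6 [] with hs5
  have a1 : Does O (cpg tt 3 6) s s1 True (8 * n + 2) :=
    cpgTT_does h31 (by norm_num) (by norm_num) (by norm_num) h3 (by simpa using h6)
  have a2 : Does O (cpg tt 4 6) s1 s2 True (8 * m + 2) :=
    cpgTT_does (by simpa [hs1] using h31) (by norm_num) (by norm_num) (by norm_num)
      (by simpa [hs1] using h4) (by simp [hs1])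
  have a3 : Does O (cpg tt 6 8) s2 s3 True (8 * (m + (n + 0)) + 2) :=
    cpgTT_does (by simpa [hs1, hs2] using h31) (by norm_num) (by norm_num) (by norm_num)
      (by simp [hs2]) (by simpa [hs1, hs2] using h8)
  have a4 : Does O (Cmd.loop 8 (Cmd.pop 8 Cmd.skip Cmd.skip (cpg tt 6 5))) s3 s4 True
      ((m + (n + 0) + 0) * (8 * (m + (n + 0)) + 4) + 1) :=
    sqLoop_does (N := m + (n + 0)) (m + (n + 0) + 0) (by simp [hs3]) (by simp [hs3, hs2])
      (by simpa [hs3, hs2, hs1] using h5) (by simpa [hs3, hs2, hs1] using h31)
  have a5 : Does O (clr 6) s4 s5 True (3 * (s4 6).length + 1) := clr_does 6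
  have a6 : Does O (cpg tt 3 5) s5 (update s5 5
      (List.replicate (n + ((m + (n + 0) + 0) * (m + (n + 0)) + 0)) true)) True (8 * n + 2) :=
    cpgTT_does (by simpa [hs5, hs4, hs3, hs2, hs1] using h31) (by norm_num) (by norm_num)
      (by norm_num) (by simpa [hs5, hs4, hs3, hs2, hs1] using h3) (by simp [hs5, hs4])
  have h := Does.seq a1 (fun _ => Does.seq a2 (fun _ => Does.seq a3 (fun _ => Does.seq a4
    (fun _ => Does.seq a5 (fun _ => a6)))))
  refine (Does.congr h (fun _ => ?_) (by simp)).mono ?_
  · ext q : 1
    by_cases hq5 : q = 5
    · subst hq5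
      simp only [update_self]
      congr 1
      ring
    · by_cases hq8 : q = 8
      · subst hq8
        simp [hs5, hs4, h8]
      · by_cases hq6 : q = 6
        · subst hq6
          simp [hs5, h6]
        · simp [hs5, hs4, hs3, hs2, hs1, hq5, hq8, hq6]
  · have e : (s4 6).length = m + n := by simp [hs4, hs3, hs2]
    rw [e]
    nlinarith [Nat.zero_le (n * m), Nat.zero_le n, Nat.zero_le m, sq_nonneg ((n : ℤ) + m)]

theorem eqp_does {O : Set Str} {s : Store} {j : ℕ} (h5 : s 5 = List.replicate j true) :
    Does O eqp s (update (update s 0 []) 5 []) (s 0 = List.replicate j true)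
      (10 * (s 0).length + 10) := by
  unfold eqp
  have key : ∀ (w : Str) (s : Store) (j : ℕ), s 0 = w → s 5 = List.replicate j true →
      Does O (Cmd.loop 0 (Cmd.pop 0 Cmd.skip diverge (Cmd.pop 5 diverge Cmd.skip Cmd.skip))) s
        (update (update s 0 []) 5 (List.replicate (j - w.length) true))
        (w.length ≤ j ∧ w = List.replicate w.length true) (4 * w.length + 1) := by
    intro w
    induction w with
    | nil =>
      intro s j h0 h5
      refine (Does.congr (does_loop_nil h0) (fun _ => ?_) (by simp)).mono (by simp)
      rw [show ([] : Str) = s 0 from h0.symm, update_eq_self, h0,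
        show List.replicate (j - ([] : Str).length) true = s 5 by rw [h5]; simp, update_eq_self]
    | cons b w ih =>
      intro s j h0 h5
      cases b with
      | false =>
        have h1 : Does O (Cmd.pop 0 Cmd.skip diverge (Cmd.pop 5 diverge Cmd.skip Cmd.skip)) s s
            False 1 := Spec.pop_false h0 (does_diverge s)
        have h2 : Does O (Cmd.loop 0 (Cmd.pop 0 Cmd.skip diverge
            (Cmd.pop 5 diverge Cmd.skip Cmd.skip))) s s (False ∧ True) (1 + 0 + 1) :=
          Does.loop_cons (T' := 0) (ψ := True) (by rw [h0]; simp) h1 (fun h => h.elim)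
        refine (Does.congr h2 (fun h => h.1.elim) ?_).mono (by simp; omega)
        constructor
        · rintro ⟨h, -⟩
          exact h.elim
        · rintro ⟨-, h⟩
          simp [List.replicate_succ] at h
      | true =>
        cases j with
        | zero =>
          have h1 : Does O (Cmd.pop 0 Cmd.skip diverge (Cmd.pop 5 diverge Cmd.skip Cmd.skip)) s s
              False 2 := Spec.pop_true h0 (Spec.pop_nil (by simpa using h5) (does_diverge s))
          have h2 : Does O (Cmd.loop 0 (Cmd.pop 0 Cmd.skip diverge
              (Cmd.pop 5 diverge Cmd.skip Cmd.skip))) s s (False ∧ True) (2 + 0 + 1) :=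
            Does.loop_cons (T' := 0) (ψ := True) (by rw [h0]; simp) h1 (fun h => h.elim)
          refine (Does.congr h2 (fun h => h.1.elim) ?_).mono (by simp; omega)
          constructor
          · rintro ⟨h, -⟩
            exact h.elim
          · rintro ⟨h, -⟩
            simp at h
        | succ j =>
          have h5' : update s 0 w 5 = true :: List.replicate j true := by
            simpa [List.replicate_succ] using h5
          have h1 : Does O (Cmd.pop 0 Cmd.skip diverge (Cmd.pop 5 diverge Cmd.skip Cmd.skip)) s
              (update (update s 0 w) 5 (List.replicate j true)) True 3 :=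
            Spec.pop_true h0 (Spec.pop_true h5' does_skip)
          have h2 := Does.loop_cons (by rw [h0]; simp) h1 (fun _ =>
            ih (update (update s 0 w) 5 (List.replicate j true)) j (by simp) (by simp))
          refine (Does.congr h2 (fun _ => ?_) ?_).mono (by simp; omega)
          · ext q : 1
            by_cases hq5 : q = 5
            · subst hq5
              simp
            · by_cases hq0 : q = 0
              · subst hq0
                simp
              · simp [hq5, hq0]
          · simp [List.replicate_succ]
  have h := Does.seq (key (s 0) s j rfl h5) (fun _ => assertE_does 5)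
  refine (Does.congr h (fun hh => ?_) ?_).mono (by omega)
  · have h1 := hh.2
    simp only [update_self] at h1
    rw [h1]
  · simp only [update_self, List.replicate_eq_nil_iff]
    constructor
    · rintro ⟨⟨h1, h2⟩, h3⟩
      rw [h2]
      congr 1
      omega
    · intro h1
      rw [h1]
      simp

end Pool.Agent.Helper5.SX
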