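import Pool.Agent.Helper5.SY.Call
import Pool.Agent.Helper5.SY.Enum
import Pool.Agent.Helper5.SY.Guess
import Pool.Agent.Helper5.SY.Sq
import Pool.Agent.Helper5.SY.Dec
import Pool.Agent.Helper5.SY.Horner
import Pool.Agent.Helper5.SY.Neq
import Pool.Agent.Helper5.SY.Num3

/-!
# The program for the complement
-/

namespace Pool.Agent.Helper5.SX

open Function

section complete

/-- The functions bounded by `2 ^ ((n + m) ^ L + L)`. -/
def B2 (f : ℕ → ℕ → ℕ) : Prop := ∃ L : ℕ, ∀ n m : ℕ, f n m ≤ 2 ^ ((n + m) ^ L + L)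

theorem B2.mono {f g : ℕ → ℕ → ℕ} (hg : B2 g) (h : ∀ n m, f n m ≤ g n m) : B2 f := by
  obtain ⟨L, hL⟩ := hg
  exact ⟨L, fun n m => (h n m).trans (hL n m)⟩

theorem B2.add {f g : ℕ → ℕ → ℕ} (hf : B2 f) (hg : B2 g) : B2 (fun n m => f n m + g n m) := by
  obtain ⟨K, hK⟩ := hf
  obtain ⟨K', hK'⟩ := hg
  obtain ⟨L, hL⟩ := tb_add K K'
  exact ⟨L, fun n m => (add_le_add (hK n m) (hK' n m)).trans (hL (n + m))⟩

theorem B2.mul {f g : ℕ → ℕ → ℕ} (hf : B2 f) (hg : B2 g) : B2 (fun n m => f n m * g n m) := by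
  obtain ⟨K, hK⟩ := hf
  obtain ⟨K', hK'⟩ := hg
  obtain ⟨L, hL⟩ := tb_mul K K'
  exact ⟨L, fun n m => (Nat.mul_le_mul (hK n m) (hK' n m)).trans (hL (n + m))⟩

theorem B2.poly (C J : ℕ) : B2 (fun n m => C * (n + m + 1) ^ J) := by
  obtain ⟨L, hL⟩ := tb_of_poly C J
  exact ⟨L, fun n m => hL (n + m)⟩

theorem B2.exp (K C J : ℕ) : B2 (fun n m => 2 ^ ((n + m + C * (n + m + 2) ^ J) ^ K + K)) := by
  obtain ⟨L, hL⟩ := tb_poly K C J
  exact ⟨L, fun n m => hL (n + m) _ le_rfl⟩

/-- The sum of the running times of the steps of `Q2`. -/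
def q2t (K1 K2 K3 n m : ℕ) : ℕ :=
  (8 * n + 2) + ((4 * m + 10) + (40 * (n + m + 1) ^ 2 + (40 * (m + 1) ^ 2 +
    (2 ^ (((n + m) ^ 2 + n) ^ K1 + K1) + ((3 * ((n + m) ^ 2 + n) + 1) + ((8 * n + 2) +
      ((((2 ^ (n ^ K2 + K2) + 2 ^ ((n + m) ^ K3 + K3) + 1) + 20 * (n + 1)) * 2 ^ n + 10) +
        (2 ^ ((n + m) ^ K3 + K3) + 1))))))))

theorem q2t_le (K1 K2 K3 : ℕ) : B2 (q2t K1 K2 K3) := by
  have p : ∀ C J : ℕ, B2 (fun n m => C * (n + m + 1) ^ J) := B2.poly
  have e : ∀ K C J : ℕ, B2 (fun n m => 2 ^ ((n + m + C * (n + m + 2) ^ J) ^ K + K)) := B2.exp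
  have h1 : B2 (fun n _ => 8 * n + 2) := (p 8 1).mono fun n m => by rw [pow_one]; omega
  have h2 : B2 (fun _ m => 4 * m + 10) := (p 10 1).mono fun n m => by rw [pow_one]; omega
  have h3 : B2 (fun n m => 40 * (n + m + 1) ^ 2) := p 40 2
  have h4 : B2 (fun _ m => 40 * (m + 1) ^ 2) := (p 40 2).mono fun n m =>
    Nat.mul_le_mul_left _ (Nat.pow_le_pow_left (by omega) _)
  have h5 : B2 (fun n m => 2 ^ (((n + m) ^ 2 + n) ^ K1 + K1)) := (e K1 1 2).mono fun n m => by
    refine Nat.pow_le_pow_right (by norm_num) (Nat.add_le_add_right (Nat.pow_le_pow_left ?_ _) _)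
    have : (n + m) ^ 2 ≤ (n + m + 2) ^ 2 := Nat.pow_le_pow_left (by omega) _
    omega
  have h6 : B2 (fun n m => 3 * ((n + m) ^ 2 + n) + 1) := (p 3 2).mono fun n m => by
    have : (n + m + 1) ^ 2 = (n + m) ^ 2 + 2 * (n + m) + 1 := by ring
    omega
  have h7 : B2 (fun n _ => 2 ^ (n ^ K2 + K2)) := (e K2 0 0).mono fun n m => by
    refine Nat.pow_le_pow_right (by norm_num) (Nat.add_le_add_right (Nat.pow_le_pow_left ?_ _) _)
    omega
  have h8 : B2 (fun n m => 2 ^ ((n + m) ^ K3 + K3)) := (e K3 0 0).mono fun n m => by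
    refine Nat.pow_le_pow_right (by norm_num) (Nat.add_le_add_right (Nat.pow_le_pow_left ?_ _) _)
    omega
  have h9 : B2 (fun _ _ => 1) := (p 1 0).mono fun n m => by simp
  have h10 : B2 (fun n _ => 20 * (n + 1)) := (p 20 1).mono fun n m => by rw [pow_one]; omega
  have h11 : B2 (fun n _ => 2 ^ n) := (e 1 0 0).mono fun n m =>
    Nat.pow_le_pow_right (by norm_num) (by rw [pow_one]; omega)
  have h12 : B2 (fun _ _ => 10) := (p 10 0).mono fun n m => by simp
  exact h1.add (h2.add (h3.add (h4.add (h5.add (h6.add (h1.add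
    ((((((h7.add h8).add h9).add h10).mul h11).add h12).add (h8.add h9))))))))

theorem q2_low_start (x a : Str) : Low (start x a) := by
  intro r hr
  have h0 : r ≠ 0 := by omega
  have h1 : r ≠ 1 := by omega
  simp [start, h0, h1]

theorem q2_low_update {s : Store} (hs : Low s) {r : ℕ} (hr : r < 30) (w : Str) :
    Low (update s r w) := by
  intro q hq
  have h0 : q ≠ r := by omega
  rw [update_of_ne h0]
  exact hs q hq

theorem q2_run {O : Set Str} {c : Cmd} {s s₁ : Store} {φ : Prop} {T : ℕ}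
    (h : Does O c s s₁ φ T) (hφ : φ) : ∃ t ≤ T, Run O c s t s₁ := h.2 s₁ ⟨rfl, hφ⟩

theorem Q2_complete (cA : Cmd) (kA : ℕ) (cB : Cmd) (kB : ℕ) (cS : Cmd) (kS : ℕ) :
    ∃ K : ℕ, ∀ (O : Set Str) (x : Str) (m : ℕ),
      Acc O cS (List.replicate ((x.length + m) ^ 2 + x.length) true) []
        (2 ^ (((x.length + m) ^ 2 + x.length) ^ kS + kS)) →
      (∀ y : Str, y.length = x.length → Acc O cA y [] (2 ^ (x.length ^ kA + kA)) ∨
        Acc O cB y (wstr m) (2 ^ (x.length ^ kB + kB))) →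
      Acc O cB x (wstr m) (2 ^ (x.length ^ kB + kB)) →
      Acc O (Q2 cA kA cB kB cS kS) x [] (2 ^ ((x.length + m) ^ K + K)) := by
  obtain ⟨K1, hK1⟩ := call_does cS kS
  obtain ⟨K2, hK2⟩ := call_does cA kA
  obtain ⟨K3, hK3⟩ := call_does cB kB
  obtain ⟨L, hL⟩ := q2t_le K1 K2 K3
  refine ⟨L, fun O x m hS hall hx => ?_⟩
  obtain ⟨n, hn⟩ : ∃ n, x.length = n := ⟨_, rfl⟩
  rw [hn] at hS hall hx ⊢
  have hw : (wstr m).length ≤ m := wstr_length_le m
  -- step 1
  obtain ⟨s0, hs0⟩ : ∃ s, start x [] = s := ⟨_, rfl⟩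
  have l0 : Low s0 := hs0 ▸ q2_low_start x []
  have v0 : ∀ r, r ≠ 0 → s0 r = [] := fun r hr => by
    rw [← hs0]
    by_cases h1 : r = 1 <;> simp [start, hr, h1]
  have v00 : s0 0 = x := by simp [← hs0, start]
  obtain ⟨t1, ht1, r1⟩ := q2_run (cpg_does (O := O) (s := s0) tt (r := 0) (u := 3)
    (v0 31 (by norm_num)) (by norm_num) (by norm_num) (by norm_num)) trivial
  have e1 : (s0 0).map tt ++ s0 3 = List.replicate n true := by
    rw [v00, v0 3 (by norm_num), List.append_nil, ← hn]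
    exact List.map_const' ..
  rw [e1] at r1
  rw [v00, hn] at ht1
  obtain ⟨s1, hs1⟩ : ∃ s, update s0 3 (List.replicate n true) = s := ⟨_, rfl⟩
  rw [hs1] at r1
  have l1 : Low s1 := hs1 ▸ q2_low_update l0 (by norm_num) _
  have v1 : ∀ r, r ≠ 0 → r ≠ 3 → s1 r = [] := fun r h0 h3 => by
    rw [← hs1, update_of_ne h3, v0 r h0]
  have v10 : s1 0 = x := by rw [← hs1, update_of_ne (by norm_num), v00]
  have v13 : s1 3 = List.replicate n true := by rw [← hs1, update_self]
  -- step 2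
  obtain ⟨t2, ht2, r2⟩ := gU_complete (O := O) (s := s1) (r := 4) (by norm_num)
    (v1 4 (by norm_num) (by norm_num)) (v1 5 (by norm_num) (by norm_num)) m
  obtain ⟨s2, hs2⟩ : ∃ s, update s1 4 (List.replicate m true) = s := ⟨_, rfl⟩
  rw [hs2] at r2
  have l2 : Low s2 := hs2 ▸ q2_low_update l1 (by norm_num) _
  have v2 : ∀ r, r ≠ 0 → r ≠ 3 → r ≠ 4 → s2 r = [] := fun r h0 h3 h4 => by
    rw [← hs2, update_of_ne h4, v1 r h0 h3]
  have v20 : s2 0 = x := by rw [← hs2, update_of_ne (by norm_num), v10]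
  have v23 : s2 3 = List.replicate n true := by rw [← hs2, update_of_ne (by norm_num), v13]
  have v24 : s2 4 = List.replicate m true := by rw [← hs2, update_self]
  -- step 3
  obtain ⟨t3, ht3, r3⟩ := q2_run (sqp_does (O := O) v23 v24
    (v2 5 (by norm_num) (by norm_num) (by norm_num)) (v2 6 (by norm_num) (by norm_num)
    (by norm_num)) (v2 8 (by norm_num) (by norm_num) (by norm_num))
    (v2 31 (by norm_num) (by norm_num) (by norm_num))) trivial
  obtain ⟨j, hj⟩ : ∃ j, (n + m) ^ 2 + n = j := ⟨_, rfl⟩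
  rw [hj] at r3 hS
  obtain ⟨s3, hs3⟩ : ∃ s, update s2 5 (List.replicate j true) = s := ⟨_, rfl⟩
  rw [hs3] at r3
  have l3 : Low s3 := hs3 ▸ q2_low_update l2 (by norm_num) _
  have v3 : ∀ r, r ≠ 0 → r ≠ 3 → r ≠ 4 → r ≠ 5 → s3 r = [] := fun r h0 h3 h4 h5 => by
    rw [← hs3, update_of_ne h5, v2 r h0 h3 h4]
  have v30 : s3 0 = x := by rw [← hs3, update_of_ne (by norm_num), v20]
  have v33 : s3 3 = List.replicate n true := by rw [← hs3, update_of_ne (by norm_num), v23]
  have v34 : s3 4 = List.replicate m true := by rw [← hs3, update_of_ne (by norm_num), v24]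
  have v35 : s3 5 = List.replicate j true := by rw [← hs3, update_self]
  -- step 4
  obtain ⟨t4, ht4, r4⟩ := q2_run (decp_does (O := O) v34
    (v3 6 (by norm_num) (by norm_num) (by norm_num) (by norm_num))
    (v3 7 (by norm_num) (by norm_num) (by norm_num) (by norm_num))
    (v3 12 (by norm_num) (by norm_num) (by norm_num) (by norm_num))
    (v3 13 (by norm_num) (by norm_num) (by norm_num) (by norm_num))
    (v3 31 (by norm_num) (by norm_num) (by norm_num) (by norm_num))) trivial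
  obtain ⟨s4, hs4⟩ : ∃ s, update s3 7 (wstr m) = s := ⟨_, rfl⟩
  rw [hs4] at r4
  have l4 : Low s4 := hs4 ▸ q2_low_update l3 (by norm_num) _
  have v4 : ∀ r, r ≠ 0 → r ≠ 3 → r ≠ 4 → r ≠ 5 → r ≠ 7 → s4 r = [] :=
    fun r h0 h3 h4 h5 h7 => by rw [← hs4, update_of_ne h7, v3 r h0 h3 h4 h5]
  have v40 : s4 0 = x := by rw [← hs4, update_of_ne (by norm_num), v30]
  have v43 : s4 3 = List.replicate n true := by rw [← hs4, update_of_ne (by norm_num), v33]
  have v45 : s4 5 = List.replicate j true := by rw [← hs4, update_of_ne (by norm_num), v35]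
  have v47 : s4 7 = wstr m := by rw [← hs4, update_self]
  -- step 5
  have c5 := hK1 O s4 5 30 (by norm_num) le_rfl l4
  rw [v45, l4 30 le_rfl, List.length_replicate, List.length_nil, add_zero] at c5
  obtain ⟨t5, ht5, r5⟩ := q2_run c5 hS
  -- step 6
  obtain ⟨t6, ht6, r6⟩ := q2_run (clr_does (O := O) (s := s4) 5) trivial
  rw [v45, List.length_replicate] at ht6
  obtain ⟨s5, hs5⟩ : ∃ s, update s4 5 [] = s := ⟨_, rfl⟩
  rw [hs5] at r6
  have l5 : Low s5 := hs5 ▸ q2_low_update l4 (by norm_num) _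
  have v5 : ∀ r, r ≠ 0 → r ≠ 3 → r ≠ 4 → r ≠ 7 → s5 r = [] := fun r h0 h3 h4 h7 => by
    by_cases h5 : r = 5
    · rw [h5, ← hs5, update_self]
    · rw [← hs5, update_of_ne h5, v4 r h0 h3 h4 h5 h7]
  have v50 : s5 0 = x := by rw [← hs5, update_of_ne (by norm_num), v40]
  have v53 : s5 3 = List.replicate n true := by rw [← hs5, update_of_ne (by norm_num), v43]
  have v57 : s5 7 = wstr m := by rw [← hs5, update_of_ne (by norm_num), v47]
  -- step 7
  obtain ⟨t7, ht7, r7⟩ := q2_run (cpg_does (O := O) (s := s5) ff (r := 3) (u := 10)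
    (v5 31 (by norm_num) (by norm_num) (by norm_num) (by norm_num)) (by norm_num) (by norm_num)
    (by norm_num)) trivial
  have e7 : (s5 3).map ff ++ s5 10 = List.replicate n false := by
    rw [v53, v5 10 (by norm_num) (by norm_num) (by norm_num) (by norm_num), List.append_nil]
    simp [ff]
  rw [e7] at r7
  rw [v53, List.length_replicate] at ht7
  obtain ⟨s6, hs6⟩ : ∃ s, update s5 10 (List.replicate n false) = s := ⟨_, rfl⟩
  rw [hs6] at r7
  have l6 : Low s6 := hs6 ▸ q2_low_update l5 (by norm_num) _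
  have v6 : ∀ r, r ≠ 0 → r ≠ 3 → r ≠ 4 → r ≠ 7 → r ≠ 10 → s6 r = [] :=
    fun r h0 h3 h4 h7 h10 => by rw [← hs6, update_of_ne h10, v5 r h0 h3 h4 h7]
  have v60 : s6 0 = x := by rw [← hs6, update_of_ne (by norm_num), v50]
  have v67 : s6 7 = wstr m := by rw [← hs6, update_of_ne (by norm_num), v57]
  have v610 : s6 10 = List.replicate n false := by rw [← hs6, update_self]
  -- step 8
  have c8 := enum_spec (V := Unit) (O := O) (σ := fun _ => s6) (n := n)
    (body := Cmd.choose (call cA kA 10 30) (call cB kB 10 7))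
    (T := 2 ^ (n ^ K2 + K2) + 2 ^ ((n + m) ^ K3 + K3) + 1)
    (β := fun y _ _ => Acc O cA y [] (2 ^ (n ^ kA + kA)) ∨
      Acc O cB y (wstr m) (2 ^ (n ^ kB + kB)))
    (fun _ => v610) (fun _ => v6 11 (by norm_num) (by norm_num) (by norm_num) (by norm_num)
      (by norm_num)) (fun _ => v6 12 (by norm_num) (by norm_num) (by norm_num) (by norm_num)
      (by norm_num)) (fun _ => v6 13 (by norm_num) (by norm_num) (by norm_num) (by norm_num)
      (by norm_num)) (fun y _ hy => by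
        obtain ⟨S, hS'⟩ : ∃ S, update (update s6 10 y) 11 [true] = S := ⟨_, rfl⟩
        have lS : Low S := hS' ▸ q2_low_update (q2_low_update l6 (by norm_num) _)
          (by norm_num) _
        have w10 : S 10 = y := by rw [← hS', update_of_ne (by norm_num), update_self]
        have w7 : S 7 = wstr m := by
          rw [← hS', update_of_ne (by norm_num), update_of_ne (by norm_num), v67]
        have d1 := hK2 O S 10 30 (by norm_num) le_rfl lS
        have d2 := hK3 O S 10 7 (by norm_num) (by norm_num) lS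
        rw [w10, lS 30 le_rfl, List.length_nil, add_zero, hy] at d1
        rw [w10, w7, hy] at d2
        simp only [hS']
        refine Spec.mono (Spec.congr (Spec.choose d1 d2) ?_) ?_
        · intro s'
          constructor
          · rintro (⟨rfl, h⟩ | ⟨rfl, h⟩)
            · exact ⟨(), Or.inl h, rfl⟩
            · exact ⟨(), Or.inr h, rfl⟩
          · rintro ⟨_, h | h, rfl⟩
            · exact Or.inl ⟨rfl, h⟩
            · exact Or.inr ⟨rfl, h⟩
        · have hle : 2 ^ ((n + (wstr m).length) ^ K3 + K3) ≤ 2 ^ ((n + m) ^ K3 + K3) :=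
            Nat.pow_le_pow_right (by norm_num)
              (Nat.add_le_add_right (Nat.pow_le_pow_left (by omega) _) _)
          generalize 2 ^ ((n + (wstr m).length) ^ K3 + K3) = z1 at hle
          generalize 2 ^ ((n + m) ^ K3 + K3) = z2 at hle
          generalize 2 ^ (n ^ K2 + K2) = z3
          omega) ()
  obtain ⟨t8, ht8, r8⟩ := c8.2 s6 ⟨(), ch_all.2 fun y hy => hall y (mem_allStr.1 hy), rfl⟩
  -- step 9
  have c9 := hK3 O s6 0 7 (by norm_num) (by norm_num) l6
  rw [v60, v67, hn] at c9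
  obtain ⟨t9, ht9, r9⟩ := q2_run c9 hx
  have hle9 : 2 ^ ((n + (wstr m).length) ^ K3 + K3) ≤ 2 ^ ((n + m) ^ K3 + K3) :=
    Nat.pow_le_pow_right (by norm_num)
      (Nat.add_le_add_right (Nat.pow_le_pow_left (by omega) _) _)
  have r10 := Run.push (O := O) 2 true s6
  have hrun := Run.seq r1 (Run.seq r2 (Run.seq r3 (Run.seq r4 (Run.seq r5 (Run.seq r6
    (Run.seq r7 (Run.seq r8 (Run.seq r9 r10))))))))
  rw [← hs0] at hrun
  refine ⟨_, ?_, _, hrun, ?_⟩
  · refine le_trans ?_ (hL n m)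
    unfold q2t
    rw [hj]
    have ht9' := ht9.trans hle9
    exact Nat.add_le_add ht1 (Nat.add_le_add ht2 (Nat.add_le_add ht3 (Nat.add_le_add ht4
      (Nat.add_le_add ht5 (Nat.add_le_add ht6 (Nat.add_le_add ht7 (Nat.add_le_add ht8
        (Nat.add_le_add ht9' le_rfl))))))))
  · rw [update_self]
    simp

end complete

section sound

theorem q2_inv {O : Set Str} {c d : Cmd} {s s'' : Store} {t : ℕ}
    (h : Run O (Cmd.seq c d) s t s'') :
    ∃ (t₁ t₂ : ℕ) (s' : Store), Run O c s t₁ s' ∧ Run O d s' t₂ s'' := by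
  cases h with
  | seq h1 h2 => exact ⟨_, _, _, h1, h2⟩

/-- Decompose the run: `cpg_does`, `gU_sound`, `sqp_does`, `decp_does`, `call_does`, `clr_does`,
`cpg_does`, `enum_spec` with `V = Unit` (and `ch_all`, `mem_allStr`), `call_does`. -/
theorem Q2_sound {O : Set Str} {cA : Cmd} {kA : ℕ} {cB : Cmd} {kB : ℕ} {cS : Cmd} {kS : ℕ}
    {x : Str} {T : ℕ} (h : Acc O (Q2 cA kA cB kB cS kS) x [] T) :
    ∃ m : ℕ, Acc O cS (List.replicate ((x.length + m) ^ 2 + x.length) true) []
        (2 ^ (((x.length + m) ^ 2 + x.length) ^ kS + kS)) ∧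
      (∀ y : Str, y.length = x.length → Acc O cA y [] (2 ^ (x.length ^ kA + kA)) ∨
        Acc O cB y (wstr m) (2 ^ (x.length ^ kB + kB))) ∧
      Acc O cB x (wstr m) (2 ^ (x.length ^ kB + kB)) := by
  obtain ⟨K1, hK1⟩ := call_does cS kS
  obtain ⟨K2, hK2⟩ := call_does cA kA
  obtain ⟨K3, hK3⟩ := call_does cB kB
  obtain ⟨t, -, sf, hr, -⟩ := h
  obtain ⟨n, hn⟩ : ∃ n, x.length = n := ⟨_, rfl⟩
  rw [hn]
  -- step 1
  obtain ⟨s0, hs0⟩ : ∃ s, start x [] = s := ⟨_, rfl⟩
  rw [hs0] at hr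
  have l0 : Low s0 := hs0 ▸ q2_low_start x []
  have v0 : ∀ r, r ≠ 0 → s0 r = [] := fun r hr => by
    rw [← hs0]
    by_cases h1 : r = 1 <;> simp [start, hr, h1]
  have v00 : s0 0 = x := by simp [← hs0, start]
  obtain ⟨_, _, s1, r1, hr⟩ := q2_inv hr
  have e1 : (s0 0).map tt ++ s0 3 = List.replicate n true := by
    rw [v00, v0 3 (by norm_num), List.append_nil, ← hn]
    exact List.map_const' ..
  have hs1 : update s0 3 (List.replicate n true) = s1 := by
    rw [← e1]
    exact (((cpg_does (O := O) (s := s0) tt (r := 0) (u := 3)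
      (v0 31 (by norm_num)) (by norm_num) (by norm_num) (by norm_num)).1 _ _ r1).1).symm
  have l1 : Low s1 := hs1 ▸ q2_low_update l0 (by norm_num) _
  have v1 : ∀ r, r ≠ 0 → r ≠ 3 → s1 r = [] := fun r h0 h3 => by
    rw [← hs1, update_of_ne h3, v0 r h0]
  have v10 : s1 0 = x := by rw [← hs1, update_of_ne (by norm_num), v00]
  have v13 : s1 3 = List.replicate n true := by rw [← hs1, update_self]
  -- step 2
  obtain ⟨_, _, s2, r2, hr⟩ := q2_inv hr
  obtain ⟨m, hm⟩ := gU_sound (by norm_num) (v1 4 (by norm_num) (by norm_num))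
    (v1 5 (by norm_num) (by norm_num)) r2
  have hs2 : update s1 4 (List.replicate m true) = s2 := hm.symm
  refine ⟨m, ?_⟩
  have l2 : Low s2 := hs2 ▸ q2_low_update l1 (by norm_num) _
  have v2 : ∀ r, r ≠ 0 → r ≠ 3 → r ≠ 4 → s2 r = [] := fun r h0 h3 h4 => by
    rw [← hs2, update_of_ne h4, v1 r h0 h3]
  have v20 : s2 0 = x := by rw [← hs2, update_of_ne (by norm_num), v10]
  have v23 : s2 3 = List.replicate n true := by rw [← hs2, update_of_ne (by norm_num), v13]
  have v24 : s2 4 = List.replicate m true := by rw [← hs2, update_self]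
  -- step 3
  obtain ⟨_, _, s3, r3, hr⟩ := q2_inv hr
  obtain ⟨j, hj⟩ : ∃ j, (n + m) ^ 2 + n = j := ⟨_, rfl⟩
  rw [hj]
  have hs3 : update s2 5 (List.replicate j true) = s3 := by
    rw [← hj]
    exact (((sqp_does (O := O) v23 v24
      (v2 5 (by norm_num) (by norm_num) (by norm_num)) (v2 6 (by norm_num) (by norm_num)
      (by norm_num)) (v2 8 (by norm_num) (by norm_num) (by norm_num))
      (v2 31 (by norm_num) (by norm_num) (by norm_num))).1 _ _ r3).1).symm
  have l3 : Low s3 := hs3 ▸ q2_low_update l2 (by norm_num) _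
  have v3 : ∀ r, r ≠ 0 → r ≠ 3 → r ≠ 4 → r ≠ 5 → s3 r = [] := fun r h0 h3 h4 h5 => by
    rw [← hs3, update_of_ne h5, v2 r h0 h3 h4]
  have v30 : s3 0 = x := by rw [← hs3, update_of_ne (by norm_num), v20]
  have v33 : s3 3 = List.replicate n true := by rw [← hs3, update_of_ne (by norm_num), v23]
  have v34 : s3 4 = List.replicate m true := by rw [← hs3, update_of_ne (by norm_num), v24]
  have v35 : s3 5 = List.replicate j true := by rw [← hs3, update_self]
  -- step 4
  obtain ⟨_, _, s4, r4, hr⟩ := q2_inv hr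
  have hs4 : update s3 7 (wstr m) = s4 :=
    (((decp_does (O := O) v34
    (v3 6 (by norm_num) (by norm_num) (by norm_num) (by norm_num))
    (v3 7 (by norm_num) (by norm_num) (by norm_num) (by norm_num))
    (v3 12 (by norm_num) (by norm_num) (by norm_num) (by norm_num))
    (v3 13 (by norm_num) (by norm_num) (by norm_num) (by norm_num))
    (v3 31 (by norm_num) (by norm_num) (by norm_num) (by norm_num))).1 _ _ r4).1).symm
  have l4 : Low s4 := hs4 ▸ q2_low_update l3 (by norm_num) _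
  have v4 : ∀ r, r ≠ 0 → r ≠ 3 → r ≠ 4 → r ≠ 5 → r ≠ 7 → s4 r = [] :=
    fun r h0 h3 h4 h5 h7 => by rw [← hs4, update_of_ne h7, v3 r h0 h3 h4 h5]
  have v40 : s4 0 = x := by rw [← hs4, update_of_ne (by norm_num), v30]
  have v43 : s4 3 = List.replicate n true := by rw [← hs4, update_of_ne (by norm_num), v33]
  have v45 : s4 5 = List.replicate j true := by rw [← hs4, update_of_ne (by norm_num), v35]
  have v47 : s4 7 = wstr m := by rw [← hs4, update_self]
  -- step 5
  obtain ⟨_, _, s4', r5, hr⟩ := q2_inv hr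
  have c5 := hK1 O s4 5 30 (by norm_num) le_rfl l4
  rw [v45, l4 30 le_rfl, List.length_replicate, List.length_nil, add_zero] at c5
  obtain ⟨e5, hS⟩ := c5.1 _ _ r5
  rw [e5] at hr
  -- step 6
  obtain ⟨_, _, s5, r6, hr⟩ := q2_inv hr
  have hs5 : update s4 5 [] = s5 := (((clr_does (O := O) (s := s4) 5).1 _ _ r6).1).symm
  have l5 : Low s5 := hs5 ▸ q2_low_update l4 (by norm_num) _
  have v5 : ∀ r, r ≠ 0 → r ≠ 3 → r ≠ 4 → r ≠ 7 → s5 r = [] := fun r h0 h3 h4 h7 => by
    by_cases h5 : r = 5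
    · rw [h5, ← hs5, update_self]
    · rw [← hs5, update_of_ne h5, v4 r h0 h3 h4 h5 h7]
  have v50 : s5 0 = x := by rw [← hs5, update_of_ne (by norm_num), v40]
  have v53 : s5 3 = List.replicate n true := by rw [← hs5, update_of_ne (by norm_num), v43]
  have v57 : s5 7 = wstr m := by rw [← hs5, update_of_ne (by norm_num), v47]
  -- step 7
  obtain ⟨_, _, s6, r7, hr⟩ := q2_inv hr
  have e7 : (s5 3).map ff ++ s5 10 = List.replicate n false := by
    rw [v53, v5 10 (by norm_num) (by norm_num) (by norm_num) (by norm_num), List.append_nil]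
    simp [ff]
  have hs6 : update s5 10 (List.replicate n false) = s6 := by
    rw [← e7]
    exact (((cpg_does (O := O) (s := s5) ff (r := 3) (u := 10)
      (v5 31 (by norm_num) (by norm_num) (by norm_num) (by norm_num)) (by norm_num)
      (by norm_num) (by norm_num)).1 _ _ r7).1).symm
  have l6 : Low s6 := hs6 ▸ q2_low_update l5 (by norm_num) _
  have v6 : ∀ r, r ≠ 0 → r ≠ 3 → r ≠ 4 → r ≠ 7 → r ≠ 10 → s6 r = [] :=
    fun r h0 h3 h4 h7 h10 => by rw [← hs6, update_of_ne h10, v5 r h0 h3 h4 h7]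
  have v60 : s6 0 = x := by rw [← hs6, update_of_ne (by norm_num), v50]
  have v67 : s6 7 = wstr m := by rw [← hs6, update_of_ne (by norm_num), v57]
  have v610 : s6 10 = List.replicate n false := by rw [← hs6, update_self]
  -- step 8
  obtain ⟨_, _, s7, r8, hr⟩ := q2_inv hr
  have c8 := enum_spec (V := Unit) (O := O) (σ := fun _ => s6) (n := n)
    (body := Cmd.choose (call cA kA 10 30) (call cB kB 10 7))
    (T := 2 ^ (n ^ K2 + K2) + 2 ^ ((n + m) ^ K3 + K3) + 1)
    (β := fun y _ _ => Acc O cA y [] (2 ^ (n ^ kA + kA)) ∨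
      Acc O cB y (wstr m) (2 ^ (n ^ kB + kB)))
    (fun _ => v610) (fun _ => v6 11 (by norm_num) (by norm_num) (by norm_num) (by norm_num)
      (by norm_num)) (fun _ => v6 12 (by norm_num) (by norm_num) (by norm_num) (by norm_num)
      (by norm_num)) (fun _ => v6 13 (by norm_num) (by norm_num) (by norm_num) (by norm_num)
      (by norm_num)) (fun y _ hy => by
        obtain ⟨S, hS'⟩ : ∃ S, update (update s6 10 y) 11 [true] = S := ⟨_, rfl⟩
        have lS : Low S := hS' ▸ q2_low_update (q2_low_update l6 (by norm_num) _)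
          (by norm_num) _
        have w10 : S 10 = y := by rw [← hS', update_of_ne (by norm_num), update_self]
        have w7 : S 7 = wstr m := by
          rw [← hS', update_of_ne (by norm_num), update_of_ne (by norm_num), v67]
        have d1 := hK2 O S 10 30 (by norm_num) le_rfl lS
        have d2 := hK3 O S 10 7 (by norm_num) (by norm_num) lS
        rw [w10, lS 30 le_rfl, List.length_nil, add_zero, hy] at d1
        rw [w10, w7, hy] at d2
        simp only [hS']
        refine Spec.mono (Spec.congr (Spec.choose d1 d2) ?_) ?_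
        · intro s'
          constructor
          · rintro (⟨rfl, h⟩ | ⟨rfl, h⟩)
            · exact ⟨(), Or.inl h, rfl⟩
            · exact ⟨(), Or.inr h, rfl⟩
          · rintro ⟨_, h | h, rfl⟩
            · exact Or.inl ⟨rfl, h⟩
            · exact Or.inr ⟨rfl, h⟩
        · have hw : (wstr m).length ≤ m := wstr_length_le m
          have hle : 2 ^ ((n + (wstr m).length) ^ K3 + K3) ≤ 2 ^ ((n + m) ^ K3 + K3) :=
            Nat.pow_le_pow_right (by norm_num)
              (Nat.add_le_add_right (Nat.pow_le_pow_left (by omega) _) _)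
          generalize 2 ^ ((n + (wstr m).length) ^ K3 + K3) = z1 at hle
          generalize 2 ^ ((n + m) ^ K3 + K3) = z2 at hle
          generalize 2 ^ (n ^ K2 + K2) = z3
          omega) ()
  obtain ⟨⟨⟩, hch, e8⟩ := c8.1 _ _ r8
  have hall := ch_all.1 hch
  replace e8 : s7 = s6 := e8
  rw [e8] at hr
  -- step 9
  obtain ⟨_, _, s8, r9, -⟩ := q2_inv hr
  have c9 := hK3 O s6 0 7 (by norm_num) (by norm_num) l6
  rw [v60, v67, hn] at c9
  exact ⟨hS, fun y hy => hall y (mem_allStr.2 hy), (c9.1 _ _ r9).2⟩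

end sound

end Pool.Agent.Helper5.SX
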