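import Pool.Agent.Helper5.SY.Call
import Pool.Agent.Helper5.SY.Enum
import Pool.Agent.Helper5.SY.Guess
import Pool.Agent.Helper5.SY.Sq
import Pool.Agent.Helper5.SY.Dec
import Pool.Agent.Helper5.SY.Horner
import Pool.Agent.Helper5.SY.Neq
import Pool.Agent.Helper5.SY.Num3

/-!
# The program with the census as advice
-/

namespace Pool.Agent.Helper5.SX

open Function

/-- The stores at the start of the loop of `Q3`: `v` is the number on stack 4. -/
def sgm (x : Str) (v : ℕ) : Store := fun r =>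
  if r = 0 then x else if r = 3 then List.replicate x.length true
  else if r = 4 then List.replicate v true
  else if r = 10 then List.replicate x.length false else []

open Classical in
theorem ncard_filter_allStr (n : ℕ) (ψ : Str → Prop) :
    {y : Str | y.length = n ∧ ψ y}.ncard =
      ((allStr n).filter (fun y => decide (ψ y))).length := by
  have h1 : {y : Str | y.length = n ∧ ψ y} =
      (((allStr n).filter (fun y => decide (ψ y))).toFinset : Set Str) := by
    ext y
    simp [mem_allStr]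
  rw [h1, Set.ncard_coe_finset, List.toFinset_card_of_nodup ((nodup_allStr n).filter _)]

theorem pop4_spec {O : Set Str} {s : Store} {v : ℕ} (h4 : s 4 = List.replicate v true) :
    Spec O (Cmd.pop 4 diverge Cmd.skip Cmd.skip) s
      (fun s' => ∃ v', v = v' + 1 ∧ s' = update s 4 (List.replicate v' true)) 2 := by
  cases v with
  | zero =>
    refine ((Spec.pop_nil (by simpa using h4) (does_diverge s)).mono (by omega)).congr ?_
    intro s'
    simp
  | succ v =>
    refine (Spec.pop_true (w := List.replicate v true) (by simpa [List.replicate_succ] using h4)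
      does_skip).congr ?_
    intro s'
    constructor
    · rintro ⟨rfl, -⟩
      exact ⟨v, rfl, rfl⟩
    · rintro ⟨v', h1, rfl⟩
      have h2 : v' = v := by omega
      subst h2
      exact ⟨rfl, trivial⟩

theorem q3_body (cA : Cmd) (kA : ℕ) : ∃ K : ℕ, ∀ (O : Set Str) (x y : Str) (v : ℕ),
    y.length = x.length →
    Spec O (Cmd.choose Cmd.skip (Cmd.seq neqp (Cmd.seq (call cA kA 10 30)
        (Cmd.pop 4 diverge Cmd.skip Cmd.skip)))) (update (update (sgm x v) 10 y) 11 [true])
      (fun s' => ∃ v', (v' = v ∨ ((y ≠ x ∧ Acc O cA y [] (2 ^ (x.length ^ kA + kA))) ∧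
        v = v' + 1)) ∧ s' = update (update (sgm x v') 10 y) 11 [true])
      (2 ^ (x.length ^ K + K) + 50 * (x.length + 1) + 10) := by
  obtain ⟨K, hK⟩ := call_does cA kA
  refine ⟨K, fun O x y v hy => ?_⟩
  set s : Store := update (update (sgm x v) 10 y) 11 [true] with hs
  have e0 : s 0 = x := by simp [hs, sgm]
  have e4 : s 4 = List.replicate v true := by simp [hs, sgm]
  have e10 : s 10 = y := by simp [hs]
  have e14 : s 14 = [] := by simp [hs, sgm]
  have e15 : s 15 = [] := by simp [hs, sgm]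
  have e16 : s 16 = [] := by simp [hs, sgm]
  have e30 : s 30 = [] := by simp [hs, sgm]
  have e31 : s 31 = [] := by simp [hs, sgm]
  have hlow : Low s := by
    intro r hr
    have h1 : r ≠ 11 := by omega
    have h2 : r ≠ 10 := by omega
    have h3 : r ≠ 0 := by omega
    have h5 : r ≠ 3 := by omega
    have h6 : r ≠ 4 := by omega
    simp [hs, sgm, h1, h2, h3, h5, h6]
  have b1 := neqp_does (O := O) (s := s) (by rw [e10, e0, hy]) e14 e15 e16 e31
  have b2 := hK O s 10 30 (by norm_num) le_rfl hlow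
  have b3 := pop4_spec (O := O) e4
  have b4 := Spec.choose (does_skip (O := O) (s := s))
    (b1.seq_spec (fun _ => b2.seq_spec (fun _ => b3)))
  refine (b4.congr ?_).mono ?_
  · intro s'
    rw [e10, e0, e30, hy]
    constructor
    · rintro (⟨rfl, -⟩ | ⟨h1, h2, v', h3, rfl⟩)
      · exact ⟨v, Or.inl rfl, rfl⟩
      · refine ⟨v', Or.inr ⟨⟨h1, h2⟩, h3⟩, ?_⟩
        funext r
        simp only [hs, sgm, update_apply]
        split_ifs <;> simp_all
    · rintro ⟨v', (rfl | ⟨⟨h1, h2⟩, h3⟩), rfl⟩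
      · exact Or.inl ⟨rfl, trivial⟩
      · refine Or.inr ⟨h1, h2, v', h3, ?_⟩
        funext r
        simp only [hs, sgm, update_apply]
        split_ifs <;> simp_all
  · rw [e10, e30, hy]
    simp only [List.length_nil, Nat.add_zero]
    generalize 2 ^ (x.length ^ K + K) = P
    omega

theorem q3_num (K0 : ℕ) : ∃ K : ℕ, ∀ n m : ℕ, 1 ≤ m →
    8 * n + 2 + (8 * n + 2 + (40 * (4 * m ^ 2) +
      (((2 ^ (n ^ K0 + K0) + 50 * (n + 1) + 10) + 20 * (n + 1)) * 2 ^ n + 10 + (2 + 1)))) ≤
      2 ^ ((n + m) ^ K + K) := by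
  refine ⟨K0 + 10, fun n m hm => ?_⟩
  set N := n + m with hN
  have hN1 : 1 ≤ N := by omega
  set E := 2 ^ (N ^ (K0 + 1) + K0) with hE
  have h0 : n ^ K0 + K0 ≤ N ^ (K0 + 1) + K0 := by
    have h1 : n ^ K0 ≤ N ^ K0 := Nat.pow_le_pow_left (by omega) _
    have h2 : N ^ K0 ≤ N ^ (K0 + 1) := Nat.pow_le_pow_right hN1 (by omega)
    omega
  have h1 : 2 ^ (n ^ K0 + K0) ≤ E := Nat.pow_le_pow_right (by norm_num) h0
  have h2 : 2 ^ N ≤ E := by
    refine Nat.pow_le_pow_right (by norm_num) ?_
    have h3 : N ≤ N ^ (K0 + 1) := Nat.le_self_pow (by omega) N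
    omega
  have h3 : N + 1 ≤ 2 ^ N := Nat.lt_two_pow_self
  have h4 : 2 ^ n ≤ 2 ^ N := Nat.pow_le_pow_right (by norm_num) (by omega)
  have hF : 2 ^ n ≥ 1 := Nat.one_le_two_pow
  set F := 2 ^ N with hFd
  have hEF : 512 * (E * F) ≤ 2 ^ (N ^ (K0 + 10) + (K0 + 10)) := by
    have h5 : 512 * (E * F) = 2 ^ (9 + (N ^ (K0 + 1) + K0) + N) := by
      rw [hE, hFd, pow_add 2 (9 + (N ^ (K0 + 1) + K0)) N, pow_add 2 9]
      norm_num [mul_assoc]
    rw [h5]
    refine Nat.pow_le_pow_right (by norm_num) ?_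
    have h6 : N ≤ N ^ (K0 + 1) := Nat.le_self_pow (by omega) N
    rcases Nat.lt_or_ge N 2 with h7 | h7
    · have h8 : N = 1 := by omega
      rw [h8]
      simp
      omega
    · have h8 : N ^ (K0 + 10) = N ^ (K0 + 1) * N ^ 9 := by rw [← pow_add]
      have h9 : 2 ≤ N ^ 9 := by
        calc 2 ≤ 2 ^ 9 := by norm_num
          _ ≤ N ^ 9 := Nat.pow_le_pow_left h7 9
      have h10 : N ^ (K0 + 1) * 2 ≤ N ^ (K0 + 1) * N ^ 9 := Nat.mul_le_mul_left _ h9
      omega
  have hn : n ≤ F := by omega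
  have hmF : m ≤ F := by omega
  have g1 : F ≤ E * F := Nat.le_mul_of_pos_left _ (by omega)
  have g2 : m ^ 2 ≤ E * F := by
    calc m ^ 2 = m * m := by ring
      _ ≤ E * F := Nat.mul_le_mul (by omega) hmF
  have g3 : ((2 ^ (n ^ K0 + K0) + 50 * (n + 1) + 10) + 20 * (n + 1)) * 2 ^ n ≤
      (81 * E) * F := by
    refine Nat.mul_le_mul ?_ h4
    omega
  have g4 : (81 * E) * F = 81 * (E * F) := by ring
  have g5 : 1 ≤ E * F := by omega
  generalize ((2 ^ (n ^ K0 + K0) + 50 * (n + 1) + 10) + 20 * (n + 1)) * 2 ^ n = A at *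
  generalize E * F = B at *
  omega

/-- The exact description of the runs of `Q3`. -/
theorem q3_does (cA : Cmd) (kA : ℕ) : ∃ K : ℕ, ∀ (O : Set Str) (x a : Str),
    Does O (Q3 cA kA) (start x a) (update (sgm x 0) 2 [true])
      (uval a ≤ {y : Str | y.length = x.length ∧ y ≠ x ∧
        Acc O cA y [] (2 ^ (x.length ^ kA + kA))}.ncard)
      (2 ^ ((x.length + 2 ^ a.length) ^ K + K)) := by
  classical
  obtain ⟨K0, hK0⟩ := q3_body cA kA
  obtain ⟨K, hK⟩ := q3_num K0
  refine ⟨K, fun O x a => ?_⟩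
  have c1 := cpg_does (O := O) (s := start x a) tt (r := 0) (u := 3) (by simp [start])
    (by norm_num) (by norm_num) (by norm_num)
  set s1 : Store := update (start x a) 3 ((start x a 0).map tt ++ start x a 3) with hs1
  have c2 := cpg_does (O := O) (s := s1) ff (r := 3) (u := 10) (by simp [hs1, start])
    (by norm_num) (by norm_num) (by norm_num)
  set s2 : Store := update s1 10 ((s1 3).map ff ++ s1 10) with hs2
  have c3 := horner_does (O := O) (s := s2) (by simp [hs2, hs1, start])
    (by simp [hs2, hs1, start])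
  have e21 : s2 1 = a := by simp [hs2, hs1, start]
  have e13 : (s1 3).length = x.length := by simp [hs1, start]
  have e3 : update (update s2 1 []) 4 (List.replicate (uval (s2 1)) true) = sgm x (uval a) := by
    have m1 : ∀ w : Str, w.map tt = List.replicate w.length true := by
      intro w
      exact List.map_const' ..
    have m2 : ∀ w : Str, w.map ff = List.replicate w.length false := by
      intro w
      exact List.map_const' ..
    rw [e21, hs2, m2, e13, hs1, m1]
    clear_value s1 s2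
    clear hK0 hK c1 c2 c3 e21 e13 hs2 hs1
    funext r
    simp only [sgm, start, update_apply]
    split_ifs <;> simp_all
  rw [e3, e21] at c3
  have c4 := enum_spec (V := ℕ) (O := O) (σ := sgm x) (n := x.length)
    (T := 2 ^ (x.length ^ K0 + K0) + 50 * (x.length + 1) + 10)
    (β := fun y v v' => v' = v ∨ ((y ≠ x ∧ Acc O cA y [] (2 ^ (x.length ^ kA + kA))) ∧
      v = v' + 1))
    (body := Cmd.choose Cmd.skip (Cmd.seq neqp (Cmd.seq (call cA kA 10 30)
        (Cmd.pop 4 diverge Cmd.skip Cmd.skip))))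
    (fun v => by simp [sgm]) (fun v => by simp [sgm]) (fun v => by simp [sgm])
    (fun v => by simp [sgm]) (fun y v hy => hK0 O x y v hy) (uval a)
  have c5 : ∀ s₁, (∃ v', Ch (fun (y : Str) (v v' : ℕ) => v' = v ∨
      ((y ≠ x ∧ Acc O cA y [] (2 ^ (x.length ^ kA + kA))) ∧ v = v' + 1)) (allStr x.length)
      (uval a) v' ∧ s₁ = sgm x v') →
      Spec O (Cmd.seq (assertE 4) (Cmd.push 2 true)) s₁
        (fun s' => s' = update s₁ 2 (true :: s₁ 2) ∧ s₁ 4 = [] ∧ True) (2 + 1) := by
    intro s₁ _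
    exact Does.seq (assertE_does 4) (fun _ => does_push 2 true)
  have c6 := c1.seq_spec (fun _ => c2.seq_spec (fun _ => c3.seq_spec (fun _ => c4.seq c5)))
  refine (c6.congr ?_).mono ?_
  · intro s'
    have hc : uval a ≤ {y : Str | y.length = x.length ∧ y ≠ x ∧
        Acc O cA y [] (2 ^ (x.length ^ kA + kA))}.ncard ↔
        Ch (fun (y : Str) (v v' : ℕ) => v' = v ∨
          ((y ≠ x ∧ Acc O cA y [] (2 ^ (x.length ^ kA + kA))) ∧ v = v' + 1))
          (allStr x.length) (uval a) 0 := by
      rw [ncard_filter_allStr x.length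
        (fun y => y ≠ x ∧ Acc O cA y [] (2 ^ (x.length ^ kA + kA)))]
      exact ch_count.symm
    rw [hc]
    constructor
    · rintro ⟨-, -, -, s₁, ⟨v', h1, rfl⟩, rfl, h2, -⟩
      have h3 : v' = 0 := by
        have h4 : List.replicate v' true = [] := by simpa [sgm] using h2
        simpa using h4
      subst h3
      exact ⟨by simp [sgm], h1⟩
    · rintro ⟨rfl, h1⟩
      exact ⟨trivial, trivial, trivial, sgm x 0, ⟨0, h1, rfl⟩, by simp [sgm], by simp [sgm],
        trivial⟩
  · have e0 : (start x a 0).length = x.length := by simp [start]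
    rw [e0, e13]
    have h1 : 4 ^ (a.length + 1) = 4 * (2 ^ a.length) ^ 2 := by
      rw [pow_succ, ← pow_mul, mul_comm a.length 2, pow_mul]
      norm_num
      ring
    rw [h1]
    exact hK x.length (2 ^ a.length) Nat.one_le_two_pow

/-- Decompose the run: `cpg_does` twice, `horner_does`, `enum_spec` with `V = ℕ`,
`σ v` = the store with `v` in unary on stack 4, and
`β y j j' := j' = j ∨ ((y ≠ x ∧ Acc O cA y [] _) ∧ j = j' + 1)` (`neqp_does`, `call_does`),
`assertE_does`, `ch_count`; the filtered list has as many elements as the set (`nodup_allStr`). -/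
theorem Q3_sound {O : Set Str} {cA : Cmd} {kA : ℕ} {x a : Str} {T : ℕ}
    (h : Acc O (Q3 cA kA) x a T) :
    uval a ≤ {y : Str | y.length = x.length ∧ y ≠ x ∧
      Acc O cA y [] (2 ^ (x.length ^ kA + kA))}.ncard := by
  obtain ⟨K, hK⟩ := q3_does cA kA
  obtain ⟨t, -, s', hr, -⟩ := h
  exact ((hK O x a).1 t s' hr).2

theorem Q3_complete (cA : Cmd) (kA : ℕ) : ∃ K : ℕ, ∀ (O : Set Str) (x a : Str),
    uval a ≤ {y : Str | y.length = x.length ∧ y ≠ x ∧
      Acc O cA y [] (2 ^ (x.length ^ kA + kA))}.ncard →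
    Acc O (Q3 cA kA) x a (2 ^ ((x.length + 2 ^ a.length) ^ K + K)) := by
  obtain ⟨K, hK⟩ := q3_does cA kA
  refine ⟨K, fun O x a h => ?_⟩
  obtain ⟨t, ht, hr⟩ := (hK O x a).2 _ ⟨rfl, h⟩
  exact ⟨t, ht, _, hr, by simp⟩

end Pool.Agent.Helper5.SX
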