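import Pool.Agent.Helper5.SY.P1
import Pool.Agent.Helper5.SY.P2
import Pool.Agent.Helper5.SY.P3

/-!
# Sparse sets, tally sets, and the elimination of logarithmic advice
-/

namespace Pool.Agent.Helper5.SX

open Function

/-- A tally set: all its strings consist of `true` only. -/
def Tally (A : Set Str) : Prop := ∀ x ∈ A, ∀ b ∈ x, b = true

theorem tally_sparse {A : Set Str} (h : Tally A) : Sparse A := by
  refine ⟨1, fun n => ?_⟩
  have h1 : census A n ≤ 1 := by
    unfold census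
    refine (Set.ncard_le_one (Set.Finite.subset (Set.finite_singleton
      (List.replicate n true)) ?_)).2 ?_
    · rintro x ⟨hx, hl⟩
      exact List.eq_replicate_iff.2 ⟨hl, h x hx⟩
    · rintro x ⟨hx, hl⟩ y ⟨hy, hl'⟩
      rw [List.eq_replicate_iff.2 ⟨hl, h x hx⟩, List.eq_replicate_iff.2 ⟨hl', h y hy⟩]
  omega

theorem pair_inj {n m n' m' : ℕ} (h : (n + m) ^ 2 + n = (n' + m') ^ 2 + n') :
    n = n' ∧ m = m' := by
  have key : n + m = n' + m' := by
    rcases lt_trichotomy (n + m) (n' + m') with h1 | h1 | h1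
    · exfalso
      have h2 : (n + m + 1) ^ 2 ≤ (n' + m') ^ 2 := Nat.pow_le_pow_left h1 2
      have h3 : (n + m + 1) ^ 2 = (n + m) ^ 2 + 2 * (n + m) + 1 := by ring
      omega
    · exact h1
    · exfalso
      have h2 : (n' + m' + 1) ^ 2 ≤ (n + m) ^ 2 := Nat.pow_le_pow_left h1 2
      have h3 : (n' + m' + 1) ^ 2 = (n' + m') ^ 2 + 2 * (n' + m') + 1 := by ring
      omega
  rw [key] at h
  omega

theorem SA_tally (O : Set Str) (cA : Cmd) (kA : ℕ) (cB : Cmd) (kB : ℕ) :
    Tally (SA O cA kA cB kB) := by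
  rintro z ⟨n, m, rfl, -⟩ b hb
  exact (List.mem_replicate.1 hb).2

theorem log_pow_le (n k : ℕ) : 2 ^ (k * Nat.log 2 (n + 2)) ≤ (n + 2) ^ k := by
  rw [mul_comm, pow_mul]
  exact Nat.pow_le_pow_left (Nat.pow_log_le_self 2 (by omega)) k

/-- From tally sets to the elimination of logarithmic advice. -/
theorem tally_adv {O : Set Str} (h : ∀ A ∈ NEXP O, Tally A → Aᶜ ∈ NEXP O) {A : Set Str}
    (hA : A ∈ NEXP O) {k : ℕ} (hB : Aᶜ ∈ NEXPAdv O (fun n => k * Nat.log 2 (n + 2))) :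
    Aᶜ ∈ NEXP O := by
  obtain ⟨kA, cA, hcA⟩ := hA
  obtain ⟨cB, kB, a, ha, hcB⟩ := hB
  obtain ⟨kS, cS, hcS⟩ := h _ (SA_mem_NEXP O cA kA cB kB) (SA_tally O cA kA cB kB)
  obtain ⟨K, hK⟩ := Q2_complete cA kA cB kB cS kS
  obtain ⟨L, hL⟩ := tb_poly K 2 k
  refine ⟨L, Q2 cA kA cB kB cS kS, fun x => ?_⟩
  constructor
  · intro hx
    obtain ⟨m, hm, hma⟩ := wstr_surj (a x.length)
    have hm' : m ≤ 2 * (x.length + 2) ^ k := by
      refine hm.trans ?_
      rw [pow_succ, mul_comm]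
      exact Nat.mul_le_mul_left 2
        ((Nat.pow_le_pow_right (by omega) (ha x.length)).trans (log_pow_le x.length k))
    have hacc : Acc O (Q2 cA kA cB kB cS kS) x [] (2 ^ ((x.length + m) ^ K + K)) := by
      refine hK O x m ?_ ?_ ?_
      · have h1 : List.replicate ((x.length + m) ^ 2 + x.length) true ∈
            (SA O cA kA cB kB)ᶜ := by
          rintro ⟨n', m', h2, y, hy, hyA, hyB⟩
          have h3 : (x.length + m) ^ 2 + x.length = (n' + m') ^ 2 + n' := by
            simpa using congrArg List.length h2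
          obtain ⟨h4, h5⟩ := pair_inj h3
          subst h4 h5
          have h6 : y ∈ A := (hcA y).2 (by rw [hy]; exact hyA)
          have h7 : y ∈ Aᶜ := (hcB y).2 (by rw [hy, ← hma]; exact hyB)
          exact h7 h6
        have h2 := (hcS _).1 h1
        simpa using h2
      · intro y hy
        by_cases hyA : y ∈ A
        · exact Or.inl (by rw [← hy]; exact (hcA y).1 hyA)
        · refine Or.inr ?_
          have h1 := (hcB y).1 hyA
          rw [hy, ← hma] at h1
          exact h1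
      · rw [hma]
        exact (hcB x).1 hx
    obtain ⟨t, ht, hrun⟩ := hacc
    exact ⟨t, ht.trans (hL x.length m hm'), hrun⟩
  · intro hx hxA
    obtain ⟨m, h1, h2, h3⟩ := Q2_sound hx
    have h4 : List.replicate ((x.length + m) ^ 2 + x.length) true ∈
        (SA O cA kA cB kB)ᶜ := (hcS _).2 (by simpa using h1)
    exact h4 ⟨x.length, m, rfl, x, rfl, (hcA x).1 hxA, h3⟩

theorem log_bound (k : ℕ) : ∃ k' : ℕ, ∀ n : ℕ,
    Nat.log 2 (n ^ k + k) + 1 ≤ k' * Nat.log 2 (n + 2) := by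
  refine ⟨2 * k + 3, fun n => ?_⟩
  have h1 : 1 ≤ Nat.log 2 (n + 2) := Nat.log_pos (by norm_num) (by omega)
  have h2 : n ^ k + k ≤ (n + 2) ^ (k + 1) := by
    have h3 : n ^ k ≤ (n + 2) ^ k := Nat.pow_le_pow_left (by omega) k
    have h4 : k ≤ (n + 2) ^ k :=
      (Nat.lt_two_pow_self (n := k)).le.trans (Nat.pow_le_pow_left (by omega) k)
    calc n ^ k + k ≤ (n + 2) ^ k + (n + 2) ^ k := by omega
      _ ≤ (n + 2) ^ k * (n + 2) := by nlinarith [Nat.zero_le ((n + 2) ^ k * n)]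
      _ = (n + 2) ^ (k + 1) := (pow_succ _ _).symm
  have h5 : (n + 2) ^ (k + 1) < 2 ^ ((Nat.log 2 (n + 2) + 1) * (k + 1)) := by
    rw [pow_mul]
    exact Nat.pow_lt_pow_left (Nat.lt_pow_succ_log_self (by norm_num) _) (by omega)
  have h6 : Nat.log 2 (n ^ k + k) < (Nat.log 2 (n + 2) + 1) * (k + 1) := by
    rcases Nat.eq_zero_or_pos (n ^ k + k) with h0 | h0
    · rw [h0]
      simp
    · exact Nat.log_lt_of_lt_pow (by omega) (h2.trans_lt h5)
  nlinarith [h1, h6, Nat.zero_le k]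

/-- The set counted by the census program. -/
theorem census_split {A : Set Str} {x : Str} :
    (x ∉ A → {y : Str | y.length = x.length ∧ y ≠ x ∧ y ∈ A}.ncard = census A x.length) ∧
    (x ∈ A → {y : Str | y.length = x.length ∧ y ≠ x ∧ y ∈ A}.ncard < census A x.length) := by
  have hfin : {y : Str | y ∈ A ∧ y.length = x.length}.Finite :=
    (List.finite_length_eq Bool x.length).subset fun y hy => hy.2
  constructor
  · intro hx
    unfold census
    congr 1
    ext y
    constructor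
    · rintro ⟨h1, h2, h3⟩
      exact ⟨h3, h1⟩
    · rintro ⟨h1, h2⟩
      exact ⟨h2, fun h => hx (h ▸ h1), h1⟩
  · intro hx
    unfold census
    refine Set.ncard_lt_ncard ⟨?_, ?_⟩ hfin
    · rintro y ⟨h1, h2, h3⟩
      exact ⟨h3, h1⟩
    · intro h
      exact (h ⟨hx, rfl⟩).2.1 rfl

/-- The complement of a sparse set of the class has logarithmic advice. -/
theorem sparse_adv {O : Set Str} {A : Set Str} (hA : A ∈ NEXP O) (hs : Sparse A) :
    ∃ k : ℕ, Aᶜ ∈ NEXPAdv O (fun n => k * Nat.log 2 (n + 2)) := by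
  obtain ⟨kA, cA, hcA⟩ := hA
  obtain ⟨k, hk⟩ := hs
  obtain ⟨k', hk'⟩ := log_bound k
  obtain ⟨K, hK⟩ := Q3_complete cA kA
  choose a ha1 ha2 using fun n => uval_surj (census A n)
  have hlen : ∀ n, (a n).length ≤ k' * Nat.log 2 (n + 2) := fun n =>
    (ha2 n).trans (le_trans (Nat.succ_le_succ (Nat.log_mono_right (hk n))) (hk' n))
  obtain ⟨L, hL⟩ := tb_poly K 1 k'
  have hset : ∀ x : Str, {y : Str | y.length = x.length ∧ y ≠ x ∧
      Acc O cA y [] (2 ^ (x.length ^ kA + kA))} =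
      {y : Str | y.length = x.length ∧ y ≠ x ∧ y ∈ A} := by
    intro x
    ext y
    simp only [Set.mem_ofPred_eq]
    constructor
    · rintro ⟨h1, h2, h3⟩
      exact ⟨h1, h2, (hcA y).2 (by rw [h1]; exact h3)⟩
    · rintro ⟨h1, h2, h3⟩
      exact ⟨h1, h2, by rw [← h1]; exact (hcA y).1 h3⟩
  refine ⟨k', Q3 cA kA, L, a, hlen, fun x => ?_⟩
  constructor
  · intro hx
    have h1 : uval (a x.length) ≤ {y : Str | y.length = x.length ∧ y ≠ x ∧
        Acc O cA y [] (2 ^ (x.length ^ kA + kA))}.ncard := by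
      rw [hset, ha1, census_split.1 hx]
    obtain ⟨t, ht, hrun⟩ := hK O x (a x.length) h1
    refine ⟨t, ht.trans (hL x.length _ ?_), hrun⟩
    rw [one_mul]
    exact (Nat.pow_le_pow_right (by omega) (hlen x.length)).trans (log_pow_le _ _)
  · intro hx hxA
    have h1 := Q3_sound hx
    rw [hset, ha1] at h1
    exact absurd (census_split.2 hxA) (not_lt.2 h1)

/-- The equivalence. -/
theorem main_tfae (O : Set Str) : List.TFAE
    [∀ A ∈ NEXP O, Sparse A → Aᶜ ∈ NEXP O,
      ∀ A ∈ NEXP O, (∀ x ∈ A, ∀ b ∈ x, b = true) → Aᶜ ∈ NEXP O,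
      ∀ A ∈ NEXP O, (∃ k : ℕ, Aᶜ ∈ NEXPAdv O (fun n => k * Nat.log 2 (n + 2))) →
        Aᶜ ∈ NEXP O] := by
  tfae_have 1 → 2 := fun h A hA ht => h A hA (tally_sparse ht)
  tfae_have 2 → 3 := fun h A hA ⟨k, hk⟩ => tally_adv h hA hk
  tfae_have 3 → 1 := fun h A hA hs => h A hA (sparse_adv hA hs)
  tfae_finish

end Pool.Agent.Helper5.SX
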