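import Pool.Agent.Helper5.SY.Str2
import Pool.Agent.Helper5.SY.Call
import Pool.Agent.Helper5.SY.Guess
import Pool.Agent.Helper5.SY.Num3

/-!
# From unary to binary input
-/

namespace Pool.Agent.Helper5.SX

open Function

/-- the store after the guess -/
def W1_st (w : Str) (m : ℕ) : Store := update (start w []) 4 (List.replicate m true)

theorem W1_st_apply (w : Str) (m q : ℕ) : W1_st w m q =
    if q = 4 then List.replicate m true else if q = 0 then w else [] := by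
  unfold W1_st start
  simp only [update_apply]
  split_ifs <;> rfl

/-- the part of the program after the guess -/
theorem W1_rest {O : Set Str} {c : Cmd} {k K : ℕ}
    (hA : ∀ (s : Store) (rx ra : ℕ), rx < 30 → ra ≤ 30 → Low s →
      Does O (call c k rx ra) s s (Acc O c (s rx) (s ra) (2 ^ ((s rx).length ^ k + k)))
        (2 ^ (((s rx).length + (s ra).length) ^ K + K)))
    (w : Str) (m : ℕ) :
    ∃ s₁ : Store, s₁ 2 ≠ [] ∧
      Does O (Cmd.seq decp (Cmd.seq eqwp (Cmd.seq (call c k 4 30) (Cmd.push 2 true))))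
        (W1_st w m) s₁ (wstr m = w ∧ Acc O c (List.replicate m true) [] (2 ^ (m ^ k + k)))
        (40 * (m + 1) ^ 2 + ((10 * w.length + 10) + (2 ^ (m ^ K + K) + 1))) := by
  have e0 := W1_st_apply w m
  have h1 : Does O decp (W1_st w m) (update (W1_st w m) 7 (wstr m)) True (40 * (m + 1) ^ 2) :=
    decp_does (by rw [e0]; simp) (by rw [e0]; simp) (by rw [e0]; simp) (by rw [e0]; simp)
      (by rw [e0]; simp) (by rw [e0]; simp)
  set s₁ : Store := update (W1_st w m) 7 (wstr m) with hs₁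
  have e1 : ∀ q, s₁ q = if q = 7 then wstr m else if q = 4 then List.replicate m true else
      if q = 0 then w else [] := by
    intro q
    rw [hs₁]
    simp only [update_apply, e0]
  have h2 := eqwp_does (O := O) (s := s₁)
  have f7 : s₁ 7 = wstr m := by rw [e1]; simp
  have f0 : s₁ 0 = w := by rw [e1]; simp
  rw [f7, f0] at h2
  set s₂ : Store := update (update s₁ 0 []) 7 [] with hs₂
  have e2 : ∀ q, s₂ q = if q = 4 then List.replicate m true else [] := by
    intro q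
    rw [hs₂]
    simp only [update_apply, e1]
    split_ifs <;> first | rfl | omega
  have hlow : Low s₂ := by
    intro q hq
    rw [e2, if_neg (by omega)]
  have f4 : s₂ 4 = List.replicate m true := by rw [e2]; simp
  have f30 : s₂ 30 = [] := by rw [e2]; simp
  have h3 := hA s₂ 4 30 (by norm_num) le_rfl hlow
  rw [f4, f30, List.length_replicate, List.length_nil, add_zero] at h3
  have h4 := does_push (O := O) (s := s₂) 2 true
  have h5 := h1.seq fun _ => h2.seq fun _ => h3.seq fun _ => h4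
  exact ⟨_, by simp, Does.congr h5 (fun _ => rfl) (by tauto)⟩

theorem W1_time (K : ℕ) : ∃ L : ℕ, ∀ n m : ℕ, m ≤ 2 ^ (n + 1) →
    (4 * m + 10) + (40 * (m + 1) ^ 2 + ((10 * n + 10) + (2 ^ (m ^ K + K) + 1))) ≤
      2 ^ 2 ^ (L * n + L) := by
  obtain ⟨L2, hL2⟩ := tb_of_poly 300 2
  obtain ⟨L3, hL3⟩ := tb_add L2 K
  refine ⟨L3 + 1, fun n m hm => ?_⟩
  obtain ⟨M, hM⟩ : ∃ M, M = 2 ^ (n + 1) := ⟨_, rfl⟩
  rw [← hM] at hm
  have hn : n ≤ M := by
    have h1 : n + 1 < 2 ^ (n + 1) := Nat.lt_two_pow_self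
    omega
  have b1 : 2 ^ (m ^ K + K) ≤ 2 ^ (M ^ K + K) :=
    Nat.pow_le_pow_right (by norm_num) (Nat.add_le_add_right (Nat.pow_le_pow_left hm _) _)
  have b2 := hL2 M
  have b3 := hL3 M
  have b4 : (4 * m + 10) + 40 * (m + 1) ^ 2 + (10 * n + 10) + 1 ≤ 300 * (M + 1) ^ 2 := by
    have c1 : (m + 1) ^ 2 ≤ (M + 1) ^ 2 := Nat.pow_le_pow_left (by omega) 2
    nlinarith
  have b5 : 2 ^ (M ^ L3 + L3) ≤ 2 ^ 2 ^ ((L3 + 1) * n + (L3 + 1)) := by
    refine Nat.pow_le_pow_right (by norm_num) ?_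
    rw [hM, ← pow_mul]
    have c1 : L3 ≤ 2 ^ L3 := Nat.lt_two_pow_self.le
    have c2 : 2 ^ L3 ≤ 2 ^ ((n + 1) * L3) := Nat.pow_le_pow_right (by norm_num) (by nlinarith)
    have c3 : 2 ^ ((n + 1) * L3) + 2 ^ ((n + 1) * L3) = 2 ^ ((n + 1) * L3 + 1) := by
      rw [pow_succ]
      omega
    have c4 : 2 ^ ((n + 1) * L3 + 1) ≤ 2 ^ ((L3 + 1) * n + (L3 + 1)) :=
      Nat.pow_le_pow_right (by norm_num) (by nlinarith)
    omega
  omega

/-- Program `R1`: `gU_sound`/`gU_complete`, `decp_does`, `eqwp_does`, `call_does` (advice stack 30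
is empty), `does_push` (see P1.lean for the pattern). For the time: `wstr m = w` and `wstr_surj`,
`wstr_inj` give `m ≤ 2^(|w|+1)`; then `2^(m^K+K) ≤ 2^(2^(K'|w|+K'))`. -/
theorem R1_mem_NEE (O : Set Str) (c : Cmd) (k : ℕ) :
    {w : Str | ∃ m : ℕ, wstr m = w ∧ Acc O c (List.replicate m true) [] (2 ^ (m ^ k + k))} ∈
      NEE O := by
  obtain ⟨K, hK⟩ := call_does c k
  obtain ⟨L, hL⟩ := W1_time K
  have h0 : ∀ (z : Str) (q : ℕ), q ≠ 0 → start z [] q = [] := by
    intro z q hq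
    unfold start
    rw [if_neg hq]
    split_ifs <;> rfl
  refine ⟨L, R1 c k, fun w => ⟨?_, ?_⟩⟩
  · rintro ⟨m, hm, hacc⟩
    obtain ⟨t1, ht1, r1⟩ := gU_complete (O := O) (by norm_num : (4 : ℕ) ≠ 5)
      (h0 w 4 (by norm_num)) (h0 w 5 (by norm_num)) m
    obtain ⟨s₁, hs₁, hd⟩ := W1_rest (hK O) w m
    obtain ⟨t2, ht2, r2⟩ := hd.2 s₁ ⟨rfl, hm, hacc⟩
    refine ⟨t1 + t2, ?_, s₁, Run.seq r1 r2, hs₁⟩
    have hm' : m ≤ 2 ^ (w.length + 1) := by
      obtain ⟨m', h1, h2⟩ := wstr_surj w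
      have h3 : m = m' := wstr_inj (hm.trans h2.symm)
      omega
    have h4 := hL w.length m hm'
    change t1 + t2 ≤ 2 ^ 2 ^ (L * w.length + L)
    omega
  · rintro ⟨t, -, s', hr, h2⟩
    cases hr with
    | seq h3 h4 =>
      obtain ⟨m, rfl⟩ := gU_sound (by norm_num : (4 : ℕ) ≠ 5) (h0 w 4 (by norm_num))
        (h0 w 5 (by norm_num)) h3
      obtain ⟨s₁, hs₁, hd⟩ := W1_rest (hK O) w m
      obtain ⟨-, h5, h6⟩ := hd.1 _ _ h4
      exact ⟨m, h5, h6⟩

end Pool.Agent.Helper5.SX
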