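import Pool.Agent.Helper5.SY.Str2
import Pool.Agent.Helper5.SY.Call2
import Pool.Agent.Helper5.SY.Num3

/-!
# From binary to unary input
-/

namespace Pool.Agent.Helper5.SX

open Function

/-- Program `R0` from a store with `x` on stack 0 and nothing else (`cpg_does`, `decp_does`,
`call2_does`, `does_push`). Time: `n = |x|`, `2^|wstr n| ≤ n+1` (`two_pow_wstr_length`), so
`2^(2^(K |wstr n| + K)) ≤ 2^(2^K * (n+1)^K)`, then `tb_poly` (with `K = 1`), `tb_add`,
`tb_of_poly`. -/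
theorem R0_does (c : Cmd) (k : ℕ) : ∃ K : ℕ, ∀ (O : Set Str) (x : Str), ∃ s₁ : Store,
    s₁ 2 ≠ [] ∧ Does O (R0 c k) (start x []) s₁
      (Acc O c (wstr x.length) [] (2 ^ 2 ^ (k * (wstr x.length).length + k)))
      (2 ^ (x.length ^ K + K)) := by
  obtain ⟨K1, hK1⟩ := call2_does c k
  obtain ⟨L1, hL1⟩ := tb_of_poly 60 2
  obtain ⟨L2, hL2⟩ := tb_poly 1 (2 ^ K1) K1
  obtain ⟨L3, hL3⟩ := tb_add L1 L2
  refine ⟨L3, fun O x => ?_⟩
  obtain ⟨n, hn⟩ : ∃ n, n = x.length := ⟨_, rfl⟩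
  have e0 : ∀ q, start x [] q = if q = 0 then x else [] := by
    intro q
    unfold start
    split_ifs <;> rfl
  -- the copy
  have d1 := cpg_does (O := O) (s := start x []) tt (r := 0) (u := 4)
    (by rw [e0, if_neg (by norm_num)]) (by norm_num) (by norm_num) (by norm_num)
  have m1 : (start x [] 0).map tt ++ start x [] 4 = List.replicate n true := by
    rw [e0, e0, if_pos rfl, if_neg (by norm_num), List.append_nil, hn]
    exact List.eq_replicate_iff.2 ⟨by simp, by simp [tt]⟩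
  rw [m1] at d1
  have f0 : start x [] 0 = x := by rw [e0, if_pos rfl]
  rw [f0, ← hn] at d1
  obtain ⟨s₁, hs₁⟩ : ∃ s₁, s₁ = update (start x []) 4 (List.replicate n true) := ⟨_, rfl⟩
  rw [← hs₁] at d1
  have e1 : ∀ q, s₁ q = if q = 4 then List.replicate n true else if q = 0 then x else [] := by
    intro q
    rw [hs₁, update_apply, e0]
  -- the string
  have d2 : Does O decp s₁ (update s₁ 7 (wstr n)) True (40 * (n + 1) ^ 2) :=
    decp_does (by rw [e1, if_pos rfl]) (by rw [e1]; simp) (by rw [e1]; simp)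
      (by rw [e1]; simp) (by rw [e1]; simp) (by rw [e1]; simp)
  obtain ⟨s₂, hs₂⟩ : ∃ s₂, s₂ = update s₁ 7 (wstr n) := ⟨_, rfl⟩
  rw [← hs₂] at d2
  have e2 : ∀ q, s₂ q = if q = 7 then wstr n else if q = 4 then List.replicate n true else
      if q = 0 then x else [] := by
    intro q
    rw [hs₂, update_apply, e1]
  have hlow : Low s₂ := by
    intro q hq
    rw [e2, if_neg (by omega), if_neg (by omega), if_neg (by omega)]
  -- the call
  have d3 := hK1 O s₂ 7 (by norm_num) hlow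
  have f7 : s₂ 7 = wstr n := by rw [e2, if_pos rfl]
  rw [f7] at d3
  have d4 : Does O (Cmd.push 2 true) s₂ (update s₂ 2 [true]) True 1 := by
    have h := does_push (O := O) (s := s₂) 2 true
    have f2 : s₂ 2 = [] := by rw [e2]; simp
    rwa [f2] at h
  refine ⟨update s₂ 2 [true], by simp, ?_⟩
  have h := d1.seq fun _ => d2.seq fun _ => d3.seq fun _ => d4
  rw [← hn]
  refine (Does.congr h (fun _ => rfl) (by tauto)).mono ?_
  -- the time
  have g1 : 2 ^ (K1 * (wstr n).length + K1) ≤ 2 ^ K1 * (n + 2) ^ K1 := by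
    have h1 : (2 ^ (wstr n).length) ^ K1 ≤ (n + 2) ^ K1 :=
      Nat.pow_le_pow_left ((two_pow_wstr_length n).trans (by omega)) _
    calc 2 ^ (K1 * (wstr n).length + K1)
        = 2 ^ K1 * (2 ^ (wstr n).length) ^ K1 := by rw [← pow_mul, ← pow_add]; congr 1; ring
      _ ≤ 2 ^ K1 * (n + 2) ^ K1 := Nat.mul_le_mul_left _ h1
  have g2 := hL2 n _ g1
  have g3 : 2 ^ 2 ^ (K1 * (wstr n).length + K1) ≤
      2 ^ ((n + 2 ^ (K1 * (wstr n).length + K1)) ^ 1 + 1) :=
    Nat.pow_le_pow_right (by norm_num) (by rw [pow_one]; omega)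
  have g4 := hL1 n
  have g5 := hL3 n
  have g6 : 8 * n + 2 + 40 * (n + 1) ^ 2 + 1 ≤ 60 * (n + 1) ^ 2 := by nlinarith
  generalize 2 ^ 2 ^ (K1 * (wstr n).length + K1) = A at *
  generalize 2 ^ ((n + 2 ^ (K1 * (wstr n).length + K1)) ^ 1 + 1) = B at *
  omega

private theorem W2b_acc {O : Set Str} {c : Cmd} {x : Str} {R : Store → Prop} {φ : Prop}
    {T T' : ℕ} (h : Spec O c (start x []) R T) (h1 : ∀ s', R s' → s' 2 ≠ []) (h2 : φ ↔ ∃ s', R s')
    (hT : T ≤ T') : φ ↔ Acc O c x [] T' := by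
  rw [h2]
  constructor
  · rintro ⟨s', hs'⟩
    obtain ⟨t, ht, hr⟩ := h.2 s' hs'
    exact ⟨t, ht.trans hT, s', hr, h1 s' hs'⟩
  · rintro ⟨t, -, s', hr, -⟩
    exact ⟨s', h.1 t s' hr⟩

private theorem W2b_time (K : ℕ) : ∃ L : ℕ, ∀ n : ℕ,
    (20 * n + 20) + 1 + 2 ^ (n ^ K + K) + 1 ≤ 2 ^ (n ^ L + L) := by
  obtain ⟨L1, hL1⟩ := tb_of_poly 22 1
  obtain ⟨L2, hL2⟩ := tb_add L1 K
  refine ⟨L2, fun n => ?_⟩
  have h1 := hL1 n
  have h2 := hL2 n
  rw [pow_one] at h1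
  omega

/-- Program `R3`. -/
theorem R3_mem_NEXP (O : Set Str) (c : Cmd) (k : ℕ) :
    {x : Str | (∀ b ∈ x, b = true) ∧
      Acc O c (wstr x.length) [] (2 ^ 2 ^ (k * (wstr x.length).length + k))} ∈ NEXP O := by
  obtain ⟨K, hK⟩ := R0_does c k
  obtain ⟨L, hL⟩ := W2b_time K
  refine ⟨L, R3 c k, fun x => ?_⟩
  obtain ⟨s₁, hs₁, h0⟩ := hK O x
  have h1 : Does O tallyp (start x []) (start x []) (∀ b ∈ x, b = true) (20 * x.length + 20) :=
    tallyp_does (s := start x []) (by simp [start]) (by simp [start])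
  have h2 := h1.seq fun _ => h0
  refine W2b_acc h2 ?_ ?_ (le_trans ?_ (hL x.length))
  · rintro s' ⟨rfl, -⟩
    exact hs₁
  · constructor
    · rintro ⟨h3, h4⟩
      exact ⟨s₁, rfl, h3, h4⟩
    · rintro ⟨s', -, h3, h4⟩
      exact ⟨h3, h4⟩
  · omega

/-- Program `R2`. -/
theorem R2_mem_NEXP (O : Set Str) (c : Cmd) (k : ℕ) :
    {x : Str | (∃ b ∈ x, b = false) ∨
      Acc O c (wstr x.length) [] (2 ^ 2 ^ (k * (wstr x.length).length + k))} ∈ NEXP O := by
  obtain ⟨K, hK⟩ := R0_does c k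
  obtain ⟨L, hL⟩ := W2b_time K
  refine ⟨L, R2 c k, fun x => ?_⟩
  obtain ⟨s₁, hs₁, h0⟩ := hK O x
  have h1 : Does O ntallyp (start x []) (start x []) (∃ b ∈ x, b = false)
      (20 * x.length + 20) :=
    ntallyp_does (s := start x []) (by simp [start]) (by simp [start]) (by simp [start])
  have h2 := h1.seq fun _ => does_push (O := O) (s := start x []) 2 true
  have h3 := Spec.choose h2 h0
  refine W2b_acc h3 ?_ ?_ (le_trans ?_ (hL x.length))
  · rintro s' (⟨rfl, -⟩ | ⟨rfl, -⟩)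
    · simp
    · exact hs₁
  · constructor
    · rintro (h4 | h4)
      · exact ⟨_, Or.inl ⟨rfl, h4, trivial⟩⟩
      · exact ⟨_, Or.inr ⟨rfl, h4⟩⟩
    · rintro ⟨s', (⟨-, h4, -⟩ | ⟨-, h4⟩)⟩
      · exact Or.inl h4
      · exact Or.inr h4
  · have : max (20 * x.length + 20 + 1) (2 ^ (x.length ^ K + K)) ≤
      20 * x.length + 20 + 1 + 2 ^ (x.length ^ K + K) := by
      exact max_le (Nat.le_add_right _ _) (Nat.le_add_left _ _)
    omega

end Pool.Agent.Helper5.SX
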