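import Pool.Agent.Helper5.SY.Main
import Pool.Agent.Helper5.SY.W1
import Pool.Agent.Helper5.SY.W2

/-!
# Tally sets and double exponential time
-/

namespace Pool.Agent.Helper5.SX

open Function

/-- From tally sets to double exponential time. -/
theorem tally_NEE {O : Set Str} (h : ∀ A ∈ NEXP O, Tally A → Aᶜ ∈ NEXP O) {A : Set Str}
    (hA : A ∈ NEE O) : Aᶜ ∈ NEE O := by
  obtain ⟨k, c, hc⟩ := hA
  have ht : Tally {x : Str | (∀ b ∈ x, b = true) ∧
      Acc O c (wstr x.length) [] (2 ^ 2 ^ (k * (wstr x.length).length + k))} :=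
    fun x hx => hx.1
  obtain ⟨kS, cS, hS⟩ := h _ (R3_mem_NEXP O c k) ht
  have h1 : Aᶜ = {w : Str | ∃ m : ℕ, wstr m = w ∧
      Acc O cS (List.replicate m true) [] (2 ^ (m ^ kS + kS))} := by
    ext w
    constructor
    · intro hw
      obtain ⟨m, -, hm⟩ := wstr_surj w
      refine ⟨m, hm, ?_⟩
      have h2 := (hS (List.replicate m true)).1 (by
        rintro ⟨-, h3⟩
        rw [List.length_replicate, hm] at h3
        exact hw ((hc w).2 h3))
      simpa using h2
    · rintro ⟨m, hm, h2⟩ hw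
      have h3 := (hS (List.replicate m true)).2 (by simpa using h2)
      refine h3 ⟨fun b hb => (List.mem_replicate.1 hb).2, ?_⟩
      rw [List.length_replicate, hm]
      exact (hc w).1 hw
  rw [h1]
  exact R1_mem_NEE O cS kS

/-- From double exponential time to tally sets. -/
theorem NEE_tally {O : Set Str} (h : ∀ A ∈ NEE O, Aᶜ ∈ NEE O) {A : Set Str}
    (hA : A ∈ NEXP O) (ht : Tally A) : Aᶜ ∈ NEXP O := by
  obtain ⟨kA, cA, hcA⟩ := hA
  obtain ⟨k, c, hc⟩ := h _ (R1_mem_NEE O cA kA)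
  have h0 : ∀ x ∈ A, x = List.replicate x.length true := fun x hx =>
    List.eq_replicate_iff.2 ⟨rfl, ht x hx⟩
  have h1 : Aᶜ = {x : Str | (∃ b ∈ x, b = false) ∨
      Acc O c (wstr x.length) [] (2 ^ 2 ^ (k * (wstr x.length).length + k))} := by
    ext x
    constructor
    · intro hx
      by_cases hb : ∃ b ∈ x, b = false
      · exact Or.inl hb
      · refine Or.inr ((hc (wstr x.length)).1 ?_)
        rintro ⟨m, hm, h2⟩
        have h3 : m = x.length := wstr_inj hm
        subst h3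
        have h4 : x = List.replicate x.length true := by
          refine List.eq_replicate_iff.2 ⟨rfl, fun b hb' => ?_⟩
          cases b with
          | true => rfl
          | false => exact absurd ⟨false, hb', rfl⟩ hb
        refine hx ((hcA x).2 ?_)
        rw [← h4] at h2
        exact h2
    · rintro (⟨b, hb, hb'⟩ | h2) hx
      · have h3 := ht x hx b hb
        rw [hb'] at h3
        exact Bool.noConfusion h3
      · refine (hc (wstr x.length)).2 h2 ⟨x.length, rfl, ?_⟩
        rw [← h0 x hx]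
        exact (hcA x).1 hx
  rw [h1]
  exact R2_mem_NEXP O c k

/-- The equivalence of four statements. -/
theorem main_tfae4 (O : Set Str) : List.TFAE
    [∀ A ∈ NEXP O, Sparse A → Aᶜ ∈ NEXP O,
      ∀ A ∈ NEXP O, (∀ x ∈ A, ∀ b ∈ x, b = true) → Aᶜ ∈ NEXP O,
      ∀ A ∈ NEXP O, (∃ k : ℕ, Aᶜ ∈ NEXPAdv O (fun n => k * Nat.log 2 (n + 2))) →
        Aᶜ ∈ NEXP O,
      ∀ A ∈ NEE O, Aᶜ ∈ NEE O] := by
  tfae_have 1 → 2 := fun h A hA ht => h A hA (tally_sparse ht)
  tfae_have 2 → 3 := fun h A hA ⟨k, hk⟩ => tally_adv h hA hk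
  tfae_have 3 → 1 := fun h A hA hs => h A hA (sparse_adv hA hs)
  tfae_have 2 → 4 := fun h A hA => tally_NEE h hA
  tfae_have 4 → 2 := fun h A hA ht => NEE_tally h hA ht
  tfae_finish

end Pool.Agent.Helper5.SX
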