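import Pool.Agent.Helper5.SY.Call
import Pool.Agent.Helper5.SY.Enum
import Pool.Agent.Helper5.SY.Guess
import Pool.Agent.Helper5.SY.Sq
import Pool.Agent.Helper5.SY.Dec
import Pool.Agent.Helper5.SY.Horner
import Pool.Agent.Helper5.SY.Neq
import Pool.Agent.Helper5.SY.Num3

/-!
# The tally set is in NEXP
-/

namespace Pool.Agent.Helper5.SX

open Function

/-- the store after the two guesses -/
def P1_st (z : Str) (n m : ℕ) : Store :=
  update (update (start z []) 3 (List.replicate n true)) 4 (List.replicate m true)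

/-- the store after the comparison -/
def P1_st2 (z : Str) (n m : ℕ) : Store :=
  update (update (update (P1_st z n m) 5 (List.replicate ((n + m) ^ 2 + n) true)) 0 []) 5 []

theorem P1_st_apply (z : Str) (n m q : ℕ) : P1_st z n m q =
    if q = 4 then List.replicate m true else if q = 3 then List.replicate n true else
      if q = 0 then z else [] := by
  unfold P1_st start
  simp only [update_apply]
  split_ifs <;> rfl

theorem P1_st2_apply (z : Str) (n m q : ℕ) : P1_st2 z n m q =
    if q = 4 then List.replicate m true else if q = 3 then List.replicate n true else [] := by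
  unfold P1_st2
  simp only [update_apply, P1_st_apply]
  split_ifs <;> first | rfl | omega

/-- the part of the program after the guess of the string -/
theorem P1_tail {O : Set Str} {cA : Cmd} {kA K1 : ℕ} {cB : Cmd} {kB K2 : ℕ}
    (hA : ∀ (s : Store) (rx ra : ℕ), rx < 30 → ra ≤ 30 → Low s →
      Does O (call cA kA rx ra) s s (Acc O cA (s rx) (s ra) (2 ^ ((s rx).length ^ kA + kA)))
        (2 ^ (((s rx).length + (s ra).length) ^ K1 + K1)))
    (hB : ∀ (s : Store) (rx ra : ℕ), rx < 30 → ra ≤ 30 → Low s →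
      Does O (call cB kB rx ra) s s (Acc O cB (s rx) (s ra) (2 ^ ((s rx).length ^ kB + kB)))
        (2 ^ (((s rx).length + (s ra).length) ^ K2 + K2)))
    (z : Str) (n m : ℕ) (x : Str) (hx : x.length = n) :
    Does O (Cmd.seq decp (Cmd.seq (call cA kA 10 30) (Cmd.seq (call cB kB 10 7) (Cmd.push 2 true))))
      (update (P1_st2 z n m) 10 x)
      (update (update (update (P1_st2 z n m) 10 x) 7 (wstr m)) 2 [true])
      (Acc O cA x [] (2 ^ (n ^ kA + kA)) ∧ Acc O cB x (wstr m) (2 ^ (n ^ kB + kB)))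
      (40 * (m + 1) ^ 2 + (2 ^ (n ^ K1 + K1) + (2 ^ ((n + m) ^ K2 + K2) + 1))) := by
  set s₃ : Store := update (P1_st2 z n m) 10 x with hs₃
  have e3 : ∀ q, s₃ q = if q = 10 then x else if q = 4 then List.replicate m true else
      if q = 3 then List.replicate n true else [] := by
    intro q
    rw [hs₃]
    simp only [update_apply, P1_st2_apply]
  have h1 : Does O decp s₃ (update s₃ 7 (wstr m)) True (40 * (m + 1) ^ 2) :=
    decp_does (by rw [e3]; simp) (by rw [e3]; simp) (by rw [e3]; simp) (by rw [e3]; simp)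
      (by rw [e3]; simp) (by rw [e3]; simp)
  set s₄ : Store := update s₃ 7 (wstr m) with hs₄
  have e4 : ∀ q, s₄ q = if q = 7 then wstr m else if q = 10 then x else
      if q = 4 then List.replicate m true else if q = 3 then List.replicate n true else [] := by
    intro q
    rw [hs₄]
    simp only [update_apply, e3]
  have hlow : Low s₄ := by
    intro q hq
    rw [e4, if_neg (by omega), if_neg (by omega), if_neg (by omega), if_neg (by omega)]
  have f10 : s₄ 10 = x := by rw [e4]; simp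
  have f30 : s₄ 30 = [] := by rw [e4]; simp
  have f7 : s₄ 7 = wstr m := by rw [e4]; simp
  have f2 : s₄ 2 = [] := by rw [e4]; simp
  have h2 := hA s₄ 10 30 (by norm_num) le_rfl hlow
  have h3 := hB s₄ 10 7 (by norm_num) (by norm_num) hlow
  rw [f10, f30, hx, List.length_nil, add_zero] at h2
  rw [f10, f7, hx] at h3
  have h4 : Does O (Cmd.push 2 true) s₄ (update s₄ 2 [true]) True 1 := by
    have h5 := does_push (O := O) (s := s₄) 2 true
    rwa [f2] at h5
  have h5 := h1.seq fun _ => h2.seq fun _ => h3.seq fun _ => h4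
  refine (Does.congr h5 (fun _ => rfl) (by tauto)).mono ?_
  have h6 : 2 ^ ((n + (wstr m).length) ^ K2 + K2) ≤ 2 ^ ((n + m) ^ K2 + K2) := by
    refine Nat.pow_le_pow_right (by norm_num) (Nat.add_le_add_right (Nat.pow_le_pow_left ?_ _) _)
    have := wstr_length_le m
    omega
  omega

/-- the part of the program after the guesses of the numbers -/
theorem P1_rest {O : Set Str} {cA : Cmd} {kA K1 : ℕ} {cB : Cmd} {kB K2 : ℕ}
    (hA : ∀ (s : Store) (rx ra : ℕ), rx < 30 → ra ≤ 30 → Low s →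
      Does O (call cA kA rx ra) s s (Acc O cA (s rx) (s ra) (2 ^ ((s rx).length ^ kA + kA)))
        (2 ^ (((s rx).length + (s ra).length) ^ K1 + K1)))
    (hB : ∀ (s : Store) (rx ra : ℕ), rx < 30 → ra ≤ 30 → Low s →
      Does O (call cB kB rx ra) s s (Acc O cB (s rx) (s ra) (2 ^ ((s rx).length ^ kB + kB)))
        (2 ^ (((s rx).length + (s ra).length) ^ K2 + K2)))
    (z : Str) (n m : ℕ) :
    Spec O (Cmd.seq sqp (Cmd.seq eqp (Cmd.seq gX (Cmd.seq decp
      (Cmd.seq (call cA kA 10 30) (Cmd.seq (call cB kB 10 7) (Cmd.push 2 true)))))))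
      (P1_st z n m)
      (fun s' => z = List.replicate ((n + m) ^ 2 + n) true ∧ ∃ x : Str, x.length = n ∧
        s' = update (update (update (P1_st2 z n m) 10 x) 7 (wstr m)) 2 [true] ∧
        Acc O cA x [] (2 ^ (n ^ kA + kA)) ∧ Acc O cB x (wstr m) (2 ^ (n ^ kB + kB)))
      (40 * (n + m + 1) ^ 2 + ((10 * z.length + 10) + ((20 * n + 20) +
        (40 * (m + 1) ^ 2 + (2 ^ (n ^ K1 + K1) + (2 ^ ((n + m) ^ K2 + K2) + 1)))))) := by
  have e0 := P1_st_apply z n m
  have h1 : Does O sqp (P1_st z n m)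
      (update (P1_st z n m) 5 (List.replicate ((n + m) ^ 2 + n) true)) True
      (40 * (n + m + 1) ^ 2) :=
    sqp_does (by rw [e0]; simp) (by rw [e0]; simp) (by rw [e0]; simp) (by rw [e0]; simp)
      (by rw [e0]; simp) (by rw [e0]; simp)
  have h2 := eqp_does (O := O)
    (s := update (P1_st z n m) 5 (List.replicate ((n + m) ^ 2 + n) true))
    (j := (n + m) ^ 2 + n) (by rw [update_self])
  have f0 : update (P1_st z n m) 5 (List.replicate ((n + m) ^ 2 + n) true) 0 = z := by
    rw [update_of_ne (by norm_num), e0]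
    simp
  rw [f0] at h2
  have e2 := P1_st2_apply z n m
  have h3 : Spec O gX (P1_st2 z n m)
      (fun s' => ∃ x : Str, x.length = n ∧ s' = update (P1_st2 z n m) 10 x) (20 * n + 20) :=
    gX_spec (by rw [e2]; simp) (by rw [e2]; simp) (by rw [e2]; simp) (by rw [e2]; simp)
  have h4 := h1.seq_spec fun _ => h2.seq_spec fun _ => h3.seq (R'' := fun s₁ s' =>
      ∃ x : Str, x.length = n ∧ s₁ = update (P1_st2 z n m) 10 x ∧
      s' = update (update (update (P1_st2 z n m) 10 x) 7 (wstr m)) 2 [true] ∧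
        Acc O cA x [] (2 ^ (n ^ kA + kA)) ∧ Acc O cB x (wstr m) (2 ^ (n ^ kB + kB)))
      (T' := 40 * (m + 1) ^ 2 + (2 ^ (n ^ K1 + K1) + (2 ^ ((n + m) ^ K2 + K2) + 1)))
      (d := Cmd.seq decp (Cmd.seq (call cA kA 10 30) (Cmd.seq (call cB kB 10 7) (Cmd.push 2 true))))
      (by
        rintro s₁ ⟨x, hx, rfl⟩
        refine Spec.congr (P1_tail hA hB z n m x hx) fun s' => ?_
        constructor
        · rintro ⟨h5, h6, h7⟩
          exact ⟨x, hx, rfl, h5, h6, h7⟩
        · rintro ⟨x', -, h8, h5, h6, h7⟩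
          have h9 : x = x' := by
            have := congrFun h8 10
            rwa [update_self, update_self] at this
          subst h9
          exact ⟨h5, h6, h7⟩)
  refine Spec.congr h4 fun s' => ?_
  constructor
  · rintro ⟨-, h5, s₁, -, x, h6, -, h7⟩
    exact ⟨h5, x, h6, h7⟩
  · rintro ⟨h5, x, h6, h7⟩
    exact ⟨trivial, h5, _, ⟨x, h6, rfl⟩, x, h6, rfl, h7⟩

/-- Program `Q1`. Soundness: unfold `Acc`, decompose the run of the `seq`s (`gU_sound` twice,
then the `Does`/`Spec` lemmas of the other parts); the start store has `z` on stack 0 and nothing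
else. Completeness: `n, m ≤ z.length`, time by `tb_add`, `tb_of_poly`, `tb_poly`. -/
theorem SA_mem_NEXP (O : Set Str) (cA : Cmd) (kA : ℕ) (cB : Cmd) (kB : ℕ) :
    SA O cA kA cB kB ∈ NEXP O := by
  obtain ⟨K1, hA⟩ := call_does cA kA
  obtain ⟨K2, hB⟩ := call_does cB kB
  obtain ⟨L1, hL1⟩ := tb_poly K2 1 1
  obtain ⟨L2, hL2⟩ := tb_of_poly 300 2
  obtain ⟨L3, hL3⟩ := tb_add L2 K1
  obtain ⟨L4, hL4⟩ := tb_add L3 L1
  have h0 : ∀ (z : Str) (q : ℕ), q ≠ 0 → start z [] q = [] := by
    intro z q hq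
    unfold start
    rw [if_neg hq]
    split_ifs <;> rfl
  refine ⟨L4, Q1 cA kA cB kB, fun z => ⟨?_, ?_⟩⟩
  · rintro ⟨n, m, hz, x, hx, hxA, hxB⟩
    have h3 : start z [] 3 = [] := h0 z 3 (by norm_num)
    have h5 : start z [] 5 = [] := h0 z 5 (by norm_num)
    obtain ⟨t1, ht1, r1⟩ := gU_complete (O := O) (by norm_num : (3 : ℕ) ≠ 5) h3 h5 n
    obtain ⟨t2, ht2, r2⟩ := gU_complete (O := O)
      (s := update (start z []) 3 (List.replicate n true)) (by norm_num : (4 : ℕ) ≠ 5)
      (by rw [update_of_ne (by norm_num)]; exact h0 z 4 (by norm_num))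
      (by rw [update_of_ne (by norm_num)]; exact h5) m
    obtain ⟨t3, ht3, r3⟩ := (P1_rest (hA O) (hB O) z n m).2 _ ⟨hz, x, hx, rfl, hxA, hxB⟩
    refine ⟨t1 + (t2 + t3), ?_, _, Run.seq r1 (Run.seq r2 r3), by simp⟩
    have hN : z.length = (n + m) ^ 2 + n := by rw [hz, List.length_replicate]
    have hn : n ≤ z.length := by omega
    have hm : m ≤ z.length := by
      have : m ≤ (n + m) ^ 2 := by nlinarith
      omega
    set N := z.length with hNd
    have b1 : 2 ^ (n ^ K1 + K1) ≤ 2 ^ (N ^ K1 + K1) :=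
      Nat.pow_le_pow_right (by norm_num) (Nat.add_le_add_right (Nat.pow_le_pow_left hn _) _)
    have b2 : 2 ^ ((n + m) ^ K2 + K2) ≤ 2 ^ ((N + N) ^ K2 + K2) :=
      Nat.pow_le_pow_right (by norm_num) (Nat.add_le_add_right (Nat.pow_le_pow_left (by omega) _) _)
    have b3 : 2 ^ ((N + N) ^ K2 + K2) ≤ 2 ^ (N ^ L1 + L1) := hL1 N N (by rw [pow_one, one_mul]; omega)
    have b4 := hL2 N
    have b5 := hL3 N
    have b6 := hL4 N
    have b7 : (4 * n + 10) + (4 * m + 10) + 40 * (n + m + 1) ^ 2 + (10 * N + 10) + (20 * n + 20) +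
        40 * (m + 1) ^ 2 + 1 ≤ 300 * (N + 1) ^ 2 := by
      have c1 : (n + m + 1) ^ 2 ≤ (2 * N + 1) ^ 2 := Nat.pow_le_pow_left (by omega) 2
      have c2 : (m + 1) ^ 2 ≤ (N + 1) ^ 2 := Nat.pow_le_pow_left (by omega) 2
      nlinarith
    change t1 + (t2 + t3) ≤ 2 ^ (N ^ L4 + L4)
    omega
  · rintro ⟨t, -, s', hr, h2⟩
    cases hr with
    | seq h3 h4 =>
      obtain ⟨n, rfl⟩ := gU_sound (by norm_num : (3 : ℕ) ≠ 5) (h0 z 3 (by norm_num))
        (h0 z 5 (by norm_num)) h3
      cases h4 with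
      | seq h5 h6 =>
        obtain ⟨m, rfl⟩ := gU_sound (by norm_num : (4 : ℕ) ≠ 5)
          (by rw [update_of_ne (by norm_num)]; exact h0 z 4 (by norm_num))
          (by rw [update_of_ne (by norm_num)]; exact h0 z 5 (by norm_num)) h5
        obtain ⟨h7, x, h8, -, h9, h10⟩ := (P1_rest (hA O) (hB O) z n m).1 _ _ h6
        exact ⟨n, m, h7, x, h8, h9, h10⟩

end Pool.Agent.Helper5.SX
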