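import Pool.Agent.Helper5.SY.Defs2
import Pool.Agent.Helper5.SY.Copy
import Pool.Agent.Helper5.SY.Dec

/-!
# Numbers of strings, comparisons
-/

namespace Pool.Agent.Helper5.SX

open Function

theorem wstr_inj {m m' : ℕ} (h : wstr m = wstr m') : m = m' := by
  rw [← wnum_wstr m, h, wnum_wstr]

private theorem two_pow_length_le (a : Str) : 2 ^ a.length ≤ wnum a + 1 := by
  induction a with
  | nil => simp [wnum]
  | cons b a ih =>
    rw [List.length_cons, pow_succ]
    simp only [wnum]
    split_ifs <;> omega

theorem two_pow_wstr_length (m : ℕ) : 2 ^ (wstr m).length ≤ m + 1 := by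
  have h := two_pow_length_le (wstr m)
  rwa [wnum_wstr] at h

private theorem eqwp_loop {O : Set Str} : ∀ (x : Str) (s : Store), s 0 = x →
    Does O (Cmd.loop 0 (Cmd.pop 0 Cmd.skip (Cmd.pop 7 diverge Cmd.skip diverge)
      (Cmd.pop 7 diverge diverge Cmd.skip))) s
      (update (update s 0 []) 7 ((s 7).drop x.length)) (∃ v, s 7 = x ++ v)
      (4 * x.length + 1) := by
  intro x
  induction x with
  | nil =>
    intro s h
    refine Does.congr (does_loop_nil h) (fun _ => ?_) (by simp)
    funext q
    by_cases h7 : q = 7
    · subst h7
      simp
    · by_cases h0 : q = 0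
      · subst h0
        simp [h]
      · simp [h7, h0]
  | cons b x ih =>
    intro s h
    have h07 : (0 : ℕ) ≠ 7 := by decide
    rcases h7 : s 7 with _ | ⟨c, y⟩
    · have hstep : Does O (Cmd.pop 0 Cmd.skip (Cmd.pop 7 diverge Cmd.skip diverge)
          (Cmd.pop 7 diverge diverge Cmd.skip)) s s False 3 := by
        cases b
        · exact (Spec.pop_false (T := 1) h (Spec.pop_nil (T := 0) (by simp [h7])
            (does_diverge s))).mono (by omega)
        · exact (Spec.pop_true (T := 1) h (Spec.pop_nil (T := 0) (by simp [h7])
            (does_diverge s))).mono (by omega)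
      refine (Does.congr (Does.loop_cons (s₂ := s) (ψ := False) (T' := 0) (by rw [h]; simp) hstep
        (fun hf => hf.elim)) (fun hf => hf.1.elim) ?_).mono (by simp only [List.length_cons]; omega)
      simp
    · by_cases hbc : c = b
      · subst hbc
        have hstep : Does O (Cmd.pop 0 Cmd.skip (Cmd.pop 7 diverge Cmd.skip diverge)
            (Cmd.pop 7 diverge diverge Cmd.skip)) s (update (update s 0 x) 7 y) True 3 := by
          cases c
          · exact Spec.pop_false (T := 2) h (Spec.pop_false (T := 1) (by simp [h7]) does_skip)
          · exact Spec.pop_true (T := 2) h (Spec.pop_true (T := 1) (by simp [h7]) does_skip)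
        have h2 := Does.loop_cons (by rw [h]; simp) hstep
          (fun _ => ih (update (update s 0 x) 7 y) (by simp))
        refine (Does.congr h2 (fun _ => ?_) ?_).mono (by simp only [List.length_cons]; omega)
        · funext q
          by_cases g7 : q = 7
          · subst g7
            simp
          · by_cases g0 : q = 0
            · subst g0
              simp
            · simp [g7, g0]
        · simp
      · have hstep : Does O (Cmd.pop 0 Cmd.skip (Cmd.pop 7 diverge Cmd.skip diverge)
            (Cmd.pop 7 diverge diverge Cmd.skip)) s s False 3 := by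
          cases b
          · cases c
            · exact absurd rfl hbc
            · exact (Spec.pop_false (T := 1) h (Spec.pop_true (T := 0) (w := y) (by simp [h7])
                (does_diverge s))).mono (by omega)
          · cases c
            · exact (Spec.pop_true (T := 1) h (Spec.pop_false (T := 0) (w := y) (by simp [h7])
                (does_diverge s))).mono (by omega)
            · exact absurd rfl hbc
        refine (Does.congr (Does.loop_cons (s₂ := s) (ψ := False) (T' := 0) (by rw [h]; simp)
          hstep (fun hf => hf.elim)) (fun hf => hf.1.elim) ?_).mono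
          (by simp only [List.length_cons]; omega)
        simp [hbc]

theorem eqwp_does {O : Set Str} {s : Store} :
    Does O eqwp s (update (update s 0 []) 7 []) (s 7 = s 0) (10 * (s 0).length + 10) := by
  have h1 := eqwp_loop (O := O) (s 0) s rfl
  have h2 := assertE_does (O := O) (s := update (update s 0 []) 7 ((s 7).drop (s 0).length)) 7
  refine (Does.congr (Does.seq h1 fun _ => h2) ?_ ?_).mono (by omega)
  · rintro ⟨-, h3⟩
    rw [update_self] at h3
    rw [h3]
  · rw [update_self]
    constructor
    · rintro ⟨⟨v, hv⟩, h3⟩
      rw [hv, List.drop_left] at h3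
      rw [hv, h3, List.append_nil]
    · intro h3
      exact ⟨⟨[], by rw [h3, List.append_nil]⟩, by rw [h3, List.drop_length]⟩

private theorem tallyp_loop {O : Set Str} : ∀ (x : Str) (s : Store), s 14 = x →
    Does O (Cmd.loop 14 (Cmd.pop 14 Cmd.skip diverge Cmd.skip)) s (update s 14 [])
      (∀ b ∈ x, b = true) (3 * x.length + 1) := by
  intro x
  induction x with
  | nil =>
    intro s h
    refine Does.congr (does_loop_nil h) (fun _ => ?_) (by simp)
    rw [← h, update_eq_self]
  | cons b x ih =>
    intro s h
    cases b
    · have hstep : Does O (Cmd.pop 14 Cmd.skip diverge Cmd.skip) s s False 2 :=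
        (Spec.pop_false (T := 0) h (does_diverge s)).mono (by omega)
      refine (Does.congr (Does.loop_cons (s₂ := s) (ψ := False) (T' := 0) (by rw [h]; simp) hstep
        (fun hf => hf.elim)) (fun hf => hf.1.elim) ?_).mono (by simp only [List.length_cons]; omega)
      simp
    · have hstep : Does O (Cmd.pop 14 Cmd.skip diverge Cmd.skip) s (update s 14 x) True 2 :=
        Spec.pop_true (T := 1) h does_skip
      have h2 := Does.loop_cons (by rw [h]; simp) hstep
        (fun _ => ih (update s 14 x) (by simp))
      refine (Does.congr h2 (fun _ => by simp) ?_).mono (by simp only [List.length_cons]; omega)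
      simp

theorem tallyp_does {O : Set Str} {s : Store} (h14 : s 14 = []) (h31 : s 31 = []) :
    Does O tallyp s s (∀ b ∈ s 0, b = true) (20 * (s 0).length + 20) := by
  have h1 : Does O (cpg id 0 14) s (update s 14 (s 0)) True (8 * (s 0).length + 2) := by
    refine Does.congr (cpg_does id h31 (by decide) (by decide) (by decide)) (fun _ => ?_) Iff.rfl
    rw [h14, List.map_id, List.append_nil]
  have h2 := tallyp_loop (O := O) (s 0) (update s 14 (s 0)) (by simp)
  refine (Does.congr (Does.seq h1 fun _ => h2) (fun _ => ?_) (by simp)).mono (by omega)
  rw [update_idem, ← h14, update_eq_self]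

private theorem ntallyp_loop {O : Set Str} : ∀ (x : Str) (s : Store) (k : ℕ), s 14 = x →
    s 16 = List.replicate k true →
    Does O (Cmd.loop 14 (Cmd.pop 14 Cmd.skip (Cmd.push 16 true) Cmd.skip)) s
      (update (update s 14 []) 16 (List.replicate (k + x.count false) true)) True
      (3 * x.length + 1) := by
  intro x
  induction x with
  | nil =>
    intro s k h h16
    refine Does.congr (does_loop_nil h) (fun _ => ?_) Iff.rfl
    funext q
    by_cases g1 : q = 16
    · subst g1
      simp [h16]
    · by_cases g2 : q = 14
      · subst g2
        simp [h]
      · simp [g1, g2]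
  | cons b x ih =>
    intro s k h h16
    cases b
    · have hstep : Does O (Cmd.pop 14 Cmd.skip (Cmd.push 16 true) Cmd.skip) s
          (update (update s 14 x) 16 (List.replicate (k + 1) true)) True 2 := by
        refine Spec.pop_false (T := 1) h (Does.congr (does_push 16 true) (fun _ => ?_) Iff.rfl)
        rw [update_of_ne (by decide), h16, List.replicate_succ]
      have h2 := Does.loop_cons (by rw [h]; simp) hstep
        (fun _ => ih (update (update s 14 x) 16 (List.replicate (k + 1) true)) (k + 1)
          (by simp) (by simp))
      refine (Does.congr h2 (fun _ => ?_) (by simp)).mono (by simp only [List.length_cons]; omega)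
      have e : (false :: x).count false = x.count false + 1 := by simp
      rw [e]
      funext q
      by_cases g1 : q = 16
      · subst g1
        simp only [update_self]
        congr 1
        omega
      · by_cases g2 : q = 14
        · subst g2
          simp
        · simp [g1, g2]
    · have hstep : Does O (Cmd.pop 14 Cmd.skip (Cmd.push 16 true) Cmd.skip) s
          (update s 14 x) True 2 := Spec.pop_true (T := 1) h does_skip
      have h2 := Does.loop_cons (by rw [h]; simp) hstep
        (fun _ => ih (update s 14 x) k (by simp) (by rw [update_of_ne (by decide), h16]))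
      refine (Does.congr h2 (fun _ => ?_) (by simp)).mono (by simp only [List.length_cons]; omega)
      have e : (true :: x).count false = x.count false := by simp
      rw [e, update_idem]

theorem ntallyp_does {O : Set Str} {s : Store} (h14 : s 14 = []) (h16 : s 16 = [])
    (h31 : s 31 = []) :
    Does O ntallyp s s (∃ b ∈ s 0, b = false) (20 * (s 0).length + 20) := by
  have h1 : Does O (cpg id 0 14) s (update s 14 (s 0)) True (8 * (s 0).length + 2) := by
    refine Does.congr (cpg_does id h31 (by decide) (by decide) (by decide)) (fun _ => ?_) Iff.rfl
    rw [h14, List.map_id, List.append_nil]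
  have h2 := ntallyp_loop (O := O) (s 0) (update s 14 (s 0)) 0 (by simp)
    (by rw [update_of_ne (by decide), h16]; rfl)
  rw [zero_add] at h2
  obtain ⟨S, hS⟩ : ∃ S, S = update (update (update s 14 (s 0)) 14 []) 16
    (List.replicate ((s 0).count false) true) := ⟨_, rfl⟩
  rw [← hS] at h2
  have h3 := assertNE_does (O := O) (s := S) 16
  have h4 := clr_does (O := O) (s := S) 16
  have h5 : S 16 = List.replicate ((s 0).count false) true := by rw [hS, update_self]
  have h6 : (s 0).count false ≤ (s 0).length := List.count_le_length
  refine (Does.congr (Does.seq h1 fun _ => Does.seq h2 fun _ => Does.seq h3 fun _ => h4)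
    (fun _ => ?_) ?_).mono ?_
  · rw [hS, update_idem]
    funext q
    by_cases g1 : q = 16
    · subst g1
      simp [h16]
    · by_cases g2 : q = 14
      · subst g2
        simp [h14]
      · simp [g1, g2]
  · rw [h5]
    have e : List.replicate ((s 0).count false) true ≠ [] ↔ 0 < (s 0).count false := by
      rw [Ne, List.replicate_eq_nil_iff]
      omega
    rw [e, List.count_pos_iff]
    simp
  · rw [h5, List.length_replicate]
    omega

end Pool.Agent.Helper5.SX
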